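import Pool.Agent.Helper8.SI.M5

/-!
# Short intervals: the equivalences
-/

set_option autoImplicit false

namespace Pool.Agent.Helper8.SI

open Pool.Agent.Helper68.Moeller Pool.Agent.Helper8 Pool.Agent.Helper28 Pool.Agent.Helper91 Pool.Agent.Helper8.ND
  Filter Topology

variable {ρ : ℤ}

theorem T_pos (hρ : ρ = 1 ∨ ρ = -1) {n : ℤ} (hn : 0 < n) : 0 < T 2 3 (fun _ => ρ) n := by
  unfold T
  split_ifs with h
  · push_cast at h ⊢
    omega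
  · push_cast at h ⊢
    rcases hρ with rfl | rfl <;> omega

theorem iter_pos (hρ : ρ = 1 ∨ ρ = -1) {n : ℤ} (hn : 0 < n) (k : ℕ) : 0 < (T 2 3 (fun _ => ρ))^[k] n := by
  induction k with
  | zero => exact hn
  | succ k ih =>
    rw [Function.iterate_succ_apply']
    exact T_pos hρ ih

theorem mem_iter (hρ : ρ = 1 ∨ ρ = -1) {G : Set ℤ} (hG : POSB.Inv 2 3 (fun _ => ρ) G) {n : ℤ} (hn : 0 < n) (k : ℕ) :
    n ∈ G ↔ (T 2 3 (fun _ => ρ))^[k] n ∈ G := by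
  induction k with
  | zero => exact Iff.rfl
  | succ k ih =>
    rw [Function.iterate_succ_apply']
    exact ih.trans (hG _ (iter_pos hρ hn k))

theorem good_of_fd {ρ : ℤ} {G : Set ℤ} (hstd : POSB.Std 2 3 (fun _ => ρ)) {z D : ℝ} (hG : TInv 2 3 (fun _ => ρ) G z)
    (hD : Tendsto (fun x : ℝ => cN G x / x) atTop (𝓝 D)) (hD0 : 0 < D) : ∀ᶠ x in atTop, D / 2 ≤ fd G x := by
  have hdens : PL.dens G = D := tendsto_nhds_unique (POSB.tendsto_dens hstd hG) hD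
  have h := (PL.stab_tendsto hstd.hd hstd.hdm hstd.hco hstd.hr hstd.gam hstd.mix hG).eventually
      (lt_mem_nhds (by linarith : D / 2 < PL.dens G))
  exact h.mono fun x hx => hx.le

theorem window_card {y : ℝ} (hy : 0 ≤ y) : y ≤ ({h : ℤ | 0 ≤ h ∧ (h : ℝ) ≤ y}.ncard : ℝ) := by
  have e : {h : ℤ | 0 ≤ h ∧ (h : ℝ) ≤ y} = ((Finset.Icc (0 : ℤ) ⌊y⌋ : Finset ℤ) : Set ℤ) := by
    ext h
    rw [Finset.mem_coe, Finset.mem_Icc]
    simp only [Set.mem_ofPred_eq]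
    rw [Int.le_floor]
  rw [e, Set.ncard_coe_finset, Int.card_Icc]
  have h3 : (0 : ℤ) ≤ ⌊y⌋ := Int.floor_nonneg.2 hy
  have h4 : ((⌊y⌋ + 1 - 0).toNat : ℤ) = ⌊y⌋ + 1 := by
    rw [Int.toNat_of_nonneg (by omega)]
    ring
  have h5 : (((⌊y⌋ + 1 - 0).toNat : ℕ) : ℝ) = (⌊y⌋ : ℝ) + 1 := by exact_mod_cast h4
  rw [h5]
  exact (Int.lt_floor_add_one y).le

theorem window_finite (y : ℝ) (P : ℤ → Prop) : {h : ℤ | 0 ≤ h ∧ (h : ℝ) ≤ y ∧ P h}.Finite := by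
  refine (Set.finite_Icc (0 : ℤ) ⌊y⌋).subset ?_
  rintro h ⟨h1, h2, -⟩
  exact ⟨h1, Int.le_floor.2 h2⟩

theorem dyadic_finite (x : ℝ) (P : ℤ → Prop) : {n : ℤ | x ≤ n ∧ (n : ℝ) < 2 * x ∧ P n}.Finite := by
  refine (Set.finite_Icc ⌈x⌉ ⌊2 * x⌋).subset ?_
  rintro n ⟨h1, h2, -⟩
  exact ⟨Int.ceil_le.2 h1, Int.le_floor.2 h2.le⟩

/-- A set of density one misses few integers of `[x, 2x)`. -/
theorem miss {A : Set ℤ} (hA : Tendsto (fun x : ℝ => cN A x / x) atTop (𝓝 1)) {η : ℝ} (hη : 0 < η) :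
    ∀ᶠ x : ℝ in atTop, ({n : ℤ | x ≤ n ∧ (n : ℝ) < 2 * x ∧ n ∉ A}.ncard : ℝ) ≤ η * x := by
  have hA' : Tendsto (fun x : ℝ => cN Aᶜ x / x) atTop (𝓝 0) := by
    have h1 := (POSB.cN_univ_tendsto (G := A ∪ Aᶜ) fun n _ => by
      rw [Set.union_compl_self]
      exact Set.mem_univ n).sub hA
    rw [sub_self] at h1
    refine h1.congr fun x => ?_
    rw [POSB.cN_union disjoint_compl_right]
    ring
  have h2 : Tendsto (fun x : ℝ => cN Aᶜ (2 * x) / (2 * x)) atTop (𝓝 0) :=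
    hA'.comp (tendsto_id.const_mul_atTop (by norm_num : (0 : ℝ) < 2))
  have h3 := h2.eventually (gt_mem_nhds (by linarith : (0 : ℝ) < η / 2))
  filter_upwards [h3, eventually_ge_atTop 1] with x hx hx1
  rw [div_lt_iff₀ (by linarith)] at hx
  have h4 : ({n : ℤ | x ≤ n ∧ (n : ℝ) < 2 * x ∧ n ∉ A}.ncard : ℝ) ≤ cN Aᶜ (2 * x) := by
    unfold cN
    refine Nat.cast_le.2 (Set.ncard_le_ncard ?_ (finite_cN Aᶜ (2 * x)))
    rintro n ⟨h5, h6, h7⟩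
    refine ⟨h7, ?_, h6.le⟩
    have : (0 : ℝ) < n := by linarith
    exact_mod_cast this
  linarith

/-- **Short intervals in an invariant set.** -/
theorem inv_windows (hρ : ρ = 1 ∨ ρ = -1) (hstd : POSB.Std 2 3 (fun _ => ρ)) (hl : PW.LevelD 2 3 (fun _ => ρ))
    (hF : FlowI 2 3 (fun _ => ρ)) {θ ε : ℝ} (hθ0 : 0 < θ) (hθ1 : θ < 1) (hε : 0 < ε) :
    ∃ c : ℝ, 0 < c ∧ ∀ D : ℝ, 0 < D → ∃ X : ℝ, ∀ G : Set ℤ, POSB.Inv 2 3 (fun _ => ρ) G →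
      Tendsto (fun x : ℝ => cN G x / x) atTop (𝓝 D) → ∀ x : ℝ, X ≤ x →
      c * D * x ≤ ({n : ℤ | x ≤ n ∧ (n : ℝ) < 2 * x ∧ ∃ (t : ℕ) (v : ℤ), (t : ℝ) ≤ 9 * Real.log n ∧
        ({h : ℤ | 0 ≤ h ∧ (h : ℝ) ≤ (n : ℝ) ^ θ ∧ ¬ (n + h ∈ G ∧ (T 2 3 (fun _ => ρ))^[t] (n + h) = v)}.ncard : ℝ) ≤
          ε * (n : ℝ) ^ θ}.ncard : ℝ) := by
  obtain ⟨c, hc, h⟩ := main hρ hl hF hθ0 hθ1 (lt_min hε one_pos) (min_le_right ε 1)
  refine ⟨c / 2, by positivity, fun D hD => ?_⟩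
  obtain ⟨X, hX⟩ := h 0 (D / 2) le_rfl (by linarith)
  refine ⟨max X 1, fun G hG hGD x hx => ?_⟩
  have h1 := hX G hG.tinv (good_of_fd hstd hG.tinv hGD hD) x ((le_max_left _ _).trans hx)
  have h2 : c / 2 * D * x = c * (D / 2) * x := by ring
  rw [h2]
  refine h1.trans (Nat.cast_le.2 (Set.ncard_le_ncard ?_ (dyadic_finite x _)))
  rintro n ⟨h3, h4, s, v, h5, h6, -, h7⟩
  refine ⟨h3, h4, s, v, h5, ?_⟩
  have hn1 : (1 : ℝ) ≤ n := ((le_max_right _ _).trans hx).trans h3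
  have hn0 : (0 : ℤ) < n := by exact_mod_cast (by linarith : (0 : ℝ) < n)
  refine le_trans (le_trans (Nat.cast_le.2 (Set.ncard_le_ncard ?_ (window_finite _ _))) h7)
    (mul_le_mul_of_nonneg_right (min_le_left ε 1) (Real.rpow_nonneg (by linarith) _))
  rintro k ⟨a1, a2, a3⟩
  refine ⟨a1, a2, fun e => a3 ⟨?_, e⟩⟩
  rw [mem_iter hρ hG (by omega : 0 < n + k) s, e]
  exact h6

/-- The exceptional set. -/
theorem exc_short {r : ℤ → ℤ} (hρ : r 1 = 1 ∨ r 1 = -1) (hstd : POSB.Std 2 3 r)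
    (hl : PW.LevelD 2 3 (fun _ => r 1)) (hF : FlowI 2 3 (fun _ => r 1)) {θ c : ℝ} (hθ0 : 0 < θ) (hθ1 : θ < 1) (hc0 : 0 < c)
    (hc1 : c ≤ 1) :
    ((E 2 3 r).Finite ↔ ∃ B : ℝ, Tendsto (fun x : ℝ => cN {n : ℤ | c * (n : ℝ) ^ θ ≤
      ({h : ℤ | 0 ≤ h ∧ (h : ℝ) ≤ (n : ℝ) ^ θ ∧ ∃ t : ℕ, ((T 2 3 r)^[t] (n + h) : ℝ) ≤ B}.ncard : ℝ)} x / x) atTop (𝓝 1)) := by
  constructor
  · intro hfin
    obtain ⟨B, hB⟩ := PRE.stay_empty (le_refl 2) hstd.hr hfin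
    refine ⟨B, POSB.cN_univ_tendsto fun n hn => ?_⟩
    have hn0 : (0 : ℝ) < n := by exact_mod_cast hn
    have hy : 0 ≤ (n : ℝ) ^ θ := Real.rpow_nonneg hn0.le _
    have e : {h : ℤ | 0 ≤ h ∧ (h : ℝ) ≤ (n : ℝ) ^ θ ∧ ∃ t : ℕ, ((T 2 3 r)^[t] (n + h) : ℝ) ≤ B} =
        {h : ℤ | 0 ≤ h ∧ (h : ℝ) ≤ (n : ℝ) ^ θ} := by
      ext h
      simp only [Set.mem_ofPred_eq]
      refine ⟨fun a => ⟨a.1, a.2.1⟩, fun a => ⟨a.1, a.2, ?_⟩⟩
      have h1 := hB (n + h)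
      push Not at h1
      obtain ⟨t, -, ht⟩ := h1 0
      exact ⟨t, ht⟩
    show c * (n : ℝ) ^ θ ≤ _
    rw [e]
    have := window_card hy
    nlinarith
  · rintro ⟨B, hB⟩
    by_contra hinf
    obtain ⟨β, hβ, hE⟩ := POSB.above hstd
    have hβ0 : β (max B 0) ≠ 0 := fun h0 => hinf (hE.2 ⟨_, h0⟩)
    have hβ1 : 0 < β (max B 0) := by
      refine lt_of_le_of_ne (ge_of_tendsto (hβ (max B 0)) ?_) hβ0.symm
      filter_upwards [eventually_gt_atTop 0] with x hx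
      exact div_nonneg (cN_nonneg _ x) hx.le
    have hTc : T 2 3 r = T 2 3 (fun _ => r 1) := CO.T_eq
    have hti : TInv 2 3 r (POSB.Above 2 3 r (max B 0)) (max B 0) := POSB.tinv_Above (max B 0)
    have hti' : TInv 2 3 (fun _ => r 1) (POSB.Above 2 3 r (max B 0)) (max B 0) := fun n hn => by
      rw [hti n hn, hTc]
    have hdens : PL.dens (POSB.Above 2 3 r (max B 0)) = β (max B 0) :=
      tendsto_nhds_unique (POSB.tendsto_dens hstd hti) (hβ (max B 0))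
    have hfd : ∀ᶠ x in atTop, β (max B 0) / 2 ≤ fd (POSB.Above 2 3 r (max B 0)) x := by
      have h := (PL.stab_tendsto hstd.hd hstd.hdm hstd.hco hstd.hr hstd.gam hstd.mix hti).eventually
        (lt_mem_nhds (by rw [hdens]; linarith : β (max B 0) / 2 < PL.dens (POSB.Above 2 3 r (max B 0))))
      exact h.mono fun x hx => hx.le
    obtain ⟨c₁, hc₁, h⟩ := main hρ hl hF hθ0 hθ1 (show 0 < c / 2 by linarith) (by linarith)
    obtain ⟨X, hX⟩ := h (max B 0) (β (max B 0) / 2) (le_max_right _ _) (by linarith)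
    have h1 := miss hB (η := c₁ * (β (max B 0) / 4)) (by positivity)
    obtain ⟨x, hx1, hx2⟩ := (h1.and (eventually_ge_atTop (max X 1))).exists
    have h2 := hX _ hti' hfd x ((le_max_left _ _).trans hx2)
    have hxx : 1 ≤ x := (le_max_right _ _).trans hx2
    have h3 : c₁ * (β (max B 0) / 2) * x ≤ c₁ * (β (max B 0) / 4) * x := by
      refine h2.trans (le_trans (Nat.cast_le.2 (Set.ncard_le_ncard ?_ (dyadic_finite x _))) hx1)
      rintro n ⟨h3, h4, s, v, -, h6, h7, h8⟩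
      refine ⟨h3, h4, ?_⟩
      have hn1 : (1 : ℝ) ≤ n := hxx.trans h3
      have hn0 : (0 : ℤ) < n := by exact_mod_cast (by linarith : (0 : ℝ) < n)
      have hy : 0 < (n : ℝ) ^ θ := Real.rpow_pos_of_pos (by linarith) _
      show ¬ (c * (n : ℝ) ^ θ ≤ _)
      rw [not_le]
      refine lt_of_le_of_lt (le_trans (Nat.cast_le.2 (Set.ncard_le_ncard ?_ (window_finite _ _))) h8) (by nlinarith)
      rintro k ⟨a1, a2, t, a3⟩
      refine ⟨a1, a2, fun e => ?_⟩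
      rw [hTc] at a3
      have hpos := iter_pos (ρ := r 1) hρ (by omega : 0 < n + k)
      rcases le_total t s with hts | hts
      · refine h7 ((T 2 3 (fun _ => r 1))^[t] (n + k)) (s - t) (hpos t) (a3.trans (le_max_left _ _)) (Nat.sub_le _ _) ?_
        rw [← Function.iterate_add_apply, Nat.sub_add_cancel hts]
        exact e
      · have h9 := h6 (t - s)
        rw [← e, hTc, ← Function.iterate_add_apply, Nat.sub_add_cancel hts] at h9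
        have := le_max_left B 0
        linarith
    have h4 : 0 < c₁ * β (max B 0) * x := by positivity
    nlinarith

/-- The density one criterion for an invariant set. -/
theorem dens_one (hρ : ρ = 1 ∨ ρ = -1) (hstd : POSB.Std 2 3 (fun _ => ρ)) (hl : PW.LevelD 2 3 (fun _ => ρ))
    (hF : FlowI 2 3 (fun _ => ρ)) {θ c : ℝ} (hθ0 : 0 < θ) (hθ1 : θ < 1) (hc0 : 0 < c) {G : Set ℤ} (hG : POSB.Inv 2 3 (fun _ => ρ) G)
    (hA : Tendsto (fun x : ℝ => cN {n : ℤ | c * (n : ℝ) ^ θ ≤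
      ({h : ℤ | 0 ≤ h ∧ (h : ℝ) ≤ (n : ℝ) ^ θ ∧ n + h ∈ G}.ncard : ℝ)} x / x) atTop (𝓝 1)) :
    PL.dens G = 1 := by
  by_contra hne
  have hd := POSB.tendsto_dens hstd hG.tinv
  have hle : PL.dens G ≤ 1 := by
    refine le_of_tendsto hd ?_
    filter_upwards [eventually_gt_atTop 0] with x hx
    rw [div_le_one hx]
    exact cN_le G hx.le
  have hlt : 0 < 1 - PL.dens G := by
    have := lt_of_le_of_ne hle hne
    linarith
  have hGc : POSB.Inv 2 3 (fun _ => ρ) Gᶜ := fun n hn => by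
    rw [Set.mem_compl_iff, Set.mem_compl_iff, hG n hn]
  have hdc : Tendsto (fun x : ℝ => cN Gᶜ x / x) atTop (𝓝 (1 - PL.dens G)) := by
    have h1 := (POSB.cN_univ_tendsto (G := G ∪ Gᶜ) fun n _ => by
      rw [Set.union_compl_self]
      exact Set.mem_univ n).sub hd
    refine h1.congr fun x => ?_
    rw [POSB.cN_union disjoint_compl_right]
    ring
  obtain ⟨c₁, hc₁, h⟩ := inv_windows hρ hstd hl hF hθ0 hθ1 (show 0 < c / 2 by linarith)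
  obtain ⟨X, hX⟩ := h _ hlt
  have h1 := miss hA (η := c₁ * (1 - PL.dens G) / 2) (by positivity)
  obtain ⟨x, hx1, hx2⟩ := (h1.and (eventually_ge_atTop (max X 1))).exists
  have h2 := hX _ hGc hdc x ((le_max_left _ _).trans hx2)
  have hxx : 1 ≤ x := (le_max_right _ _).trans hx2
  have h3 : c₁ * (1 - PL.dens G) * x ≤ c₁ * (1 - PL.dens G) / 2 * x := by
    refine h2.trans (le_trans (Nat.cast_le.2 (Set.ncard_le_ncard ?_ (dyadic_finite x _))) hx1)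
    rintro n ⟨h3, h4, t, v, -, h8⟩
    refine ⟨h3, h4, ?_⟩
    have hn1 : (1 : ℝ) ≤ n := hxx.trans h3
    have hy : 0 < (n : ℝ) ^ θ := Real.rpow_pos_of_pos (by linarith) _
    show ¬ (c * (n : ℝ) ^ θ ≤ _)
    rw [not_le]
    refine lt_of_le_of_lt (le_trans (Nat.cast_le.2 (Set.ncard_le_ncard ?_ (window_finite _ _))) h8) (by nlinarith)
    rintro k ⟨a1, a2, a3⟩
    exact ⟨a1, a2, fun e => e.1 a3⟩
  have h4 : 0 < c₁ * (1 - PL.dens G) * x := by positivity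
  linarith

/-- The map `3x + 1`. -/
theorem three_short (hl : PW.LevelD 2 3 (fun _ => (-1 : ℤ))) (hF : FlowI 2 3 (fun _ => (-1 : ℤ))) {θ : ℝ} (hθ0 : 0 < θ)
    (hθ1 : θ < 1) :
    -- almost all intervals
    (∀ c : ℝ, 0 < c → c ≤ 1 → ((∀ n : ℤ, 0 < n → ∃ t : ℕ, (T 2 3 (fun _ => -1))^[t] n = 1) ↔
      Tendsto (fun x : ℝ => cN {n : ℤ | c * (n : ℝ) ^ θ ≤
      ({h : ℤ | 0 ≤ h ∧ (h : ℝ) ≤ (n : ℝ) ^ θ ∧ ∃ t : ℕ, (T 2 3 (fun _ => -1))^[t] (n + h) = 1}.ncard : ℝ)} x / x) atTop (𝓝 1))) ∧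
    -- a positive proportion of the intervals
    (∀ ε : ℝ, 0 < ε → ∃ c X : ℝ, 0 < c ∧ ∀ x : ℝ, X ≤ x → c * x ≤ ({n : ℤ | x ≤ n ∧ (n : ℝ) < 2 * x ∧
      ∃ s : ℕ, ({h : ℤ | 0 ≤ h ∧ (h : ℝ) ≤ (n : ℝ) ^ θ ∧ ¬ ((T 2 3 (fun _ => -1))^[s] (n + h) = 1 ∧
        ∀ i < s, (T 2 3 (fun _ => -1))^[i] (n + h) ≠ 1)}.ncard : ℝ) ≤ ε * (n : ℝ) ^ θ}.ncard : ℝ)) := by
  have hρ : (-1 : ℤ) = 1 ∨ (-1 : ℤ) = -1 := Or.inr rfl
  have hstd := POSB.std_three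
  set G : Set ℤ := {n : ℤ | ∃ t : ℕ, (T 2 3 (fun _ => -1))^[t] n = 1} with hGd
  have hG : POSB.Inv 2 3 (fun _ => (-1 : ℤ)) G := PW.inv_reach
  obtain ⟨p, hp0, hp, hp1⟩ := POSB.three
  have hpG : PL.dens G = p := tendsto_nhds_unique (POSB.tendsto_dens hstd hG.tinv) hp
  refine ⟨fun c hc0 hc1 => ⟨fun hall => POSB.cN_univ_tendsto fun n hn => ?_, fun hA => ?_⟩, fun ε hε => ?_⟩
  · have hn0 : (0 : ℝ) < n := by exact_mod_cast hn
    have hy : 0 ≤ (n : ℝ) ^ θ := Real.rpow_nonneg hn0.le _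
    have e : {h : ℤ | 0 ≤ h ∧ (h : ℝ) ≤ (n : ℝ) ^ θ ∧ ∃ t : ℕ, (T 2 3 (fun _ => (-1 : ℤ)))^[t] (n + h) = 1} =
        {h : ℤ | 0 ≤ h ∧ (h : ℝ) ≤ (n : ℝ) ^ θ} := by
      ext h
      simp only [Set.mem_ofPred_eq]
      exact ⟨fun a => ⟨a.1, a.2.1⟩, fun a => ⟨a.1, a.2, hall (n + h) (by omega)⟩⟩
    show c * (n : ℝ) ^ θ ≤ _
    rw [e]
    have := window_card hy
    nlinarith
  · refine hp1.1 ?_
    rw [← hpG]
    exact dens_one hρ hstd hl hF hθ0 hθ1 hc0 hG hA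
  · obtain ⟨c, hc, h⟩ := main hρ hl hF hθ0 hθ1 (lt_min hε one_pos) (min_le_right ε 1)
    obtain ⟨X, hX⟩ := h 1 (p / 2) zero_le_one (by linarith)
    refine ⟨c * (p / 2), max X 1, by positivity, fun x hx => ?_⟩
    have hti : TInv 2 3 (fun _ => (-1 : ℤ)) G 1 := fun n hn => hG n (by
      have : (1 : ℤ) < n := by exact_mod_cast hn
      omega)
    have h1 := hX G hti (good_of_fd hstd hG.tinv hp hp0) x ((le_max_left _ _).trans hx)
    refine h1.trans (Nat.cast_le.2 (Set.ncard_le_ncard ?_ (dyadic_finite x _)))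
    rintro n ⟨h3, h4, s, v, -, h6, h7, h8⟩
    have hn1 : (1 : ℝ) ≤ n := ((le_max_right _ _).trans hx).trans h3
    have hn0 : (0 : ℤ) < n := by exact_mod_cast (by linarith : (0 : ℝ) < n)
    have hv : ∃ t : ℕ, (T 2 3 (fun _ => (-1 : ℤ)))^[t] v = 1 := h6
    refine ⟨h3, h4, Nat.find hv + s, ?_⟩
    refine le_trans (le_trans (Nat.cast_le.2 (Set.ncard_le_ncard ?_ (window_finite _ _))) h8)
      (mul_le_mul_of_nonneg_right (min_le_left ε 1) (Real.rpow_nonneg (by linarith) _))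
    rintro k ⟨a1, a2, a3⟩
    refine ⟨a1, a2, fun e => a3 ⟨?_, fun i hi he => ?_⟩⟩
    · rw [Function.iterate_add_apply, e]
      exact Nat.find_spec hv
    · rcases le_total i s with his | his
      · refine h7 1 (s - i) one_pos (by norm_num) (Nat.sub_le _ _) ?_
        calc (T 2 3 (fun _ => (-1 : ℤ)))^[s - i] 1 =
            (T 2 3 (fun _ => (-1 : ℤ)))^[s - i] ((T 2 3 (fun _ => (-1 : ℤ)))^[i] (n + k)) := by rw [he]
          _ = v := by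
            rw [← Function.iterate_add_apply, Nat.sub_add_cancel his]
            exact e
      · obtain ⟨j, rfl⟩ := Nat.exists_eq_add_of_le his
        rw [Nat.add_comm s j, Function.iterate_add_apply, e] at he
        exact Nat.find_min hv (by omega) he

/-- The alternative for the map `3x + 1`. -/
theorem three_alt (hl : PW.LevelD 2 3 (fun _ => (-1 : ℤ))) (hF : FlowI 2 3 (fun _ => (-1 : ℤ))) {θ ε : ℝ} (hθ0 : 0 < θ)
    (hθ1 : θ < 1) (hε : 0 < ε) (hno : ¬ ∀ n : ℤ, 0 < n → ∃ t : ℕ, (T 2 3 (fun _ => -1))^[t] n = 1) :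
    ∃ c X : ℝ, 0 < c ∧ ∀ x : ℝ, X ≤ x → c * x ≤ ({n : ℤ | x ≤ n ∧ (n : ℝ) < 2 * x ∧
      ({h : ℤ | 0 ≤ h ∧ (h : ℝ) ≤ (n : ℝ) ^ θ ∧ ∃ t : ℕ, (T 2 3 (fun _ => -1))^[t] (n + h) = 1}.ncard : ℝ) ≤
        ε * (n : ℝ) ^ θ}.ncard : ℝ) := by
  have hρ : (-1 : ℤ) = 1 ∨ (-1 : ℤ) = -1 := Or.inr rfl
  have hstd := POSB.std_three
  set G : Set ℤ := {n : ℤ | ∃ t : ℕ, (T 2 3 (fun _ => -1))^[t] n = 1} with hGd
  have hG : POSB.Inv 2 3 (fun _ => (-1 : ℤ)) G := PW.inv_reach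
  obtain ⟨p, hp0, hp, hp1⟩ := POSB.three
  have hpne : p ≠ 1 := fun h => hno (hp1.1 h)
  have hple : p ≤ 1 := by
    refine le_of_tendsto hp ?_
    filter_upwards [eventually_gt_atTop 0] with x hx
    rw [div_le_one hx]
    exact cN_le G hx.le
  have hplt : 0 < 1 - p := by
    have := lt_of_le_of_ne hple hpne
    linarith
  have hGc : POSB.Inv 2 3 (fun _ => (-1 : ℤ)) Gᶜ := fun n hn => by
    rw [Set.mem_compl_iff, Set.mem_compl_iff, hG n hn]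
  have hdc : Tendsto (fun x : ℝ => cN Gᶜ x / x) atTop (𝓝 (1 - p)) := by
    have h1 := (POSB.cN_univ_tendsto (G := G ∪ Gᶜ) fun n _ => by
      rw [Set.union_compl_self]
      exact Set.mem_univ n).sub hp
    refine h1.congr fun x => ?_
    rw [POSB.cN_union disjoint_compl_right]
    ring
  obtain ⟨c, hc, h⟩ := inv_windows hρ hstd hl hF hθ0 hθ1 hε
  obtain ⟨X, hX⟩ := h _ hplt
  refine ⟨c * (1 - p), X, by positivity, fun x hx => ?_⟩
  refine (hX _ hGc hdc x hx).trans (Nat.cast_le.2 (Set.ncard_le_ncard ?_ (dyadic_finite x _)))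
  rintro n ⟨h3, h4, t, v, -, h8⟩
  refine ⟨h3, h4, le_trans (Nat.cast_le.2 (Set.ncard_le_ncard ?_ (window_finite _ _))) h8⟩
  rintro k ⟨a1, a2, a3⟩
  exact ⟨a1, a2, fun e => e.1 a3⟩

end Pool.Agent.Helper8.SI
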