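import Pool.Agent.Helper8.SI.Def

/-!
# Block M, part 2: numerical bounds, the error of the iterated flow
-/

set_option autoImplicit false

namespace Pool.Agent.Helper8.SI

open Finset

/-- The drift of the logarithm per step. -/
noncomputable def lam : ℝ := Real.log 2 - Real.log 3 / 2

theorem log3_lt : Real.log 3 < 1.0995 := by
  have h1 : (3 : ℝ) ^ 29 < 2 ^ 46 := by norm_num
  have h2 := Real.log_lt_log (by positivity) h1
  rw [Real.log_pow, Real.log_pow] at h2
  have h3 := Real.log_two_lt_d9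
  push_cast at h2
  linarith

theorem log3_pos : 0 < Real.log 3 := Real.log_pos (by norm_num)

theorem lam_ge : 1 / 7 ≤ lam := by
  have h1 : (3 : ℝ) ^ 29 < 2 ^ 46 := by norm_num
  have h2 := Real.log_lt_log (by positivity) h1
  rw [Real.log_pow, Real.log_pow] at h2
  have h3 := Real.log_two_gt_d9
  push_cast at h2
  unfold lam
  linarith

theorem lam_le : lam ≤ 1 := by
  have h3 := Real.log_two_lt_d9
  have := log3_pos
  unfold lam
  linarith

theorem g_le (κ : ℝ) : (2 : ℝ) ^ κ * (1 + (3 : ℝ) ^ (-κ)) / 2 ≤ Real.exp (κ * lam + κ ^ 2 / 6) := by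
  obtain ⟨a, ha⟩ : ∃ a : ℝ, a = κ * Real.log 3 / 2 := ⟨_, rfl⟩
  have h1 : (3 : ℝ) ^ (-κ) = Real.exp (-a) * Real.exp (-a) := by
    rw [Real.rpow_def_of_pos (by norm_num), ← Real.exp_add]
    congr 1
    rw [ha]; ring
  have h2 : 1 + Real.exp (-a) * Real.exp (-a) = Real.exp (-a) * (2 * Real.cosh a) := by
    rw [Real.cosh_eq]
    have : Real.exp (-a) * Real.exp a = 1 := by rw [← Real.exp_add]; simp
    linear_combination -this
  have h3 : (2 : ℝ) ^ κ = Real.exp (κ * Real.log 2) := by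
    rw [Real.rpow_def_of_pos (by norm_num)]
    congr 1
    ring
  have h4 := Real.cosh_le_exp_half_sq a
  rw [h1, h2, h3]
  have h5 : Real.exp (κ * Real.log 2) * (Real.exp (-a) * (2 * Real.cosh a)) / 2 =
      Real.exp (κ * Real.log 2) * Real.exp (-a) * Real.cosh a := by ring
  rw [h5]
  refine (mul_le_mul_of_nonneg_left h4 (by positivity)).trans ?_
  rw [← Real.exp_add, ← Real.exp_add]
  apply Real.exp_le_exp.2
  have h6 : a ^ 2 / 2 ≤ κ ^ 2 / 6 := by
    have h7 : Real.log 3 ^ 2 ≤ 4 / 3 := by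
      have := log3_lt
      have := log3_pos
      nlinarith
    have h8 : a ^ 2 / 2 = κ ^ 2 * Real.log 3 ^ 2 / 8 := by rw [ha]; ring
    rw [h8]
    nlinarith [sq_nonneg κ]
  unfold lam
  rw [ha] at h6 ⊢
  linarith

theorem geom_le (p : ℕ) : ∑ i ∈ range p, Real.exp (-(((p : ℝ) - i) / 14)) ≤ 14 := by
  have h1 : ∑ i ∈ range p, Real.exp (-(((p : ℝ) - i) / 14)) = ∑ k ∈ range p, Real.exp (-(1 / 14)) ^ (k + 1) := by
    rw [← Finset.sum_range_reflect (fun k => Real.exp (-(1 / 14)) ^ (k + 1)) p]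
    refine Finset.sum_congr rfl fun i hi => ?_
    rw [Finset.mem_range] at hi
    rw [← Real.exp_nat_mul]
    congr 1
    have : ((p - 1 - i + 1 : ℕ) : ℝ) = p - i := by
      have e : p - 1 - i + 1 = p - i := by omega
      rw [e, Nat.cast_sub hi.le]
    rw [this]; ring
  rw [h1]
  obtain ⟨r, hr⟩ : ∃ r : ℝ, r = Real.exp (-(1 / 14)) := ⟨_, rfl⟩
  rw [← hr]
  have hr0 : 0 < r := by rw [hr]; exact Real.exp_pos _
  have hr1 : r < 1 := by rw [hr]; exact Real.exp_lt_one_iff.2 (by norm_num)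
  have h2 : ∑ k ∈ range p, r ^ (k + 1) = r * ∑ k ∈ range p, r ^ k := by
    rw [Finset.mul_sum]
    exact Finset.sum_congr rfl fun k _ => by ring
  have h3 : ∑ k ∈ range p, r ^ k ≤ (1 - r)⁻¹ := by
    rw [geom_sum_eq hr1.ne, ← neg_div_neg_eq, neg_sub, neg_sub, ← one_div]
    apply div_le_div_of_nonneg_right _ (by linarith)
    have : 0 ≤ r ^ p := by positivity
    linarith
  rw [h2]
  refine (mul_le_mul_of_nonneg_left h3 hr0.le).trans ?_
  rw [← div_eq_mul_inv, div_le_iff₀ (by linarith)]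
  have h4 : r * (1 + 1 / 14) ≤ 1 := by
    have h5 := Real.add_one_le_exp (1 / 14 : ℝ)
    have h6 : r * Real.exp (1 / 14) = 1 := by rw [hr, ← Real.exp_add]; simp
    nlinarith
  linarith

/-- The error term of `iter`. -/
theorem iter_err {C CH s H : ℝ} (hC : 0 < C) (hs1 : 1 ≤ s) (hsC : Real.log C ≤ s) {t₀ p : ℕ} (h1 : (t₀ : ℝ) ≤ s)
    (h2 : s / 2 ≤ t₀) (h3 : (p : ℝ) * t₀ ≤ 7 * s ^ 2) (hH : 0 < H) (h4 : CH * s + lam * (p * t₀) ≤ Real.log H) :
    ∑ i ∈ range p, (C * 6 ^ (8 * t₀) / H) ^ (1 / s) * ((2 : ℝ) ^ (1 / s) * (1 + (3 : ℝ) ^ (-(1 / s))) / 2) ^ (i * t₀) ≤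
      14 * Real.exp (17 - CH) := by
  have hs0 : 0 < s := by linarith
  have hlam := lam_ge
  have hl6 : Real.log 6 < 1.7927 := by
    have e : Real.log 6 = Real.log 2 + Real.log 3 := by
      rw [← Real.log_mul (by norm_num) (by norm_num)]; norm_num
    have := Real.log_two_lt_d9
    have := log3_lt
    rw [e]; linarith
  have hl60 : 0 < Real.log 6 := Real.log_pos (by norm_num)
  have hκt : 1 / s * t₀ ≤ 1 := by rw [one_div, inv_mul_le_iff₀ hs0]; linarith
  have hterm : ∀ i ∈ range p, (C * 6 ^ (8 * t₀) / H) ^ (1 / s) *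
      ((2 : ℝ) ^ (1 / s) * (1 + (3 : ℝ) ^ (-(1 / s))) / 2) ^ (i * t₀) ≤
      Real.exp (17 - CH) * Real.exp (-(((p : ℝ) - i) / 14)) := by
    intro i hi
    rw [Finset.mem_range] at hi
    have hi' : (i : ℝ) ≤ p := by exact_mod_cast hi.le
    have e1 : (C * 6 ^ (8 * t₀) / H) ^ (1 / s) =
        Real.exp ((Real.log C + 8 * t₀ * Real.log 6 - Real.log H) * (1 / s)) := by
      rw [Real.rpow_def_of_pos (by positivity), Real.log_div (by positivity) hH.ne',
        Real.log_mul hC.ne' (by positivity), Real.log_pow]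
      push_cast
      rfl
    have e2 : ((2 : ℝ) ^ (1 / s) * (1 + (3 : ℝ) ^ (-(1 / s))) / 2) ^ (i * t₀) ≤
        Real.exp ((i * t₀ : ℕ) * (1 / s * lam + (1 / s) ^ 2 / 6)) := by
      rw [Real.exp_nat_mul]
      exact pow_le_pow_left₀ (by positivity) (g_le (1 / s)) _
    rw [e1]
    refine (mul_le_mul_of_nonneg_left e2 (Real.exp_pos _).le).trans ?_
    rw [← Real.exp_add, ← Real.exp_add]
    apply Real.exp_le_exp.2
    push_cast
    have k1 : Real.log C * (1 / s) ≤ 1 := by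
      rw [mul_one_div, div_le_one hs0]; exact hsC
    have k2 : 8 * t₀ * Real.log 6 * (1 / s) ≤ 14.35 := by
      have : 8 * (t₀ : ℝ) * Real.log 6 * (1 / s) = 8 * Real.log 6 * (1 / s * t₀) := by ring
      rw [this]
      nlinarith
    have k3 : CH + lam * (p * (1 / s * t₀)) ≤ Real.log H * (1 / s) := by
      have : CH + lam * (p * (1 / s * t₀)) = (CH * s + lam * (p * t₀)) * (1 / s) := by
        field_simp
      rw [this]
      exact mul_le_mul_of_nonneg_right h4 (by positivity)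
    have k4 : (i : ℝ) * t₀ * ((1 / s) ^ 2 / 6) ≤ 7 / 6 := by
      have h5 : (i : ℝ) * t₀ ≤ 7 * s ^ 2 := (mul_le_mul_of_nonneg_right hi' (Nat.cast_nonneg _)).trans h3
      calc (i : ℝ) * t₀ * ((1 / s) ^ 2 / 6) ≤ 7 * s ^ 2 * ((1 / s) ^ 2 / 6) :=
            mul_le_mul_of_nonneg_right h5 (by positivity)
        _ = 7 / 6 := by field_simp
    have k5 : ((p : ℝ) - i) / 14 ≤ lam * (((p : ℝ) - i) * (1 / s * t₀)) := by
      have h5 : 1 / 2 ≤ 1 / s * t₀ := by
        rw [one_div s, inv_mul_eq_div, le_div_iff₀ hs0]; linarith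
      have h6 : 0 ≤ (p : ℝ) - i := by linarith
      have h7 : ((p : ℝ) - i) * (1 / 2) ≤ ((p : ℝ) - i) * (1 / s * t₀) := mul_le_mul_of_nonneg_left h5 h6
      nlinarith
    have k6 : (i : ℝ) * t₀ * (1 / s * lam + (1 / s) ^ 2 / 6) =
        lam * (i * (1 / s * t₀)) + i * t₀ * ((1 / s) ^ 2 / 6) := by ring
    rw [k6]
    have k7 : lam * (((p : ℝ) - i) * (1 / s * t₀)) = lam * (p * (1 / s * t₀)) - lam * (i * (1 / s * t₀)) := by ring
    rw [k7] at k5
    have k8 : (Real.log C + 8 * t₀ * Real.log 6 - Real.log H) * (1 / s) =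
        Real.log C * (1 / s) + 8 * t₀ * Real.log 6 * (1 / s) - Real.log H * (1 / s) := by ring
    rw [k8]
    linarith
  refine (Finset.sum_le_sum hterm).trans ?_
  rw [← Finset.mul_sum, mul_comm 14]
  exact mul_le_mul_of_nonneg_left (geom_le p) (Real.exp_pos _).le

end Pool.Agent.Helper8.SI
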