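import Pool.Agent.Helper8.SI.M4

/-!
# Block M: the main theorem on short intervals, the assembly
-/

set_option autoImplicit false

namespace Pool.Agent.Helper8.SI

open Pool.Agent.Helper68.Moeller Pool.Agent.Helper52.Tao Pool.Agent.Helper8.CO Pool.Agent.Helper8.ND Pool.Agent.Helper8.PW
  Finset Classical Filter Topology

variable {ρ : ℤ}

theorem card_edge (Z : ℝ) : ({z : ℤ | (z : ℝ) < 2 * Z ∧ 2 * Z < z + 1}.ncard : ℝ) ≤ 1 := by
  have h : {z : ℤ | (z : ℝ) < 2 * Z ∧ 2 * Z < z + 1} ⊆ {⌈2 * Z⌉ - 1} := by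
    rintro z ⟨h1, h2⟩
    rw [Set.mem_singleton_iff]
    have h3 : z < ⌈2 * Z⌉ := Int.lt_ceil.2 h1
    have h4 : ⌈2 * Z⌉ ≤ z + 1 := Int.ceil_le.2 (by push_cast; exact h2.le)
    omega
  have h2 := Set.ncard_le_ncard h (Set.finite_singleton _)
  rw [Set.ncard_singleton] at h2
  exact_mod_cast h2

/-- The points on the orbits of the small integers. -/
noncomputable def small (r : ℤ → ℤ) (z₀ : ℝ) (S : ℕ) : Finset ℤ :=
  ((Icc 1 ⌊z₀⌋) ×ˢ (range (S + 1))).image (fun q => (T 2 3 r)^[q.2] q.1)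

theorem small_card (r : ℤ → ℤ) {z₀ : ℝ} (hz₀ : 0 ≤ z₀) (S : ℕ) : ((small r z₀ S).card : ℝ) ≤ z₀ * (S + 1) := by
  have h1 : (small r z₀ S).card ≤ (Icc 1 ⌊z₀⌋).card * (S + 1) := by
    refine Finset.card_image_le.trans ?_
    rw [Finset.card_product, Finset.card_range]
  have h2 : ((Icc 1 ⌊z₀⌋).card : ℝ) ≤ z₀ := by
    rw [Int.card_Icc]
    have h3 : (0 : ℤ) ≤ ⌊z₀⌋ := Int.floor_nonneg.2 hz₀
    have h4 : ((⌊z₀⌋ + 1 - 1).toNat : ℤ) = ⌊z₀⌋ := by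
      rw [add_sub_cancel_right, Int.toNat_of_nonneg h3]
    have h5 : (((⌊z₀⌋ + 1 - 1).toNat : ℕ) : ℝ) = (⌊z₀⌋ : ℝ) := by exact_mod_cast h4
    rw [h5]
    exact Int.floor_le z₀
  have h3 : ((small r z₀ S).card : ℝ) ≤ ((Icc 1 ⌊z₀⌋).card : ℝ) * (S + 1) := by exact_mod_cast h1
  exact h3.trans (mul_le_mul_of_nonneg_right h2 (by positivity))

theorem mem_small {r : ℤ → ℤ} {z₀ : ℝ} {S : ℕ} {u : ℤ} {k : ℕ} (h1 : 0 < u) (h2 : (u : ℝ) ≤ z₀) (h3 : k ≤ S) :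
    (T 2 3 r)^[k] u ∈ small r z₀ S := by
  unfold small
  rw [Finset.mem_image]
  refine ⟨(u, k), ?_, rfl⟩
  rw [Finset.mem_product, Finset.mem_Icc, Finset.mem_range]
  exact ⟨⟨by omega, Int.le_floor.2 h2⟩, by omega⟩

/-- The sizes. -/
theorem sizes {θ K CH s x : ℝ} (hK : 1 ≤ K) (hCH : 5 * K + 1 ≤ CH) (hx1 : 1 ≤ x) (hs : s ^ 2 = Real.log x) (hs1 : 1 ≤ s)
    {t m₀ κ₀ : ℕ} (a8 : CH * s + lam * t ≤ θ * s ^ 2 + Real.log 2)
    (a9 : θ * s ^ 2 + Real.log 2 ≤ (CH + 1) * s + lam * t) (a11 : (m₀ : ℝ) ≤ 2 * K * s) (a13 : κ₀ + 2 * m₀ = t / 2)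
    {E Z : ℝ} (hE : E = 3 ^ κ₀ * (2 * x ^ θ) / 2 ^ t) (hZ : Z = 3 ^ κ₀ * x / 2 ^ t) :
    1 ≤ E ∧ 2 * E ≤ Real.exp ((CH + 2) * s) ∧ 0 < Z ∧ (1 - θ) * s ^ 2 - Real.log 2 ≤ Real.log Z ∧
      θ * s ^ 2 + Real.log 2 - (CH + 1) * s ≤ Real.log (2 ^ t / 3 ^ κ₀) := by
  have hx0 : 0 < x := by linarith
  have hxθ : 0 < x ^ θ := Real.rpow_pos_of_pos hx0 _
  have hl3 := log3_lt
  have hl30 := log3_pos
  have hl2 := Real.log_two_lt_d9
  have hl20 : 0 < Real.log 2 := Real.log_pos (by norm_num)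
  have hE0 : 0 < E := by rw [hE]; positivity
  have hZ0 : 0 < Z := by rw [hZ]; positivity
  have e1 : Real.log E = κ₀ * Real.log 3 + (θ * s ^ 2 + Real.log 2) - t * Real.log 2 := by
    rw [hE, Real.log_div (by positivity) (by positivity), Real.log_mul (by positivity) (by positivity),
      Real.log_mul (by norm_num) hxθ.ne', Real.log_rpow hx0, Real.log_pow, Real.log_pow, hs]
    ring
  have e2 : Real.log Z = κ₀ * Real.log 3 + s ^ 2 - t * Real.log 2 := by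
    rw [hZ, Real.log_div (by positivity) (by positivity), Real.log_mul (by positivity) hx0.ne', Real.log_pow,
      Real.log_pow, hs]
  have e3 : Real.log (2 ^ t / 3 ^ κ₀) = t * Real.log 2 - κ₀ * Real.log 3 := by
    rw [Real.log_div (by positivity) (by positivity), Real.log_pow, Real.log_pow]
  have h2 : ((κ₀ : ℝ) + 2 * m₀) ≤ t / 2 ∧ (t : ℝ) / 2 - 1 / 2 ≤ κ₀ + 2 * m₀ := by
    have e : (2 : ℝ) * ((t / 2 : ℕ) : ℝ) ≤ t ∧ (t : ℝ) ≤ 2 * ((t / 2 : ℕ) : ℝ) + 1 := by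
      constructor
      · exact_mod_cast (by omega : 2 * (t / 2) ≤ t)
      · exact_mod_cast (by omega : t ≤ 2 * (t / 2) + 1)
    rw [← a13] at e
    push_cast at e
    constructor <;> linarith [e.1, e.2]
  have hm0 : (0 : ℝ) ≤ m₀ := Nat.cast_nonneg _
  have k1 : (κ₀ : ℝ) * Real.log 3 ≤ (t / 2) * Real.log 3 := mul_le_mul_of_nonneg_right (by linarith [h2.1]) hl30.le
  have k2 : ((t : ℝ) / 2 - 1 / 2 - 2 * m₀) * Real.log 3 ≤ κ₀ * Real.log 3 :=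
    mul_le_mul_of_nonneg_right (by linarith [h2.2]) hl30.le
  have k3 : (t : ℝ) * Real.log 2 = lam * t + t / 2 * Real.log 3 := by unfold lam; ring
  have hKs : 1 ≤ K * s := one_le_mul_of_one_le_of_one_le hK hs1
  have hup : Real.log E ≤ (CH + 1) * s := by rw [e1, k3]; linarith
  have hlow : 0 ≤ Real.log E := by
    rw [e1, k3]
    have k4 : (1 / 2 + 2 * m₀) * Real.log 3 ≤ (1 / 2 + 4 * (K * s)) * 1.1 := by
      refine mul_le_mul (by linarith) (by linarith) hl30.le (by positivity)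
    have k5 : (5 * K + 1) * s ≤ CH * s := mul_le_mul_of_nonneg_right hCH (by linarith)
    have k6 : (5 * K + 1) * s = 5 * (K * s) + s := by ring
    have k7 : ((t : ℝ) / 2 - 1 / 2 - 2 * m₀) * Real.log 3 = t / 2 * Real.log 3 - (1 / 2 + 2 * m₀) * Real.log 3 := by ring
    linarith
  refine ⟨?_, ?_, hZ0, ?_, ?_⟩
  · exact (Real.log_nonneg_iff hE0).1 hlow
  · rw [← Real.log_le_iff_le_exp (by positivity), Real.log_mul (by norm_num) hE0.ne']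
    linarith
  · have : Real.log Z = Real.log E + s ^ 2 - (θ * s ^ 2 + Real.log 2) := by rw [e1, e2]; ring
    rw [this]
    linarith
  · have : Real.log (2 ^ t / 3 ^ κ₀) = θ * s ^ 2 + Real.log 2 - Real.log E := by rw [e1, e3]; ring
    rw [this]
    linarith

theorem main (hρ1 : ρ = 1 ∨ ρ = -1) (hl : LevelD 2 3 (fun _ => ρ)) (hF : FlowI 2 3 (fun _ => ρ)) {θ ε : ℝ} (hθ0 : 0 < θ)
    (hθ1 : θ < 1) (hε : 0 < ε) (hε1 : ε ≤ 1) :
    ∃ c : ℝ, 0 < c ∧ ∀ z₀ D : ℝ, 0 ≤ z₀ → 0 < D → ∃ X : ℝ, ∀ G : Set ℤ, TInv 2 3 (fun _ => ρ) G z₀ →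
      (∀ᶠ x in atTop, D ≤ fd G x) → ∀ x : ℝ, X ≤ x →
      c * D * x ≤ ({n : ℤ | x ≤ n ∧ (n : ℝ) < 2 * x ∧ Good ρ θ ε z₀ G n}.ncard : ℝ) := by
  obtain ⟨CI, hCI, hit⟩ := iter hF 2
  have hodd : Odd ρ := by rcases hρ1 with rfl | rfl <;> decide
  have habs : |(ρ : ℝ)| = 1 := by rcases hρ1 with rfl | rfl <;> norm_num
  have hadm : Admissible 2 3 (fun _ => ρ) := by
    intro j hj hj2
    have : j = 1 := by push_cast at hj2; omega
    subst this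
    rcases hρ1 with rfl | rfl <;> decide
  obtain ⟨θL', hθL', hlev⟩ := hl
  obtain ⟨θL, hθL⟩ : ∃ θL : ℝ, θL = min θL' (1 / 2) := ⟨_, rfl⟩
  have hθL0 : 0 < θL := by rw [hθL]; positivity
  have hθL1 : θL ≤ θL' := by rw [hθL]; exact min_le_left _ _
  have hθL2 : θL ≤ 1 / 2 := by rw [hθL]; exact min_le_right _ _
  obtain ⟨cb, hcb⟩ : ∃ cb : ℝ, cb = θL * (1 - θ) / 4 := ⟨_, rfl⟩
  have h1θ : 0 < 1 - θ := by linarith
  have hcb0 : 0 < cb := by rw [hcb]; positivity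
  have hcb1 : cb ≤ 1 / 8 := by
    rw [hcb]
    have : θL * (1 - θ) ≤ 1 / 2 * 1 := mul_le_mul hθL2 (by linarith) h1θ.le (by norm_num)
    linarith
  obtain ⟨K, hK⟩ : ∃ K : ℝ, K = Real.sqrt (200 / ε) + 1 := ⟨_, rfl⟩
  have hK1 : 1 ≤ K := by rw [hK]; linarith [Real.sqrt_nonneg (200 / ε)]
  have hKε : 200 / ε ≤ K ^ 2 := by
    have h1 := Real.sq_sqrt (show 0 ≤ 200 / ε by positivity)
    have h2 := Real.sqrt_nonneg (200 / ε)
    rw [hK]
    nlinarith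
  obtain ⟨CH, hCH⟩ : ∃ CH : ℝ, CH = max (5 * K + 1) (17 - Real.log (ε / 448)) := ⟨_, rfl⟩
  have hCH1 : 5 * K + 1 ≤ CH := by rw [hCH]; exact le_max_left _ _
  have hCH2 : 28 * Real.exp (17 - CH) ≤ ε / 16 := by
    have h1 : 17 - CH ≤ Real.log (ε / 448) := by
      have := le_max_right (5 * K + 1) (17 - Real.log (ε / 448))
      rw [← hCH] at this
      linarith
    have h2 : Real.exp (17 - CH) ≤ ε / 448 := by
      have := Real.exp_le_exp.2 h1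
      rwa [Real.exp_log (by positivity)] at this
    linarith
  obtain ⟨c₀, L₀, hc₀, hgs⟩ := goodset hodd (K := K) (C₁ := CH + 2) (cb := cb) (ε := ε / 16) (by linarith) (by linarith) hcb0
    (by linarith)
  obtain ⟨s₀, hpar⟩ := params (θ := θ) (K := K) (CH := CH) (cb := cb) hθ0 hθ1 hK1 (by linarith) hcb0
  refine ⟨c₀ / 8, by positivity, fun z₀ D hz₀ hD => ?_⟩
  obtain ⟨X₁, hX₁⟩ := hlev z₀ (D / 8) (by linarith)
  -- the conditions on `s`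
  have hexp : Tendsto (fun s : ℝ => Real.exp ((1 - θ) / 4 * s ^ 2)) atTop atTop :=
    Real.tendsto_exp_atTop.comp ((tendsto_pow_atTop two_ne_zero).const_mul_atTop (by positivity))
  have hexp2 : Tendsto (fun s : ℝ => Real.exp ((1 - θ) / 4 * s ^ 2) / (s ^ 2)) atTop atTop := by
    have h1 : Tendsto (fun u : ℝ => Real.exp u / u) atTop atTop := by
      have := Real.tendsto_exp_div_pow_atTop 1
      simpa using this
    have h2 : Tendsto (fun s : ℝ => (1 - θ) / 4 * s ^ 2) atTop atTop :=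
      (tendsto_pow_atTop two_ne_zero).const_mul_atTop (by positivity)
    have h3 := (h1.comp h2).const_mul_atTop (show 0 < (1 - θ) / 4 by positivity)
    refine h3.congr' ?_
    filter_upwards [eventually_gt_atTop 0] with s hs
    simp only [Function.comp_apply]
    field_simp
  have hsq : Tendsto (fun s : ℝ => θ * s ^ 2 - (CH + 1) * s) atTop atTop := by
    have h1 : Tendsto (fun s : ℝ => s * (θ * s - (CH + 1))) atTop atTop :=
      tendsto_id.atTop_mul_atTop₀ (tendsto_atTop_add_const_right _ _ (tendsto_id.const_mul_atTop hθ0))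
    refine h1.congr fun s => ?_
    ring
  have hev : ∀ᶠ s : ℝ in atTop, s₀ ≤ s ∧ L₀ ≤ s ^ 2 ∧ 1 ≤ s ∧ Real.log CI ≤ s ∧ 896 * CI / ε ≤ s ∧
      1 ≤ θ * s ^ 2 - (CH + 1) * s ∧ 1 / cb ≤ s ∧ z₀ + 2 ≤ Real.exp ((1 - θ) / 4 * s ^ 2) ∧
      X₁ ≤ Real.exp ((1 - θ) / 4 * s ^ 2) ∧ 8 / (c₀ * D) ≤ Real.exp ((1 - θ) / 4 * s ^ 2) ∧
      80 * (z₀ + 1) / (c₀ * D) ≤ Real.exp ((1 - θ) / 4 * s ^ 2) / s ^ 2 ∧ 2 ≤ (1 - θ) * s ^ 2 := by
    refine (eventually_ge_atTop _).and ((tendsto_pow_atTop two_ne_zero).eventually_ge_atTop _ |>.and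
      ((eventually_ge_atTop _).and ((eventually_ge_atTop _).and ((eventually_ge_atTop _).and
      ((hsq.eventually_ge_atTop _).and ((eventually_ge_atTop _).and ((hexp.eventually_ge_atTop _).and
      ((hexp.eventually_ge_atTop _).and ((hexp.eventually_ge_atTop _).and ((hexp2.eventually_ge_atTop _).and
      (((tendsto_pow_atTop two_ne_zero).const_mul_atTop h1θ).eventually_ge_atTop _)))))))))))
  have hsx : Tendsto (fun x : ℝ => Real.sqrt (Real.log x)) atTop atTop :=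
    Real.tendsto_sqrt_atTop.comp Real.tendsto_log_atTop
  obtain ⟨X₂, hX₂⟩ := eventually_atTop.1 ((hsx.eventually hev).and (eventually_ge_atTop 1))
  refine ⟨X₂, fun G hG hfd x hx => ?_⟩
  obtain ⟨⟨d1, d2, d3, d4, d5, d6, d7, d8, d9, d10, d11, d12⟩, hx1⟩ := hX₂ x hx
  obtain ⟨s, hsdef⟩ : ∃ s : ℝ, s = Real.sqrt (Real.log x) := ⟨_, rfl⟩
  rw [← hsdef] at d1 d2 d3 d4 d5 d6 d7 d8 d9 d10 d11 d12
  have hx0 : 0 < x := by linarith
  have hs2 : s ^ 2 = Real.log x := by rw [hsdef]; exact Real.sq_sqrt (Real.log_nonneg hx1)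
  have hs0 : 0 < s := by linarith
  obtain ⟨t₀, p, j, m₀, κ₀, a1, a2, a3, a4, a5, a6, a7, a8, a9, a10, a11, a12, a13⟩ := hpar s d1
  obtain ⟨b, hb⟩ : ∃ b : ℕ, b = j * t₀ := ⟨_, rfl⟩
  obtain ⟨t, ht⟩ : ∃ t : ℕ, t = p * t₀ := ⟨_, rfl⟩
  have htR : (t : ℝ) = p * t₀ := by rw [ht]; push_cast; rfl
  rw [← hb] at a5 a6
  obtain ⟨E, hE⟩ : ∃ E : ℝ, E = 3 ^ κ₀ * (2 * x ^ θ) / 2 ^ t := ⟨_, rfl⟩
  obtain ⟨Z, hZ⟩ : ∃ Z : ℝ, Z = 3 ^ κ₀ * x / 2 ^ t := ⟨_, rfl⟩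
  have hl2 := Real.log_two_lt_d9
  have hl20 : 0 < Real.log 2 := Real.log_pos (by norm_num)
  obtain ⟨f1, f2, f3, f4, f5⟩ := sizes (θ := θ) hK1 hCH1 hx1 hs2 d3 (t := t) (m₀ := m₀) (κ₀ := κ₀) (by rw [htR]; exact a8)
    (by rw [htR]; exact a9) a11 (by rw [ht]; exact a13) hE hZ
  -- sizes of `Z`
  obtain ⟨y, hy⟩ : ∃ y : ℝ, y = Real.exp ((1 - θ) / 4 * s ^ 2) := ⟨_, rfl⟩
  rw [← hy] at d8 d9 d10 d11
  have hy0 : 0 < y := by rw [hy]; exact Real.exp_pos _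
  have hy1 : 1 ≤ y := by linarith
  have hZy : y * y ≤ Z := by
    rw [hy, ← Real.exp_add, ← Real.le_log_iff_exp_le f3]
    linarith
  have hyZ : y ≤ Z := (le_mul_of_one_le_left hy0.le hy1).trans hZy
  have hZ1 : 1 ≤ Z := by linarith
  have hZX : X₁ ≤ Z := by linarith
  have h2b : (2 : ℝ) ^ b ≤ Z ^ θL := by
    rw [← Real.rpow_natCast, Real.rpow_def_of_pos (by norm_num), Real.rpow_def_of_pos f3]
    apply Real.exp_le_exp.2
    have g1 : (b : ℝ) ≤ cb * s ^ 2 + s := a6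
    have g2 : s ≤ cb * s ^ 2 := by
      rw [div_le_iff₀ hcb0] at d7
      calc s = 1 * s := (one_mul s).symm
        _ ≤ (s * cb) * s := mul_le_mul_of_nonneg_right d7 hs0.le
        _ = cb * s ^ 2 := by ring
    have g3 : ((1 - θ) * s ^ 2 - Real.log 2) * θL ≤ Real.log Z * θL := mul_le_mul_of_nonneg_right f4 hθL0.le
    have g4 : (1 - θ) * s ^ 2 * θL = 4 * (cb * s ^ 2) := by rw [hcb]; ring
    have g5 : Real.log 2 * θL ≤ 0.7 * (1 / 2) := mul_le_mul (by linarith) hθL2 hθL0.le (by norm_num)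
    have g6 : Real.log 2 * b ≤ 0.7 * (cb * s ^ 2 + s) :=
      mul_le_mul (by linarith) g1 (Nat.cast_nonneg _) (by norm_num)
    have g7 : ((1 - θ) * s ^ 2 - Real.log 2) * θL = (1 - θ) * s ^ 2 * θL - Real.log 2 * θL := by ring
    rw [g7, g4] at g3
    linarith
  have h2bh : (2 : ℝ) ^ b ≤ Real.sqrt Z := by
    rw [Real.sqrt_eq_rpow]
    exact h2b.trans (Real.rpow_le_rpow_of_exponent_le hZ1 hθL2)
  have hysq : y ≤ Real.sqrt Z := Real.le_sqrt_of_sq_le (by rw [sq]; exact hZy)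
  have hsqZ : Real.sqrt Z * Real.sqrt Z = Z := Real.mul_self_sqrt f3.le
  have hsqZ0 : 0 < Real.sqrt Z := Real.sqrt_pos.2 f3
  -- the good classes
  obtain ⟨pw, hpw⟩ : ∃ pw : ℕ → ℝ, pw = fun i => cW 2 t (fun w => sg w = κ₀ + i) / 2 ^ t := ⟨_, rfl⟩
  have hsqrt : Real.sqrt (s ^ 2) = s := Real.sqrt_sq hs0.le
  have hF1 := hgs (s ^ 2) d2 m₀ b (by rw [hsqrt]; exact a10) (by rw [hsqrt]; exact a11) a5 (2 * E) (by linarith)
    (by rw [hsqrt]; exact f2) pw (fun i => by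
      rw [hpw]
      exact div_nonneg (cW_nonneg _ _ _) (by positivity)) (by rw [hpw]; exact sum_weights κ₀ t _)
  obtain ⟨F, hFd⟩ : ∃ F : Finset ℕ, F = (range (2 ^ b)).filter (fun y : ℕ => badw ρ m₀ b (2 * E) pw y ≤ ε / 16) := ⟨_, rfl⟩
  rw [← hFd] at hF1
  -- the level of distribution
  obtain ⟨δ, hδ0, hδ⟩ := hX₁ G hG
  have hδD : 7 / 8 * D ≤ δ := by
    obtain ⟨u, hu1, hu2⟩ := (hfd.and (eventually_ge_atTop X₁)).exists
    have := (abs_le.1 (hδ u hu2).1).2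
    linarith
  have hcl : ∀ q ∈ F, D / 2 * Z / 2 ^ b ≤
      ({z : ℤ | Z ≤ z ∧ (z : ℝ) < 2 * Z ∧ ((2 ^ b : ℕ) : ℤ) ∣ z - q ∧ z ∈ G}.ncard : ℝ) := by
    intro q _
    have h1 := (hδ Z hZX).2 b 0 (by
      rw [pow_zero, mul_one]
      push_cast
      exact h2b.trans (Real.rpow_le_rpow_of_exponent_le hZ1 hθL1)) q
    have h2 : 3 / 4 * D ≤ fdc G (2 ^ b * 3 ^ 0) q Z := by
      have := (abs_le.1 h1).1
      linarith
    rw [pow_zero, mul_one] at h2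
    unfold fdc at h2
    rw [le_div_iff₀ f3] at h2
    rw [div_le_iff₀ (by positivity)]
    push_cast at h2 ⊢
    have h3 : 0 ≤ D * Z := by positivity
    have h4 : D / 2 * Z = D * Z / 2 := by ring
    have h5 : 3 / 4 * D * Z = 3 / 4 * (D * Z) := by ring
    rw [h5] at h2
    rw [h4]
    linarith
  have hcc := card_classes (F := F) (b := b) (by rw [hFd]; exact Finset.filter_subset _ _) hcl
  have hall : c₀ * D / 2 * Z ≤
      ({z : ℤ | Z ≤ z ∧ (z : ℝ) < 2 * Z ∧ z ∈ G ∧ ∃ y ∈ F, ((2 ^ b : ℕ) : ℤ) ∣ z - y}.ncard : ℝ) := by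
    refine le_trans ?_ hcc
    have h2b0 : (0 : ℝ) < 2 ^ b := by positivity
    calc c₀ * D / 2 * Z = (c₀ * 2 ^ b) * (D / 2 * Z / 2 ^ b) := by field_simp
      _ ≤ F.card * (D / 2 * Z / 2 ^ b) := mul_le_mul_of_nonneg_right hF1 (by positivity)
  -- the exceptional sets
  obtain ⟨V, hV⟩ : ∃ V : Finset ℤ, V = small (fun _ => ρ) z₀ ((j + p) * t₀) := ⟨_, rfl⟩
  have hS9 : (((j + p) * t₀ : ℕ) : ℝ) ≤ 9 * s ^ 2 := by
    have e1 : (j + p) * t₀ = b + t := by rw [hb, ht]; ring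
    rw [e1]
    push_cast
    rw [htR]
    have h1 : s ≤ s ^ 2 := by rw [sq]; exact le_mul_of_one_le_left hs0.le d3
    have h2 : cb * s ^ 2 ≤ 1 / 8 * s ^ 2 := mul_le_mul_of_nonneg_right hcb1 (sq_nonneg s)
    linarith
  have hVc := card_pre hadm b V Z
  have hVc2 : (V.card : ℝ) * 2 ^ b ≤ c₀ * D / 8 * Z := by
    have h1 := small_card (fun _ => ρ) hz₀ ((j + p) * t₀)
    rw [← hV] at h1
    have h2 : (V.card : ℝ) ≤ (z₀ + 1) * (10 * s ^ 2) := by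
      refine h1.trans (mul_le_mul (by linarith) ?_ (by positivity) (by linarith))
      have h2 : 1 ≤ s ^ 2 := one_le_pow₀ d3
      linarith
    rw [div_le_div_iff₀ (by positivity) (by positivity)] at d11
    have h3 : (z₀ + 1) * (10 * s ^ 2) ≤ c₀ * D / 8 * y := by
      have e1 : (z₀ + 1) * (10 * s ^ 2) = 80 * (z₀ + 1) * s ^ 2 / 8 := by ring
      have e2 : c₀ * D / 8 * y = y * (c₀ * D) / 8 := by ring
      rw [e1, e2]
      linarith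
    calc (V.card : ℝ) * 2 ^ b ≤ (c₀ * D / 8 * y) * Real.sqrt Z :=
          mul_le_mul (h2.trans h3) h2bh (by positivity) (by positivity)
      _ ≤ (c₀ * D / 8 * Real.sqrt Z) * Real.sqrt Z := by
          refine mul_le_mul_of_nonneg_right (mul_le_mul_of_nonneg_left hysq (by positivity)) hsqZ0.le
      _ = c₀ * D / 8 * Z := by rw [mul_assoc, hsqZ]
  have hedge := card_edge Z
  have hedge2 : 1 ≤ c₀ * D / 8 * Z := by
    rw [div_le_iff₀ (by positivity)] at d10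
    have e1 : y * (c₀ * D) ≤ Z * (c₀ * D) := mul_le_mul_of_nonneg_right hyZ (by positivity)
    have e2 : c₀ * D / 8 * Z = Z * (c₀ * D) / 8 := by ring
    rw [e2]
    linarith
  obtain ⟨A, hA⟩ : ∃ A : Set ℤ, A = {z : ℤ | (Z ≤ z ∧ (z : ℝ) + 1 ≤ 2 * Z) ∧ z ∈ G ∧
      (∃ y ∈ F, ((2 ^ b : ℕ) : ℤ) ∣ z - y) ∧ (T 2 3 (fun _ => ρ))^[b] z ∉ V} := ⟨_, rfl⟩
  have hAcard : c₀ * D / 4 * Z ≤ (A.ncard : ℝ) := by
    have hAf : A.Finite := by
      rw [hA]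
      exact (finite_Ico Z (2 * Z)).subset fun z hz => ⟨hz.1.1, by linarith [hz.1.2]⟩
    have hVf : {z : ℤ | Z ≤ z ∧ (z : ℝ) < 2 * Z ∧ (T 2 3 (fun _ => ρ))^[b] z ∈ V}.Finite :=
      (finite_Ico Z (2 * Z)).subset fun z hz => ⟨hz.1, hz.2.1⟩
    have hEf : {z : ℤ | (z : ℝ) < 2 * Z ∧ 2 * Z < z + 1}.Finite :=
      (finite_Ico (2 * Z - 1) (2 * Z)).subset fun z hz => ⟨by linarith [hz.2], hz.1⟩
    have hsub : {z : ℤ | Z ≤ z ∧ (z : ℝ) < 2 * Z ∧ z ∈ G ∧ ∃ y ∈ F, ((2 ^ b : ℕ) : ℤ) ∣ z - y} ⊆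
        (A ∪ {z : ℤ | Z ≤ z ∧ (z : ℝ) < 2 * Z ∧ (T 2 3 (fun _ => ρ))^[b] z ∈ V}) ∪
          {z : ℤ | (z : ℝ) < 2 * Z ∧ 2 * Z < z + 1} := by
      rintro z ⟨g1, g2, g3, g4⟩
      by_cases g5 : 2 * Z < z + 1
      · exact Or.inr ⟨g2, g5⟩
      · left
        by_cases g6 : (T 2 3 (fun _ => ρ))^[b] z ∈ V
        · exact Or.inr ⟨g1, g2, g6⟩
        · left
          rw [hA]
          exact ⟨⟨g1, not_lt.1 g5⟩, g3, g4, g6⟩
    have h1 := Set.ncard_le_ncard hsub ((hAf.union hVf).union hEf)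
    have h2 := h1.trans ((Set.ncard_union_le _ _).trans (Nat.add_le_add_right (Set.ncard_union_le _ _) _))
    have h3 : ({z : ℤ | Z ≤ z ∧ (z : ℝ) < 2 * Z ∧ z ∈ G ∧ ∃ y ∈ F, ((2 ^ b : ℕ) : ℤ) ∣ z - y}.ncard : ℝ) ≤
        A.ncard + ({z : ℤ | Z ≤ z ∧ (z : ℝ) < 2 * Z ∧ (T 2 3 (fun _ => ρ))^[b] z ∈ V}.ncard : ℝ) +
          ({z : ℤ | (z : ℝ) < 2 * Z ∧ 2 * Z < z + 1}.ncard : ℝ) := by exact_mod_cast h2
    linarith
  -- the ratio
  obtain ⟨R, hR⟩ : ∃ R : ℝ, R = 2 ^ t / 3 ^ κ₀ := ⟨_, rfl⟩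
  have hR2 : 2 ≤ R := by
    have hR0 : 0 < R := by rw [hR]; positivity
    rw [← Real.log_le_log_iff (by norm_num) hR0, hR]
    linarith
  have hRZ : R * Z = x := by rw [hR, hZ]; field_simp
  have hlift := card_lift (κ₀ := κ₀) (t := t) (x := x) (Z := Z) hZ (A := A) (by
    intro z hz
    rw [hA] at hz
    exact hz.1) (P := Good ρ θ ε z₀ G) (by
    intro n z hz hn1 hn2 hz1 hz2
    rw [hA] at hz
    obtain ⟨⟨g1, g2⟩, g3, ⟨q, hq, ⟨e, he⟩⟩, g5⟩ := hz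
    have hzq : z = q + 2 ^ b * e := by
      push_cast at he
      linarith
    have hbadz : badw ρ m₀ b (2 * E) pw z ≤ ε / 16 := by
      rw [hzq, badw_periodic hodd]
      rw [hFd, Finset.mem_filter] at hq
      exact hq.2
    have hzbig : (2 : ℝ) ^ b * (|(ρ : ℝ)| + z₀ + 1) ≤ z := by
      rw [habs]
      have e1 : (2 : ℝ) ^ b * (1 + z₀ + 1) ≤ Real.sqrt Z * Real.sqrt Z :=
        mul_le_mul h2bh (by linarith) (by linarith) hsqZ0.le
      rw [hsqZ] at e1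
      linarith
    have hvG : (T 2 3 (fun _ => ρ))^[b] z ∈ G := (mem_iterz hodd hz₀ hG hzbig).1 g3
    refine ⟨(j + p) * t₀, (T 2 3 (fun _ => ρ))^[b] z, ?_, hvG, ?_, ?_⟩
    · refine hS9.trans ?_
      rw [hs2]
      have := Real.log_le_log hx0 hn1
      linarith
    · intro u k hu1 hu2 hk heq
      apply g5
      rw [← heq, hV]
      exact mem_small hu1 hu2 hk
    · rw [hb]
      refine good_of hρ1 hCI hit hθ0 hθ1 hε hε1 hK1 hKε hCH1 hCH2 hx1 hs2 d3 d4 d5 a1 a2 a3 a4 a7 a8 a10 a12 a13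
        (E := E) (by rw [← ht]; exact hE) f1 hn1 hn2 (by rw [← ht]; exact hz1) (by rw [← ht]; exact hz2) ?_
      rw [← hb, ← ht, ← hpw]
      exact hbadz)
  rw [← hR] at hlift
  refine le_trans ?_ hlift
  have h1 : c₀ * D / 4 * Z * (R / 2) ≤ A.ncard * (R - 1) :=
    mul_le_mul hAcard (by linarith) (by linarith) (Nat.cast_nonneg _)
  have h2 : c₀ * D / 4 * Z * (R / 2) = c₀ / 8 * D * x := by rw [← hRZ]; ring
  linarith

end Pool.Agent.Helper8.SI
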