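import Pool.Agent.Helper8.SI.Def
import Pool.Agent.Helper28.NL.Step

/-!
# Block F: the flow in short intervals

This is `Helper28.NL.short_step` (helper28) for a constant family of sets.
-/

set_option autoImplicit false

namespace Pool.Agent.Helper8.SI

open Pool.Agent.Helper68.Moeller Pool.Agent.Helper52.Tao Finset

theorem flowI {d m : ℕ} (hd : 2 ≤ d) (hdm : d < m) (hco : Nat.Coprime m d) {r : ℤ → ℤ}
    (hr : Admissible d m r) (h1 : Mixing d m r) : FlowI d m r := by
  intro A
  obtain ⟨C, hC, h⟩ := Pool.Agent.Helper28.NL.short_step hd hdm hco hr h1 A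
  refine ⟨C, by linarith, fun t ht a H hH G => ?_⟩
  exact h t ht a H hH (fun _ => G)

end Pool.Agent.Helper8.SI
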