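import Pool.Agent.Helper8.SI.Def
import Pool.Agent.Helper8.CO.Cnt
import Pool.Agent.Helper52.Tao.D0
import Pool.Agent.Helper52.Tao.C2

/-!
# Block X, first part: words of `u y + v`, deviations, offsets

`ck`, `tk`: number of the odd steps, the iterate; `ofs` the offset divided by `ρ`: `2 ^ s * tk s x = 3 ^ (ck s x) * x - ρ * ofs s x`.
For odd `u` the words of length `s` of the `u y + v`, `y < 2 ^ s`, are all the words (`count_wd`). So
* `dev_count` (Chebyshev), `off_count` (fractional moment of the offset), `pow_count` (Markov).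
-/

set_option autoImplicit false

namespace Pool.Agent.Helper8.SI

open Pool.Agent.Helper68.Moeller Pool.Agent.Helper8.CO Pool.Agent.Helper52.Tao Finset Classical

variable {ρ : ℤ}

/-- The iterate. -/
def tk (ρ : ℤ) (k : ℕ) (x : ℤ) : ℤ := (Pool.Agent.Helper68.Moeller.T 2 3 (fun _ => ρ))^[k] x

/-- The number of the odd steps. -/
def ck (ρ : ℤ) (k : ℕ) (x : ℤ) : ℕ := cnt 2 3 (fun _ => ρ) k x

/-- The offset, divided by `ρ`. -/
def ofs (ρ : ℤ) (k : ℕ) (x : ℤ) : ℤ := Off 2 3 (fun _ => 1) (wd 2 3 (fun _ => ρ) k x)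

theorem adm (hρ : Odd ρ) : Admissible 2 3 (fun _ => ρ) := by
  intro j h1 h2
  have hj : j = 1 := by
    have : j < 2 := by exact_mod_cast h2
    omega
  subst hj
  obtain ⟨r, rfl⟩ := hρ
  show (2 * r + 1) ≡ ((3 : ℕ) : ℤ) * 1 [ZMOD ((2 : ℕ) : ℤ)]
  rw [Int.modEq_iff_dvd]
  exact ⟨1 - r, by push_cast; ring⟩

theorem tk_per (hρ : Odd ρ) (k : ℕ) (x j : ℤ) : tk ρ k (x + 2 ^ k * j) = tk ρ k x + 3 ^ (ck ρ k x) * j :=
  (iter_add hρ k x j).1

theorem ck_per (hρ : Odd ρ) (k : ℕ) (x j : ℤ) : ck ρ k (x + 2 ^ k * j) = ck ρ k x :=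
  (iter_add hρ k x j).2

theorem tk_zero (x : ℤ) : tk ρ 0 x = x := rfl

theorem ck_zero (x : ℤ) : ck ρ 0 x = 0 := rfl

theorem tk_add (s k : ℕ) (x : ℤ) : tk ρ (s + k) x = tk ρ k (tk ρ s x) := by
  unfold tk
  rw [Nat.add_comm, Function.iterate_add_apply]

theorem ck_add (s k : ℕ) (x : ℤ) : ck ρ (s + k) x = ck ρ s x + ck ρ k (tk ρ s x) := by
  unfold ck tk
  induction s generalizing x with
  | zero => simp [cnt]
  | succ s ih =>
    rw [show s + 1 + k = (s + k) + 1 by ring, cnt, cnt, ih, Function.iterate_succ_apply]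
    ring

theorem ck_one_le (x : ℤ) : ck ρ 1 x ≤ 1 := by
  unfold ck
  rw [cnt, cnt]
  split_ifs <;> omega

theorem ck_succ_ge (s : ℕ) (x : ℤ) : ck ρ s x ≤ ck ρ (s + 1) x := by
  rw [ck_add]; omega

theorem ck_succ_le (s : ℕ) (x : ℤ) : ck ρ (s + 1) x ≤ ck ρ s x + 1 := by
  rw [ck_add]
  have := ck_one_le (ρ := ρ) (tk ρ s x)
  omega

theorem ck_eq_sg (s : ℕ) (x : ℤ) : ck ρ s x = sg (wd 2 3 (fun _ => ρ) s x) := by
  induction s with
  | zero => rfl
  | succ s ih =>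
    rw [ck_add, wd, sg_cons, ih, add_comm]
    congr 1
    unfold ck tk
    rw [cnt, cnt, add_zero]
    have h1 := Int.emod_nonneg ((Pool.Agent.Helper68.Moeller.T 2 3 (fun _ => ρ))^[s] x) (b := ((2 : ℕ) : ℤ)) (by norm_num)
    by_cases h : ((2 : ℕ) : ℤ) ∣ (Pool.Agent.Helper68.Moeller.T 2 3 (fun _ => ρ))^[s] x
    · rw [if_pos h, Int.emod_eq_zero_of_dvd h]
      rfl
    · rw [if_neg h, nz_of_ne]
      intro h2
      apply h
      apply Int.dvd_of_emod_eq_zero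
      omega

theorem Off_const (c : ℤ) (w : List ℕ) : Off 2 3 (fun _ => c) w = c * Off 2 3 (fun _ => 1) w := by
  induction w with
  | nil => simp [Off]
  | cons a w ih =>
    rw [Off, Off, ih]
    have h : rr (fun _ => c) a = c * rr (fun _ => 1) a := by
      unfold rr
      split_ifs <;> simp
    rw [h]
    ring

theorem tk_spec (hρ : Odd ρ) (s : ℕ) (x : ℤ) :
    2 ^ s * tk ρ s x = 3 ^ (ck ρ s x) * x - ρ * ofs ρ s x := by
  have h := wd_spec (d := 2) (m := 3) le_rfl (adm hρ) s x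
  rw [Off_const, ← ck_eq_sg] at h
  unfold tk ofs
  exact_mod_cast h

theorem wd_per (hρ : Odd ρ) (s : ℕ) (x j : ℤ) :
    wd 2 3 (fun _ => ρ) s (x + 2 ^ s * j) = wd 2 3 (fun _ => ρ) s x := by
  induction s generalizing j with
  | zero => rfl
  | succ s ih =>
    rw [wd, wd]
    have e : x + 2 ^ (s + 1) * j = x + 2 ^ s * (2 * j) := by rw [pow_succ]; ring
    rw [e, ih]
    have h := tk_per hρ s x (2 * j)
    unfold tk at h
    rw [h]
    congr 2
    have e2 : (3 : ℤ) ^ ck ρ s x * (2 * j) = ((2 : ℕ) : ℤ) * (3 ^ ck ρ s x * j) := by push_cast; ring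
    rw [e2, Int.add_mul_emod_self_left]

theorem ofs_per (hρ : Odd ρ) (s : ℕ) (x j : ℤ) : ofs ρ s (x + 2 ^ s * j) = ofs ρ s x := by
  unfold ofs
  rw [wd_per hρ]

private theorem wd_inj85 (hρ : Odd ρ) (s : ℕ) :
    Set.InjOn (fun y : ℕ => wd 2 3 (fun _ => ρ) s (y : ℤ)) (range (2 ^ s) : Finset ℕ) := by
  intro y hy y' hy' h
  rw [mem_coe, mem_range] at hy hy'
  simp only at h
  have h1 := tk_spec hρ s (y : ℤ)
  have h2 := tk_spec hρ s (y' : ℤ)
  rw [ck_eq_sg] at h1 h2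
  unfold ofs at h1 h2
  rw [← h] at h2
  have h3 : (2 ^ s : ℤ) ∣ 3 ^ (sg (wd 2 3 (fun _ => ρ) s (y : ℤ))) * ((y : ℤ) - y') :=
    ⟨tk ρ s y - tk ρ s y', by linear_combination h2 - h1⟩
  have hcop : IsCoprime (2 ^ s : ℤ) (3 ^ (sg (wd 2 3 (fun _ => ρ) s (y : ℤ)))) :=
    IsCoprime.pow (by exact ⟨-1, 1, by norm_num⟩)
  obtain ⟨c, hc⟩ := hcop.dvd_of_dvd_mul_left h3
  have hm : (0 : ℤ) < 2 ^ s := by positivity
  have hy1 : (y : ℤ) < 2 ^ s := by exact_mod_cast hy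
  have hy2 : (y' : ℤ) < 2 ^ s := by exact_mod_cast hy'
  have hc0 : c = 0 := by
    have a1 : c < 1 := by
      by_contra hcon
      push Not at hcon
      nlinarith
    have a2 : -1 < c := by
      by_contra hcon
      push Not at hcon
      nlinarith
    omega
  rw [hc0, mul_zero] at hc
  omega

private theorem image_wd85 (hρ : Odd ρ) (s : ℕ) :
    image (fun y : ℕ => wd 2 3 (fun _ => ρ) s (y : ℤ)) (range (2 ^ s)) = W 2 s := by
  apply Finset.eq_of_subset_of_card_le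
  · intro w hw
    obtain ⟨y, -, rfl⟩ := mem_image.1 hw
    exact wd_mem le_rfl _ _ _
  · rw [card_W, card_image_of_injOn (wd_inj85 hρ s), card_range]

/-- The words of the `u y + v`, `y < 2 ^ s`, are all the words. -/
theorem count_wd (hρ : Odd ρ) (s : ℕ) (Φ : List ℕ → Prop) {u : ℤ} (hu : Odd u) (v : ℤ) :
    (((range (2 ^ s)).filter (fun y : ℕ => Φ (wd 2 3 (fun _ => ρ) s (u * y + v)))).card : ℝ) = cW 2 s Φ := by
  have h1 := card_affine (k := s) (P := fun x => Φ (wd 2 3 (fun _ => ρ) s x))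
    (fun x j => by rw [wd_per hρ]) hu v
  unfold cW
  rw [Nat.cast_inj, ← image_wd85 hρ s, filter_image, card_image_of_injOn ((wd_inj85 hρ s).mono (by
    intro x hx
    exact mem_coe.2 (filter_subset _ _ (mem_coe.1 hx))))]
  exact h1

/-- Chebyshev. -/
theorem dev_count (hρ : Odd ρ) (s : ℕ) {u : ℤ} (hu : Odd u) (v : ℤ) {R : ℝ} (hR : 0 < R) :
    (((range (2 ^ s)).filter (fun y : ℕ => R < |(ck ρ s (u * y + v) : ℝ) - s / 2|)).card : ℝ) ≤
      2 ^ s * (s / R ^ 2) := by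
  have h := chebyshev (d := 2) le_rfl s hR
  rw [← count_wd hρ s _ hu v] at h
  refine le_trans (le_of_eq ?_) h
  congr 2
  refine filter_congr fun y _ => ?_
  rw [ck_eq_sg]
  push_cast
  rw [show (1 - 1 / 2 : ℝ) * s = s / 2 by ring]

/-- The fractional moment of the offset. -/
theorem off_count (hρ : Odd ρ) {κ C : ℝ} (hk0 : 0 < κ) (hk1 : κ ≤ 1) (hC0 : 0 < C)
    (hC : C * ((1 + (3 : ℝ) ^ κ) / (2 * (2 : ℝ) ^ κ)) + 1 ≤ C) (s : ℕ) {u : ℤ} (hu : Odd u) (v : ℤ)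
    {L : ℝ} (hL : 0 < L) :
    (((range (2 ^ s)).filter (fun y : ℕ => L * 2 ^ s < |(ofs ρ s (u * y + v) : ℝ)|)).card : ℝ) ≤
      2 ^ s * (C * L ^ (-κ)) := by
  have hmom := moment_le (d := 2) (m := 3) le_rfl (by norm_num) (r := fun _ => 1) (B := 1) le_rfl
    (fun j _ _ => by simp) hk0 hk1 hC0 (by push_cast; rw [show (2 : ℝ) - 1 = 1 by norm_num, one_mul]; exact hC) s
  have h1 : cW 2 s (fun w => L * 2 ^ s < |(Off 2 3 (fun _ => 1) w : ℝ)|) ≤
      ∑ w ∈ W 2 s, L ^ (-κ) * (|(Off 2 3 (fun _ => 1) w : ℝ)| / ((1 : ℕ) * ((2 : ℕ) : ℝ) ^ s)) ^ κ := by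
    refine cW_le_sum (fun w _ => by positivity) fun w _ hw => ?_
    have h2 : L ≤ |(Off 2 3 (fun _ => 1) w : ℝ)| / ((1 : ℕ) * ((2 : ℕ) : ℝ) ^ s) := by
      push_cast
      rw [one_mul, le_div_iff₀ (by positivity)]
      exact hw.le
    have h3 := Real.rpow_le_rpow hL.le h2 hk0.le
    calc (1 : ℝ) = L ^ (-κ) * L ^ κ := by
          rw [← Real.rpow_add hL]; simp
      _ ≤ _ := mul_le_mul_of_nonneg_left h3 (by positivity)
  rw [← mul_sum] at h1
  have h2 := count_wd hρ s (fun w => L * 2 ^ s < |(Off 2 3 (fun _ => 1) w : ℝ)|) hu v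
  have h3 : (((range (2 ^ s)).filter (fun y : ℕ => L * 2 ^ s < |(ofs ρ s (u * y + v) : ℝ)|)).card : ℝ) =
      cW 2 s (fun w => L * 2 ^ s < |(Off 2 3 (fun _ => 1) w : ℝ)|) := h2
  rw [h3]
  refine h1.trans ((mul_le_mul_of_nonneg_left hmom (by positivity)).trans (le_of_eq ?_))
  push_cast
  ring

/-- Markov's inequality for the power of three. -/
theorem pow_count (hρ : Odd ρ) {κ : ℝ} (hk0 : 0 < κ) (s : ℕ) {u : ℤ} (hu : Odd u) (v : ℤ)
    {L b : ℝ} (hL : 0 < L) (hb : 0 ≤ b) :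
    (((range (2 ^ s)).filter (fun y : ℕ => L * 2 ^ s < 3 ^ (ck ρ s (u * y + v)) * b)).card : ℝ) ≤
      2 ^ s * (((1 + (3 : ℝ) ^ κ) / (2 * (2 : ℝ) ^ κ)) ^ s * (b / L) ^ κ) := by
  have h1 : cW 2 s (fun w => L * 2 ^ s < 3 ^ (sg w) * b) ≤
      ∑ w ∈ W 2 s, ((b / L) ^ κ / (2 ^ κ) ^ s) * ((3 : ℝ) ^ κ) ^ sg w := by
    refine cW_le_sum (fun w _ => by positivity) fun w _ hw => ?_
    have hb' : 0 < b := by
      rcases hb.lt_or_eq with h | h
      · exact h
      · exfalso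
        rw [← h, mul_zero] at hw
        have : 0 < L * 2 ^ s := by positivity
        linarith
    have h2 : 1 ≤ (b / L) / 2 ^ s * 3 ^ sg w := by
      rw [div_div, div_mul_eq_mul_div, le_div_iff₀ (by positivity), one_mul, mul_comm b]
      exact hw.le
    have h3 := Real.one_le_rpow h2 hk0.le
    rw [Real.mul_rpow (by positivity) (by positivity), Real.div_rpow (by positivity) (by positivity)] at h3
    have h4 : ((2 : ℝ) ^ s) ^ κ = (2 ^ κ) ^ s := by
      rw [← Real.rpow_natCast, ← Real.rpow_mul (by norm_num), ← Real.rpow_natCast, ← Real.rpow_mul (by norm_num),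
        mul_comm]
    have h5 : ((3 : ℝ) ^ sg w) ^ κ = (3 ^ κ) ^ sg w := by
      rw [← Real.rpow_natCast, ← Real.rpow_mul (by norm_num), ← Real.rpow_natCast, ← Real.rpow_mul (by norm_num),
        mul_comm]
    rw [h4, h5] at h3
    exact h3
  rw [← mul_sum, sum_pow_sg 2 s _ (by norm_num)] at h1
  have h2 := count_wd hρ s (fun w => L * 2 ^ s < 3 ^ (sg w) * b) hu v
  have h3 : (((range (2 ^ s)).filter (fun y : ℕ => L * 2 ^ s < 3 ^ (ck ρ s (u * y + v)) * b)).card : ℝ) =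
      cW 2 s (fun w => L * 2 ^ s < 3 ^ (sg w) * b) := by
    rw [← h2]
    congr 2
    refine filter_congr fun y _ => ?_
    rw [ck_eq_sg]
  rw [h3]
  refine h1.trans (le_of_eq ?_)
  push_cast
  rw [show (2 : ℝ) - 1 = 1 by norm_num, one_mul, div_pow, mul_pow]
  field_simp

end Pool.Agent.Helper8.SI
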