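import Pool.Agent.Helper8.SI.Def
import Pool.Agent.Helper8.SI.CrA
import Pool.Agent.Helper8.CO.ParB
import Pool.Agent.Helper8.CO.Cnt

/-!
# Block X: crossing

`X₀ = T^[s] y`, `X₁ = T^[s] (3 ^ i y + ρ β)`, `X₂ = T^[s] (3 ^ M y)`; levels `lev₁ (s) = i + cnt s y₁ - cnt s y`, `lev₂ (s) = M + cnt s y₂ - cnt s y`. Let `y` be such
that `(X₀, X₂)` has merged at the time `b₁` (so `lev₂ (b₁) = 0`) but `(X₀, X₁)` has not at the time `b₁ + s'`.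
(α) `lev₁ (s₀) ≤ 0` or `lev₂ (s₀) ≤ lev₁ (s₀)`: one of the three numbers `cnt s₀ (·)` differs from `s₀ / 2` by `≥ i / 2` resp. `(M - i) / 2`; `y`, `y₁`, `y₂` are
uniform modulo `2 ^ s₀` (`card_affine`), Chebyshev: probability `≤ C s₀ (1 / i² + 1 / (M - i)²)`.
(β) otherwise (`lev` differences change by at most one in a step) there is a first `s ∈ [s₀, b₁]` with `lev₁ (s) = 0` or `lev₁ (s) = lev₂ (s)`.
At this time the difference `X₁ - X₀ = ρ β'` resp. `X₂ - X₁ = ρ β'` depends only on `y` modulo `2 ^ s` (`iter_add`), and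
`|β'| ≤ (3 ^ (cnt s y₁) |β| + (|Off₀| or |Off₂|) + |Off₁|) / 2 ^ s`.
(γ) `|β'| > Λ` for some `s ∈ [s₀, b₁]` as in (β): `off_tail` (`Tao/C2.lean`) for the offsets: `C b₁ Λ ^ (-κ)`; `E (3 ^ (cnt s y₁) / 2 ^ s) ^ κ = q ^ s`,
`q = (1 + 3 ^ κ) / 2 ^ (1 + κ) < 1` (`exists_kappa`), Markov: `∑_{s ≥ s₀} q ^ s (3 * 3 ^ i H₁) ^ κ`.
(δ) `|β'| ≤ Λ`: for a class `a` modulo `2 ^ s` with first crossing time `s` the lifts modulo `2 ^ (b₁ + s')` are uniform at the time `s`: the number of the lifts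
for which the pair has not merged at the time `b₁ + s'` is `≤ 2 ^ (b₁ + s' - s) uu (b₁ + s' - s) (0, β') ≤ … uu s' (0, β')` (`card_affine`, `MM_periodic`, `cnt_le`,
`uu_anti`), `uu_rate` with `c = 1 / 4`. The classes of the different `s` are disjoint. If `(X₁, X₂)` has merged at `b₁ + s'` then so has `(X₀, X₁)`.
-/

set_option autoImplicit false

namespace Pool.Agent.Helper8.SI

open Pool.Agent.Helper68.Moeller Pool.Agent.Helper8.CO Finset Classical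

variable {ρ : ℤ}

private theorem sum_fib85 (s l : ℕ) (f : ℕ → ℝ) :
    ∑ y ∈ range (2 ^ (s + l)), f y = ∑ a ∈ range (2 ^ s), ∑ j ∈ range (2 ^ l), f (a + 2 ^ s * j) := by
  rw [← Finset.sum_product' (f := fun a j => f (a + 2 ^ s * j))]
  symm
  have hp : 0 < 2 ^ s := by positivity
  refine Finset.sum_nbij' (fun p => p.1 + 2 ^ s * p.2) (fun y => (y % 2 ^ s, y / 2 ^ s)) ?_ ?_ ?_ ?_ ?_
  · rintro ⟨a, j⟩ h
    rw [mem_product, mem_range, mem_range] at h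
    obtain ⟨h1, h2⟩ := h
    rw [mem_range, pow_add]
    simp only at h1 h2 ⊢
    calc a + 2 ^ s * j < 2 ^ s + 2 ^ s * j := by omega
      _ = 2 ^ s * (j + 1) := by ring
      _ ≤ 2 ^ s * 2 ^ l := Nat.mul_le_mul_left _ h2
  · intro y h
    rw [mem_range, pow_add] at h
    rw [mem_product, mem_range, mem_range]
    exact ⟨Nat.mod_lt _ hp, Nat.div_lt_of_lt_mul h⟩
  · rintro ⟨a, j⟩ h
    rw [mem_product, mem_range, mem_range] at h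
    obtain ⟨h1, h2⟩ := h
    simp only at h1 h2 ⊢
    rw [Nat.add_mul_mod_self_left, Nat.mod_eq_of_lt h1, Nat.add_mul_div_left _ _ hp, Nat.div_eq_of_lt h1,
      Nat.zero_add]
  · intro y _
    exact Nat.mod_add_div y (2 ^ s)
  · intro p _
    rfl

private theorem card_sum85 {α : Type} (F : Finset α) (P : α → Prop) {_ : DecidablePred P} :
    ((F.filter P).card : ℝ) = ∑ y ∈ F, if P y then (1 : ℝ) else 0 := by
  rw [card_filter]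
  push_cast
  rfl

private theorem card_le85 {α : Type} (F : Finset α) {P Q : α → Prop} {_ : DecidablePred P} {_ : DecidablePred Q}
    (h : ∀ y ∈ F, P y → Q y) : ((F.filter P).card : ℝ) ≤ (F.filter Q).card := by
  refine Nat.cast_le.2 (card_le_card fun y hy => ?_)
  rw [mem_filter] at hy ⊢
  exact ⟨hy.1, h y hy.1 hy.2⟩

private theorem card_or85 {α : Type} (F : Finset α) (P Q : α → Prop) {_ : DecidablePred fun y => P y ∨ Q y} :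
    ((F.filter (fun y => P y ∨ Q y)).card : ℝ) ≤ (F.filter P).card + (F.filter Q).card := by
  have h : F.filter (fun y => P y ∨ Q y) ⊆ F.filter P ∪ F.filter Q := by
    intro y hy
    rw [mem_filter] at hy
    rw [mem_union, mem_filter, mem_filter]
    tauto
  exact_mod_cast (card_le_card h).trans (card_union_le _ _)

private theorem lift_le85 {s l : ℕ} {P : ℕ → Prop} (hP : ∀ a j : ℕ, P (a + 2 ^ s * j) ↔ P a) {Q : ℕ → Prop} {δ : ℝ}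
    {_ : DecidablePred fun y => P y ∧ Q y}
    (h : ∀ a < 2 ^ s, P a → (((range (2 ^ l)).filter (fun j => Q (a + 2 ^ s * j))).card : ℝ) ≤ 2 ^ l * δ) :
    (((range (2 ^ (s + l))).filter (fun y => P y ∧ Q y)).card : ℝ) ≤
      δ * ((range (2 ^ (s + l))).filter P).card := by
  rw [card_sum85, card_sum85, mul_sum, sum_fib85, sum_fib85]
  refine sum_le_sum fun a ha => ?_
  by_cases hPa : P a
  · have h1 := h a (mem_range.1 ha) hPa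
    rw [card_sum85] at h1
    refine le_trans (le_of_eq (sum_congr rfl fun j _ => ?_)) (h1.trans (le_of_eq ?_))
    · by_cases hQ : Q (a + 2 ^ s * j)
      · rw [if_pos hQ, if_pos ⟨(hP a j).2 hPa, hQ⟩]
      · rw [if_neg hQ, if_neg (fun h => hQ h.2)]
    · rw [sum_congr rfl (fun j _ => by rw [if_pos ((hP a j).2 hPa), mul_one]), sum_const, card_range, nsmul_eq_mul]
      push_cast
      rfl
  · refine le_of_eq (sum_congr rfl fun j _ => ?_)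
    rw [if_neg (fun h => hPa ((hP a j).1 h.1)), if_neg (fun h => hPa ((hP a j).1 h)), mul_zero]

private theorem card_per85 {s l : ℕ} {P : ℕ → Prop} (hP : ∀ a j : ℕ, P (a + 2 ^ s * j) ↔ P a)
    {_ : DecidablePred P} :
    (((range (2 ^ (s + l))).filter P).card : ℝ) = 2 ^ l * ((range (2 ^ s)).filter P).card := by
  rw [card_sum85, card_sum85, mul_sum, sum_fib85]
  refine sum_congr rfl fun a _ => ?_
  have h1 : ∀ j ∈ range (2 ^ l), (if P (a + 2 ^ s * j) then (1 : ℝ) else 0) = if P a then 1 else 0 := by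
    intro j _
    by_cases h : P a
    · rw [if_pos h, if_pos ((hP a j).2 h)]
    · rw [if_neg h, if_neg (fun h' => h ((hP a j).1 h'))]
  rw [sum_congr rfl h1, sum_const, card_range, nsmul_eq_mul]
  push_cast
  rfl

/-- A pair at the same level. -/
private def DD (ρ : ℤ) (i : ℕ) (β : ℤ) (e s : ℕ) (y : ℤ) : Prop :=
  ck ρ s (3 ^ e * y) + e = ck ρ s (3 ^ i * y + ρ * β) + i

private theorem per_e85 (e s : ℕ) (x j : ℤ) : (3 : ℤ) ^ e * (x + 2 ^ s * j) = 3 ^ e * x + 2 ^ s * (3 ^ e * j) := by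
  ring

private theorem per_i85 (i s : ℕ) (v x j : ℤ) :
    (3 : ℤ) ^ i * (x + 2 ^ s * j) + v = (3 ^ i * x + v) + 2 ^ s * (3 ^ i * j) := by
  ring

private theorem DD_per85 (hρ : Odd ρ) (i : ℕ) (β : ℤ) (e s : ℕ) (x j : ℤ) :
    DD ρ i β e s (x + 2 ^ s * j) ↔ DD ρ i β e s x := by
  unfold DD
  rw [per_e85, per_i85, ck_per hρ, ck_per hρ]

private theorem DD_per85' (hρ : Odd ρ) (i : ℕ) (β : ℤ) (e : ℕ) {s' s : ℕ} (h : s' ≤ s) (x j : ℤ) :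
    DD ρ i β e s' (x + 2 ^ s * j) ↔ DD ρ i β e s' x := by
  obtain ⟨k, rfl⟩ := Nat.exists_eq_add_of_le h
  rw [pow_add, mul_assoc]
  exact DD_per85 hρ i β e s' x _

private theorem pair_count85 (hρ : Odd ρ) (k κ : ℕ) (A β : ℤ) :
    (((range (2 ^ k)).filter (fun j : ℕ =>
      ¬ MM ρ k 0 (A + 3 ^ κ * j) (A + 3 ^ κ * j + ρ * β))).card : ℝ) ≤ 2 ^ k * uu k (0, β) := by
  have hper : ∀ x j : ℤ, ¬ MM ρ k 0 (x + 2 ^ k * j) (3 ^ 0 * (x + 2 ^ k * j) + ρ * β) ↔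
      ¬ MM ρ k 0 x (3 ^ 0 * x + ρ * β) := fun x j => not_congr (MM_periodic hρ k 0 β x j)
  have h1 := card_affine (P := fun x => ¬ MM ρ k 0 x (3 ^ 0 * x + ρ * β)) hper
    (u := 3 ^ κ) (Odd.pow (by decide)) A
  have h2 := cnt_le hρ k 0 β
  have h3 : (((range (2 ^ k)).filter (fun j : ℕ => ¬ MM ρ k 0 (3 ^ κ * (j : ℤ) + A)
      (3 ^ 0 * (3 ^ κ * (j : ℤ) + A) + ρ * β))).card : ℝ) ≤ 2 ^ k * uu k (0, β) := by
    refine le_trans ?_ h2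
    refine le_trans (card_le85 _ fun y _ h => h) (le_trans (le_of_eq (congrArg (Nat.cast (R := ℝ)) h1))
      (card_le85 _ fun y _ h => h))
  refine le_trans (card_le85 _ fun j _ hj => ?_) h3
  rw [pow_zero, one_mul, add_comm _ A]
  exact hj

private theorem diff85 (hρ : Odd ρ) {i e s : ℕ} {β y : ℤ} (h : DD ρ i β e s y) : ∃ b : ℤ,
    tk ρ s (3 ^ i * y + ρ * β) = tk ρ s (3 ^ e * y) + ρ * b ∧
    2 ^ s * |(b : ℝ)| ≤ 3 ^ (ck ρ s (3 ^ i * y + ρ * β)) * |(β : ℝ)| +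
      |(ofs ρ s (3 ^ i * y + ρ * β) : ℝ)| + |(ofs ρ s (3 ^ e * y) : ℝ)| := by
  have h1 := tk_spec hρ s (3 ^ i * y + ρ * β)
  have h2 := tk_spec hρ s (3 ^ e * y)
  have h3 : (3 : ℤ) ^ ck ρ s (3 ^ e * y) * 3 ^ e = 3 ^ ck ρ s (3 ^ i * y + ρ * β) * 3 ^ i := by
    rw [← pow_add, ← pow_add, h]
  have h4 : 2 ^ s * (tk ρ s (3 ^ i * y + ρ * β) - tk ρ s (3 ^ e * y)) =
      ρ * (3 ^ ck ρ s (3 ^ i * y + ρ * β) * β - ofs ρ s (3 ^ i * y + ρ * β) + ofs ρ s (3 ^ e * y)) := by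
    linear_combination h1 - h2 - y * h3
  have hcop : IsCoprime ρ ((2 : ℤ) ^ s) := by
    apply IsCoprime.pow_right
    obtain ⟨w, hw⟩ := hρ
    exact ⟨1, -w, by rw [hw]; ring⟩
  obtain ⟨b, hb⟩ := hcop.dvd_of_dvd_mul_left ⟨_, h4⟩
  refine ⟨b, by linear_combination hb, ?_⟩
  have hρ0 : ρ ≠ 0 := by
    rintro rfl
    simp at hρ
  have h5 : 2 ^ s * b =
      3 ^ ck ρ s (3 ^ i * y + ρ * β) * β - ofs ρ s (3 ^ i * y + ρ * β) + ofs ρ s (3 ^ e * y) := by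
    apply mul_left_cancel₀ hρ0
    rw [← h4, hb]
    ring
  have h6 : (2 : ℝ) ^ s * |(b : ℝ)| = |(2 : ℝ) ^ s * b| := by
    rw [abs_mul, abs_of_pos (by positivity : (0 : ℝ) < 2 ^ s)]
  have h7 : (2 : ℝ) ^ s * b = 3 ^ ck ρ s (3 ^ i * y + ρ * β) * β - ofs ρ s (3 ^ i * y + ρ * β) +
      ofs ρ s (3 ^ e * y) := by exact_mod_cast h5
  rw [h6, h7]
  refine (abs_add_le _ _).trans (add_le_add_left ((abs_sub _ _).trans (add_le_add_left (le_of_eq ?_) _)) _)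
  rw [abs_mul, abs_of_pos (by positivity : (0 : ℝ) < 3 ^ ck ρ s (3 ^ i * y + ρ * β))]

private theorem lifts85 (hρ : Odd ρ) {i e s : ℕ} (l : ℕ) {β a b : ℤ} (h : DD ρ i β e s a)
    (hb : tk ρ s (3 ^ i * a + ρ * β) = tk ρ s (3 ^ e * a) + ρ * b) :
    (((range (2 ^ l)).filter (fun j : ℕ => ¬ MM ρ l 0 (tk ρ s (3 ^ e * (a + 2 ^ s * j)))
      (tk ρ s (3 ^ i * (a + 2 ^ s * j) + ρ * β)))).card : ℝ) ≤ 2 ^ l * uu l (0, b) := by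
  refine le_trans (le_of_eq ?_) (pair_count85 hρ l (ck ρ s (3 ^ e * a) + e) (tk ρ s (3 ^ e * a)) b)
  congr 2
  refine filter_congr fun j _ => ?_
  rw [per_e85, per_i85, tk_per hρ, tk_per hρ, hb]
  have h3 : (3 : ℤ) ^ ck ρ s (3 ^ i * a + ρ * β) * 3 ^ i = 3 ^ (ck ρ s (3 ^ e * a) + e) := by
    rw [← pow_add, ← h]
  have e1 : tk ρ s (3 ^ e * a) + 3 ^ ck ρ s (3 ^ e * a) * (3 ^ e * (j : ℤ)) =
      tk ρ s (3 ^ e * a) + 3 ^ (ck ρ s (3 ^ e * a) + e) * j := by rw [pow_add]; ring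
  have e2 : tk ρ s (3 ^ e * a) + ρ * b + 3 ^ ck ρ s (3 ^ i * a + ρ * β) * (3 ^ i * (j : ℤ)) =
      tk ρ s (3 ^ e * a) + 3 ^ (ck ρ s (3 ^ e * a) + e) * j + ρ * b := by
    rw [← h3]; ring
  rw [e1, e2]

private theorem merge85 {i e s l : ℕ} {β y : ℤ} (h : DD ρ i β e s y)
    (hm : MM ρ l 0 (tk ρ s (3 ^ e * y)) (tk ρ s (3 ^ i * y + ρ * β))) :
    tk ρ (s + l) (3 ^ e * y) = tk ρ (s + l) (3 ^ i * y + ρ * β) ∧
      ck ρ (s + l) (3 ^ e * y) + e = ck ρ (s + l) (3 ^ i * y + ρ * β) + i := by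
  obtain ⟨h1, h2⟩ := hm
  rw [tk_add, tk_add, ck_add, ck_add]
  refine ⟨h1, ?_⟩
  have h3 : ck ρ l (tk ρ s (3 ^ e * y)) = ck ρ l (tk ρ s (3 ^ i * y + ρ * β)) + 0 := h2
  have h4 : ck ρ s (3 ^ e * y) + e = ck ρ s (3 ^ i * y + ρ * β) + i := h
  omega

private theorem MM_iff85 (k c : ℕ) (y y' : ℤ) :
    MM ρ k c y y' ↔ tk ρ k y = tk ρ k y' ∧ ck ρ k y = ck ρ k y' + c := Iff.rfl

/-- A pair which has merged stays merged. -/
private theorem stay85 {k c : ℕ} {y y' : ℤ} (h : MM ρ k c y y') (l : ℕ) : MM ρ (k + l) c y y' := by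
  rw [MM_iff85] at h ⊢
  obtain ⟨h1, h2⟩ := h
  rw [tk_add, tk_add, ck_add, ck_add, h1, h2]
  exact ⟨rfl, by omega⟩

/-- A bad point has not merged after a crossing. -/
private theorem bad85 {i M b₁ s l : ℕ} {β y : ℤ} (hl : b₁ ≤ s + l) (h2 : MM ρ b₁ M y (3 ^ M * y))
    (hbad : ¬ MM ρ (s + l) i y (3 ^ i * y + ρ * β)) {e : ℕ} (he : e = 0 ∨ e = M) (h : DD ρ i β e s y) :
    ¬ MM ρ l 0 (tk ρ s (3 ^ e * y)) (tk ρ s (3 ^ i * y + ρ * β)) := by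
  intro hm
  apply hbad
  obtain ⟨h3, h4⟩ := merge85 h hm
  rw [MM_iff85]
  rcases he with rfl | rfl
  · rw [pow_zero, one_mul] at h3 h4
    exact ⟨h3, h4⟩
  · obtain ⟨k, hk⟩ := Nat.exists_eq_add_of_le hl
    have h5 := stay85 h2 k
    rw [← hk, MM_iff85] at h5
    obtain ⟨h5, h6⟩ := h5
    exact ⟨h5.trans h3, h6.trans h4⟩

private def XX (ρ : ℤ) (i M : ℕ) (β : ℤ) (s : ℕ) (y : ℤ) : Prop := DD ρ i β 0 s y ∨ DD ρ i β M s y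

private def FF (ρ : ℤ) (i M : ℕ) (β : ℤ) (s₀ s : ℕ) (y : ℤ) : Prop :=
  XX ρ i M β s y ∧ ∀ s' : ℕ, s₀ ≤ s' → s' < s → ¬ XX ρ i M β s' y

private theorem cross85 {i M s₀ b₁ : ℕ} {β y : ℤ} (hs : s₀ ≤ b₁)
    (h1 : ck ρ s₀ (3 ^ 0 * y) < ck ρ s₀ (3 ^ i * y + ρ * β) + i)
    (h2 : ck ρ s₀ (3 ^ i * y + ρ * β) + i < ck ρ s₀ (3 ^ M * y) + M)
    (h3 : ck ρ b₁ (3 ^ 0 * y) = ck ρ b₁ (3 ^ M * y) + M) :
    ∃ s : ℕ, s₀ ≤ s ∧ s ≤ b₁ ∧ FF ρ i M β s₀ s y := by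
  have hex : ∃ s : ℕ, s₀ ≤ s ∧ s ≤ b₁ ∧ XX ρ i M β s y := by
    by_contra hcon
    push Not at hcon
    have h4 : ∀ k : ℕ, s₀ + k ≤ b₁ → ck ρ (s₀ + k) (3 ^ 0 * y) < ck ρ (s₀ + k) (3 ^ i * y + ρ * β) + i ∧
        ck ρ (s₀ + k) (3 ^ i * y + ρ * β) + i < ck ρ (s₀ + k) (3 ^ M * y) + M := by
      intro k
      induction k with
      | zero => exact fun _ => ⟨h1, h2⟩
      | succ k ih =>
        intro hk
        obtain ⟨h5, h6⟩ := ih (by omega)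
        have h7 := hcon (s₀ + (k + 1)) (by omega) hk
        unfold XX DD at h7
        push Not at h7
        obtain ⟨h8, h9⟩ := h7
        rw [← Nat.add_assoc] at h8 h9 ⊢
        have a1 := ck_succ_le (ρ := ρ) (s₀ + k) (3 ^ 0 * y)
        have a2 := ck_succ_ge (ρ := ρ) (s₀ + k) (3 ^ i * y + ρ * β)
        have a3 := ck_succ_le (ρ := ρ) (s₀ + k) (3 ^ i * y + ρ * β)
        have a4 := ck_succ_ge (ρ := ρ) (s₀ + k) (3 ^ M * y)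
        omega
    obtain ⟨k, rfl⟩ := Nat.exists_eq_add_of_le hs
    obtain ⟨h5, h6⟩ := h4 k le_rfl
    omega
  obtain ⟨h4, h5, h6⟩ := Nat.find_spec hex
  refine ⟨Nat.find hex, h4, h5, h6, fun s' h7 h8 h9 => ?_⟩
  exact Nat.find_min hex h8 ⟨h7, by omega, h9⟩

private theorem FF_per85 (hρ : Odd ρ) (i M : ℕ) (β : ℤ) (s₀ s : ℕ) (x j : ℤ) :
    FF ρ i M β s₀ s (x + 2 ^ s * j) ↔ FF ρ i M β s₀ s x := by
  unfold FF XX
  rw [DD_per85 hρ, DD_per85 hρ]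
  refine and_congr_right fun _ => forall_congr' fun s' => forall_congr' fun _ => forall_congr' fun h => ?_
  rw [DD_per85' hρ i β 0 h.le, DD_per85' hρ i β M h.le]

/-- The events of the different times are disjoint. -/
private theorem sum_FF85 (i M : ℕ) (β : ℤ) (s₀ b₁ N : ℕ) :
    ∑ s ∈ Icc s₀ b₁, (((range (2 ^ N)).filter (fun y : ℕ => FF ρ i M β s₀ s y)).card : ℝ) ≤ 2 ^ N := by
  simp only [card_sum85]
  rw [sum_comm]
  refine le_trans (sum_le_sum fun y _ => ?_) (le_of_eq (by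
    rw [sum_const, card_range, nsmul_eq_mul, mul_one]; push_cast; rfl) :
      ∑ y ∈ range (2 ^ N), (1 : ℝ) ≤ 2 ^ N)
  rw [← card_sum85]
  have h1 : ((Icc s₀ b₁).filter (fun s => FF ρ i M β s₀ s (y : ℤ))).card ≤ 1 := by
    rw [card_le_one]
    intro s hs s' hs'
    rw [mem_filter, mem_Icc] at hs hs'
    rcases lt_trichotomy s s' with h | h | h
    · exact absurd hs.2.1 (hs'.2.2 s hs.1.1 h)
    · exact h
    · exact absurd hs'.2.1 (hs.2.2 s' hs'.1.1 h)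
  exact_mod_cast h1

/-- Large at the time `s`. -/
private def LG (ρ : ℤ) (i M : ℕ) (β : ℤ) (L : ℝ) (s : ℕ) (y : ℤ) : Prop :=
  L * 2 ^ s < 3 ^ (ck ρ s (3 ^ i * y + ρ * β)) * |(β : ℝ)| ∨
  L * 2 ^ s < |(ofs ρ s (3 ^ i * y + ρ * β) : ℝ)| ∨
  L * 2 ^ s < |(ofs ρ s (3 ^ 0 * y + 0) : ℝ)| ∨ L * 2 ^ s < |(ofs ρ s (3 ^ M * y + 0) : ℝ)|

private theorem LG_per85 (hρ : Odd ρ) (i M : ℕ) (β : ℤ) (L : ℝ) (s : ℕ) (x j : ℤ) :
    LG ρ i M β L s (x + 2 ^ s * j) ↔ LG ρ i M β L s x := by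
  unfold LG
  rw [per_i85, per_i85, per_i85, ck_per hρ, ofs_per hρ, ofs_per hρ, ofs_per hρ]

private theorem small85 (hρ : Odd ρ) {i M e s : ℕ} {β y : ℤ} {L : ℝ} (he : e = 0 ∨ e = M) (h : DD ρ i β e s y)
    (hL : ¬ LG ρ i M β L s y) : ∃ b : ℤ,
      tk ρ s (3 ^ i * y + ρ * β) = tk ρ s (3 ^ e * y) + ρ * b ∧ |(b : ℝ)| ≤ 3 * L := by
  obtain ⟨b, hb1, hb2⟩ := diff85 hρ h
  refine ⟨b, hb1, ?_⟩
  unfold LG at hL
  push Not at hL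
  obtain ⟨g1, g2, g3, g4⟩ := hL
  rw [add_zero] at g3 g4
  have g5 : |(ofs ρ s (3 ^ e * y) : ℝ)| ≤ L * 2 ^ s := by
    rcases he with rfl | rfl
    · exact g3
    · exact g4
  have h2 : (0 : ℝ) < 2 ^ s := by positivity
  have h3 : 2 ^ s * |(b : ℝ)| ≤ 2 ^ s * (3 * L) := by linarith
  exact le_of_mul_le_mul_left h3 h2

/-- The first crossings with small difference. -/
private theorem delta85 (hρ : Odd ρ) {C₁ : ℝ} (hC₁ : 0 < C₁) (hu : ∀ (h : ℤ) (k : ℕ), 1 ≤ k →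
    uu k (0, h) ≤ C₁ * Real.sqrt (1 + Real.log (1 + |(h : ℝ)|)) * (k : ℝ) ^ (-(1 / 4 : ℝ)))
    {s₀ b₁ s' i M s : ℕ} (hs : s ≤ b₁) (hs' : 1 ≤ s') (β : ℤ) {L : ℝ} :
    (((range (2 ^ (b₁ + s'))).filter (fun y : ℕ => (FF ρ i M β s₀ s y ∧ ¬ LG ρ i M β L s y) ∧
      ∀ e : ℕ, e = 0 ∨ e = M → DD ρ i β e s y →
        ¬ MM ρ (b₁ + s' - s) 0 (tk ρ s (3 ^ e * y)) (tk ρ s (3 ^ i * y + ρ * β)))).card : ℝ) ≤
      (C₁ * Real.sqrt (1 + Real.log (1 + 3 * L)) * (s' : ℝ) ^ (-(1 / 4 : ℝ))) *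
        ((range (2 ^ (b₁ + s'))).filter (fun y : ℕ => FF ρ i M β s₀ s y)).card := by
  obtain ⟨l, hl⟩ : ∃ l, b₁ + s' = s + l := Nat.exists_eq_add_of_le (by omega)
  have hl' : s' ≤ l := by omega
  rw [hl, Nat.add_sub_cancel_left]
  have hδ0 : 0 ≤ C₁ * Real.sqrt (1 + Real.log (1 + 3 * L)) * (s' : ℝ) ^ (-(1 / 4 : ℝ)) := by positivity
  have hcast : ∀ a j : ℕ, ((a + 2 ^ s * j : ℕ) : ℤ) = (a : ℤ) + 2 ^ s * j := by
    intro a j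
    push_cast
    rfl
  refine le_trans (lift_le85 (s := s) (l := l) (P := fun y : ℕ => FF ρ i M β s₀ s y ∧ ¬ LG ρ i M β L s y)
    (Q := fun y : ℕ => ∀ e : ℕ, e = 0 ∨ e = M → DD ρ i β e s y →
        ¬ MM ρ l 0 (tk ρ s (3 ^ e * y)) (tk ρ s (3 ^ i * y + ρ * β)))
    (fun a j => ?_) (δ := C₁ * Real.sqrt (1 + Real.log (1 + 3 * L)) * (s' : ℝ) ^ (-(1 / 4 : ℝ)))
    (fun a _ hPa => ?_)) (mul_le_mul_of_nonneg_left (card_le85 _ fun y _ h => h.1) hδ0)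
  · rw [hcast, FF_per85 hρ, LG_per85 hρ]
  · obtain ⟨⟨hX, -⟩, hL⟩ := hPa
    have key : ∀ e : ℕ, e = 0 ∨ e = M → DD ρ i β e s (a : ℤ) →
        (((range (2 ^ l)).filter (fun j : ℕ => ∀ e : ℕ, e = 0 ∨ e = M → DD ρ i β e s ((a + 2 ^ s * j : ℕ) : ℤ) →
        ¬ MM ρ l 0 (tk ρ s (3 ^ e * ((a + 2 ^ s * j : ℕ) : ℤ)))
          (tk ρ s (3 ^ i * ((a + 2 ^ s * j : ℕ) : ℤ) + ρ * β)))).card : ℝ) ≤
        2 ^ l * (C₁ * Real.sqrt (1 + Real.log (1 + 3 * L)) * (s' : ℝ) ^ (-(1 / 4 : ℝ))) := by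
      intro e he hD
      obtain ⟨b, hb1, hb2⟩ := small85 hρ he hD hL
      have h1 := lifts85 hρ l hD hb1
      have h2 : uu l (0, b) ≤ C₁ * Real.sqrt (1 + Real.log (1 + 3 * L)) * (s' : ℝ) ^ (-(1 / 4 : ℝ)) := by
        refine (uu_anti hl' (0, b)).trans ((hu b s' hs').trans ?_)
        have h3 : Real.log (1 + |(b : ℝ)|) ≤ Real.log (1 + 3 * L) :=
          Real.log_le_log (by positivity) (by linarith)
        have h4 : Real.sqrt (1 + Real.log (1 + |(b : ℝ)|)) ≤ Real.sqrt (1 + Real.log (1 + 3 * L)) :=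
          Real.sqrt_le_sqrt (by linarith)
        gcongr
      refine (card_le85 _ fun j _ hj => ?_).trans (h1.trans (mul_le_mul_of_nonneg_left h2 (by positivity)))
      have h3 := hj e he
      rw [hcast] at h3
      exact h3 ((DD_per85 hρ i β e s a j).2 hD)
    rcases hX with hX | hX
    · exact (card_le85 _ fun j _ h => h).trans (key 0 (Or.inl rfl) hX)
    · exact (card_le85 _ fun j _ h => h).trans (key M (Or.inr rfl) hX)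

/-- Large differences. -/
private theorem gamma85 (hρ : Odd ρ) {κ C : ℝ} (hk0 : 0 < κ) (hk1 : κ ≤ 1) (hC0 : 0 < C)
    (hC : C * ((1 + (3 : ℝ) ^ κ) / (2 * (2 : ℝ) ^ κ)) + 1 ≤ C) {s N : ℕ} (hs : s ≤ N) (i M : ℕ) (β : ℤ)
    {L : ℝ} (hL : 0 < L) :
    (((range (2 ^ N)).filter (fun y : ℕ => LG ρ i M β L s y)).card : ℝ) ≤
      2 ^ N * (((1 + (3 : ℝ) ^ κ) / (2 * (2 : ℝ) ^ κ)) ^ s * (|(β : ℝ)| / L) ^ κ + 3 * (C * L ^ (-κ))) := by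
  obtain ⟨l, rfl⟩ := Nat.exists_eq_add_of_le hs
  rw [card_per85 (P := fun y : ℕ => LG ρ i M β L s y) (fun a j => by
    have e : ((a + 2 ^ s * j : ℕ) : ℤ) = (a : ℤ) + 2 ^ s * j := by push_cast; rfl
    rw [e, LG_per85 hρ])]
  have ho : ∀ k : ℕ, Odd ((3 : ℤ) ^ k) := fun k => Odd.pow (by decide)
  have h1 := pow_count hρ hk0 s (ho i) (ρ * β) hL (abs_nonneg (β : ℝ))
  have h2 := off_count hρ hk0 hk1 hC0 hC s (ho i) (ρ * β) hL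
  have h3 := off_count hρ hk0 hk1 hC0 hC s (ho 0) 0 hL
  have h4 := off_count hρ hk0 hk1 hC0 hC s (ho M) 0 hL
  have h5 : (((range (2 ^ s)).filter (fun y : ℕ => LG ρ i M β L s y)).card : ℝ) ≤
      2 ^ s * (((1 + (3 : ℝ) ^ κ) / (2 * (2 : ℝ) ^ κ)) ^ s * (|(β : ℝ)| / L) ^ κ) +
        (2 ^ s * (C * L ^ (-κ)) + (2 ^ s * (C * L ^ (-κ)) + 2 ^ s * (C * L ^ (-κ)))) := by
    refine (card_or85 _ (fun y : ℕ => L * 2 ^ s < 3 ^ (ck ρ s (3 ^ i * (y : ℤ) + ρ * β)) * |(β : ℝ)|)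
      (fun y : ℕ => L * 2 ^ s < |(ofs ρ s (3 ^ i * (y : ℤ) + ρ * β) : ℝ)| ∨
        L * 2 ^ s < |(ofs ρ s (3 ^ 0 * (y : ℤ) + 0) : ℝ)| ∨ L * 2 ^ s < |(ofs ρ s (3 ^ M * (y : ℤ) + 0) : ℝ)|)).trans
      (add_le_add ((card_le85 _ fun j _ h => h).trans h1) ?_)
    refine (card_or85 _ _ _).trans (add_le_add ((card_le85 _ fun j _ h => h).trans h2) ?_)
    exact (card_or85 _ _ _).trans (add_le_add ((card_le85 _ fun j _ h => h).trans h3)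
      ((card_le85 _ fun j _ h => h).trans h4))
  calc (2 : ℝ) ^ l * _ ≤ 2 ^ l * _ := mul_le_mul_of_nonneg_left h5 (by positivity)
    _ = _ := by rw [pow_add]; ring

/-- The pairs which are not far apart at the time `s₀`. -/
private theorem alpha85 (hρ : Odd ρ) {s₀ N : ℕ} (hs : s₀ ≤ N) {i M : ℕ} (hi : 0 < i) (hM : i < M) (β : ℤ) :
    (((range (2 ^ N)).filter (fun y : ℕ => ¬ (ck ρ s₀ (3 ^ 0 * y) < ck ρ s₀ (3 ^ i * y + ρ * β) + i ∧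
      ck ρ s₀ (3 ^ i * y + ρ * β) + i < ck ρ s₀ (3 ^ M * y) + M))).card : ℝ) ≤
      2 ^ N * (32 * s₀ * (1 / (i : ℝ) ^ 2 + 1 / ((M : ℝ) - i) ^ 2)) := by
  have hi0 : (0 : ℝ) < i := by exact_mod_cast hi
  have hMi : (0 : ℝ) < (M : ℝ) - i := by
    have : (i : ℝ) < M := by exact_mod_cast hM
    linarith
  obtain ⟨l, rfl⟩ := Nat.exists_eq_add_of_le hs
  have ho : ∀ k : ℕ, Odd ((3 : ℤ) ^ k) := fun k => Odd.pow (by decide)
  -- the event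
  have hev : ∀ y ∈ range (2 ^ (s₀ + l)), ¬ (ck ρ s₀ (3 ^ 0 * (y : ℤ)) < ck ρ s₀ (3 ^ i * y + ρ * β) + i ∧
      ck ρ s₀ (3 ^ i * (y : ℤ) + ρ * β) + i < ck ρ s₀ (3 ^ M * y) + M) →
      (((i : ℝ) / 4 < |(ck ρ s₀ (3 ^ 0 * (y : ℤ) + 0) : ℝ) - s₀ / 2| ∨
        (i : ℝ) / 4 < |(ck ρ s₀ (3 ^ i * (y : ℤ) + ρ * β) : ℝ) - s₀ / 2|) ∨
      (((M : ℝ) - i) / 4 < |(ck ρ s₀ (3 ^ i * (y : ℤ) + ρ * β) : ℝ) - s₀ / 2| ∨
        ((M : ℝ) - i) / 4 < |(ck ρ s₀ (3 ^ M * (y : ℤ) + 0) : ℝ) - s₀ / 2|)) := by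
    intro y _ h
    rw [add_zero, add_zero]
    by_contra hcon
    push Not at hcon
    obtain ⟨⟨g1, g2⟩, g3, g4⟩ := hcon
    apply h
    obtain ⟨-, a1⟩ := abs_le.1 g1
    obtain ⟨a2, -⟩ := abs_le.1 g2
    obtain ⟨-, a3⟩ := abs_le.1 g3
    obtain ⟨a4, -⟩ := abs_le.1 g4
    clear h g1 g2 g3 g4
    generalize ck ρ s₀ (3 ^ 0 * (y : ℤ)) = x₀ at a1 ⊢
    generalize ck ρ s₀ (3 ^ i * (y : ℤ) + ρ * β) = x₁ at a2 a3 ⊢
    generalize ck ρ s₀ (3 ^ M * (y : ℤ)) = x₂ at a4 ⊢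
    constructor
    · have : (x₀ : ℝ) < (x₁ : ℝ) + i := by linarith
      exact_mod_cast this
    · have : (x₁ : ℝ) + i < (x₂ : ℝ) + M := by linarith
      exact_mod_cast this
  -- one deviation
  have hone : ∀ (e : ℕ) (v : ℤ) (R : ℝ), 0 < R →
      (((range (2 ^ (s₀ + l))).filter (fun y : ℕ => R / 4 < |(ck ρ s₀ (3 ^ e * (y : ℤ) + v) : ℝ) - s₀ / 2|)).card : ℝ) ≤
        2 ^ (s₀ + l) * (16 * s₀ * (1 / R ^ 2)) := by
    intro e v R hR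
    rw [card_per85 (P := fun y : ℕ => R / 4 < |(ck ρ s₀ (3 ^ e * (y : ℤ) + v) : ℝ) - s₀ / 2|) (fun a j => by
      have e1 : ((a + 2 ^ s₀ * j : ℕ) : ℤ) = (a : ℤ) + 2 ^ s₀ * j := by push_cast; rfl
      rw [e1, per_i85, ck_per hρ])]
    have h := dev_count hρ s₀ (ho e) v (R := R / 4) (by positivity)
    calc (2 : ℝ) ^ l * _ ≤ 2 ^ l * _ := mul_le_mul_of_nonneg_left h (by positivity)
      _ = _ := by rw [pow_add]; field_simp; ring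
  have h1 := hone 0 0 i hi0
  have h2 := hone i (ρ * β) i hi0
  have h3 := hone i (ρ * β) _ hMi
  have h4 := hone M 0 _ hMi
  have h5 : ∀ F : Finset ℕ, F = (range (2 ^ (s₀ + l))).filter (fun y : ℕ =>
      (((i : ℝ) / 4 < |(ck ρ s₀ (3 ^ 0 * (y : ℤ) + 0) : ℝ) - s₀ / 2| ∨
        (i : ℝ) / 4 < |(ck ρ s₀ (3 ^ i * (y : ℤ) + ρ * β) : ℝ) - s₀ / 2|) ∨
      (((M : ℝ) - i) / 4 < |(ck ρ s₀ (3 ^ i * (y : ℤ) + ρ * β) : ℝ) - s₀ / 2| ∨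
        ((M : ℝ) - i) / 4 < |(ck ρ s₀ (3 ^ M * (y : ℤ) + 0) : ℝ) - s₀ / 2|))) →
      (F.card : ℝ) ≤ 2 ^ (s₀ + l) * (32 * s₀ * (1 / (i : ℝ) ^ 2 + 1 / ((M : ℝ) - i) ^ 2)) := by
    intro F hF
    rw [hF]
    refine (card_or85 _ _ _).trans ?_
    refine le_trans (add_le_add ((card_or85 _ _ _).trans (add_le_add ((card_le85 _ fun _ _ h => h).trans h1)
      ((card_le85 _ fun _ _ h => h).trans h2))) ((card_or85 _ _ _).trans (add_le_add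
      ((card_le85 _ fun _ _ h => h).trans h3) ((card_le85 _ fun _ _ h => h).trans h4)))) ?_
    apply le_of_eq
    ring
  exact (card_le85 _ hev).trans (h5 _ rfl)

theorem crossing {ρ : ℤ} (hρ : Odd ρ) : ∃ C κ q : ℝ, 0 < C ∧ 0 < κ ∧ κ ≤ 1 ∧ 0 < q ∧ q < 1 ∧
    ∀ s₀ b₁ s' i M : ℕ, 1 ≤ s₀ → s₀ ≤ b₁ → 1 ≤ s' → 0 < i → i < M → ∀ (β : ℤ) (H₁ Λ : ℝ), 1 ≤ H₁ → 1 ≤ Λ →
      |(β : ℝ)| ≤ 3 ^ i * H₁ →
      (((range (2 ^ (b₁ + s'))).filter (fun y : ℕ => MM ρ b₁ M y (3 ^ M * y) ∧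
        ¬ MM ρ (b₁ + s') i y (3 ^ i * y + ρ * β))).card : ℝ) ≤
      2 ^ (b₁ + s') * (C * s₀ * (1 / (i : ℝ) ^ 2 + 1 / ((M : ℝ) - i) ^ 2) +
        C * (b₁ * Λ ^ (-κ) + q ^ s₀ * (3 ^ M * H₁) ^ κ) +
        C * Real.sqrt (1 + Real.log (1 + Λ)) * (s' : ℝ) ^ (-(1 / 4 : ℝ))) := by
  obtain ⟨κ, hk0, hk1, hk⟩ := Pool.Agent.Helper52.Tao.exists_kappa (d := 2) (m := 3) le_rfl (by norm_num) (by norm_num)
    (by norm_num)
  obtain ⟨C₁, hC₁, hu⟩ := uu_rate (c := 1 / 4) (by norm_num)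
  have h3k : (0 : ℝ) < 3 ^ κ := by positivity
  have h2k : (0 : ℝ) < 2 ^ κ := by positivity
  obtain ⟨q, hq⟩ : ∃ q : ℝ, q = (1 + (3 : ℝ) ^ κ) / (2 * (2 : ℝ) ^ κ) := ⟨_, rfl⟩
  have hq0 : 0 < q := by rw [hq]; positivity
  have hq1 : q < 1 := by
    rw [hq, div_lt_one (by positivity)]
    push_cast at hk
    linarith
  have h1q : 0 < 1 - q := by linarith
  obtain ⟨C₀, hC₀⟩ : ∃ C₀ : ℝ, C₀ = 1 / (1 - q) := ⟨_, rfl⟩
  have hC₀0 : 0 < C₀ := by rw [hC₀]; positivity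
  have hC₀1 : C₀ * ((1 + (3 : ℝ) ^ κ) / (2 * (2 : ℝ) ^ κ)) + 1 ≤ C₀ := by
    rw [← hq, hC₀]
    apply le_of_eq
    field_simp
    ring
  have hC : 0 < 32 + 3 * C₀ * 3 ^ κ + 3 ^ κ * C₀ + C₁ := by positivity
  refine ⟨32 + 3 * C₀ * 3 ^ κ + 3 ^ κ * C₀ + C₁, κ, q, hC, hk0, hk1, hq0, hq1, ?_⟩
  intro s₀ b₁ s' i M hs₀ hsb hs' hi hM β H₁ Λ hH hΛ hβ
  have hΛ0 : 0 < Λ := by linarith
  have hs₀' : s₀ ≤ b₁ + s' := by omega
  have hi0 : (0 : ℝ) < i := by exact_mod_cast hi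
  have hMi : (0 : ℝ) < (M : ℝ) - i := by
    have : (i : ℝ) < M := by exact_mod_cast hM
    linarith
  -- the three parts
  have hsub : (range (2 ^ (b₁ + s'))).filter (fun y : ℕ => MM ρ b₁ M y (3 ^ M * y) ∧
        ¬ MM ρ (b₁ + s') i y (3 ^ i * y + ρ * β)) ⊆
      (range (2 ^ (b₁ + s'))).filter (fun y : ℕ => ¬ (ck ρ s₀ (3 ^ 0 * y) < ck ρ s₀ (3 ^ i * y + ρ * β) + i ∧
        ck ρ s₀ (3 ^ i * y + ρ * β) + i < ck ρ s₀ (3 ^ M * y) + M)) ∪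
      ((Icc s₀ b₁).biUnion (fun s => (range (2 ^ (b₁ + s'))).filter (fun y : ℕ => LG ρ i M β (Λ / 3) s y)) ∪
      (Icc s₀ b₁).biUnion (fun s => (range (2 ^ (b₁ + s'))).filter (fun y : ℕ =>
        (FF ρ i M β s₀ s y ∧ ¬ LG ρ i M β (Λ / 3) s y) ∧
        ∀ e : ℕ, e = 0 ∨ e = M → DD ρ i β e s y →
          ¬ MM ρ (b₁ + s' - s) 0 (tk ρ s (3 ^ e * y)) (tk ρ s (3 ^ i * y + ρ * β))))) := by
    intro y hy
    rw [mem_filter] at hy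
    obtain ⟨hy1, hy2, hy3⟩ := hy
    rw [mem_union, mem_union, mem_filter, mem_biUnion, mem_biUnion]
    by_cases hA : ck ρ s₀ (3 ^ 0 * (y : ℤ)) < ck ρ s₀ (3 ^ i * y + ρ * β) + i ∧
        ck ρ s₀ (3 ^ i * (y : ℤ) + ρ * β) + i < ck ρ s₀ (3 ^ M * y) + M
    · right
      have h3 : ck ρ b₁ (3 ^ 0 * (y : ℤ)) = ck ρ b₁ (3 ^ M * y) + M := by
        rw [pow_zero, one_mul]
        exact ((MM_iff85 _ _ _ _).1 hy2).2
      obtain ⟨s, hs1, hs2, hF⟩ := cross85 hsb hA.1 hA.2 h3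
      by_cases hLG : LG ρ i M β (Λ / 3) s y
      · left
        exact ⟨s, mem_Icc.2 ⟨hs1, hs2⟩, mem_filter.2 ⟨hy1, hLG⟩⟩
      · right
        refine ⟨s, mem_Icc.2 ⟨hs1, hs2⟩, mem_filter.2 ⟨hy1, ⟨hF, hLG⟩, fun e he hD => ?_⟩⟩
        have hN : s + (b₁ + s' - s) = b₁ + s' := by omega
        exact bad85 (l := b₁ + s' - s) (by omega) hy2 (by rw [hN]; exact hy3) he hD
    · left
      exact ⟨hy1, hA⟩
  have h1 := alpha85 hρ hs₀' hi hM β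
  have h2 : ∑ s ∈ Icc s₀ b₁, (((range (2 ^ (b₁ + s'))).filter (fun y : ℕ => LG ρ i M β (Λ / 3) s y)).card : ℝ) ≤
      2 ^ (b₁ + s') * (3 ^ κ * C₀ * (q ^ s₀ * (3 ^ M * H₁) ^ κ) + 3 * C₀ * 3 ^ κ * (b₁ * Λ ^ (-κ))) := by
    have h3 : ∀ s ∈ Icc s₀ b₁, (((range (2 ^ (b₁ + s'))).filter (fun y : ℕ => LG ρ i M β (Λ / 3) s y)).card : ℝ) ≤
        2 ^ (b₁ + s') * (q ^ s * (3 ^ κ * (3 ^ M * H₁) ^ κ) + 3 * C₀ * 3 ^ κ * Λ ^ (-κ)) := by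
      intro s hs
      rw [mem_Icc] at hs
      have h4 := gamma85 hρ hk0 hk1 hC₀0 hC₀1 (s := s) (N := b₁ + s') (by omega) i M β (L := Λ / 3) (by positivity)
      rw [← hq] at h4
      refine h4.trans (mul_le_mul_of_nonneg_left ?_ (by positivity))
      have h5 : (|(β : ℝ)| / (Λ / 3)) ^ κ ≤ 3 ^ κ * (3 ^ M * H₁) ^ κ := by
        rw [← Real.mul_rpow (by norm_num) (by positivity)]
        refine Real.rpow_le_rpow (by positivity) ?_ hk0.le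
        rw [div_le_iff₀ (by positivity)]
        have h6 : |(β : ℝ)| ≤ 3 ^ M * H₁ :=
          hβ.trans (mul_le_mul_of_nonneg_right (pow_le_pow_right₀ (by norm_num) hM.le) (by linarith))
        have h7 : 3 ^ M * H₁ * 1 ≤ 3 ^ M * H₁ * Λ := mul_le_mul_of_nonneg_left hΛ (by positivity)
        calc |(β : ℝ)| ≤ 3 ^ M * H₁ * Λ := by linarith
          _ = 3 * (3 ^ M * H₁) * (Λ / 3) := by ring
      have h6 : (Λ / 3) ^ (-κ) = 3 ^ κ * Λ ^ (-κ) := by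
        rw [Real.div_rpow (by positivity) (by norm_num), Real.rpow_neg (by norm_num : (0 : ℝ) ≤ 3), div_inv_eq_mul,
          mul_comm]
      rw [h6]
      have h7 : q ^ s * (|(β : ℝ)| / (Λ / 3)) ^ κ ≤ q ^ s * (3 ^ κ * (3 ^ M * H₁) ^ κ) :=
        mul_le_mul_of_nonneg_left h5 (by positivity)
      linarith
    refine (sum_le_sum h3).trans ?_
    rw [← mul_sum, sum_add_distrib, ← sum_mul, sum_const, Nat.card_Icc, nsmul_eq_mul]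
    refine mul_le_mul_of_nonneg_left (add_le_add ?_ ?_) (by positivity)
    · have h4 : ∑ s ∈ Icc s₀ b₁, q ^ s ≤ q ^ s₀ * C₀ := by
        have h5 : ∑ s ∈ Icc s₀ b₁, q ^ s ≤ ∑ k ∈ range (b₁ + 1), q ^ s₀ * q ^ k := by
          rw [← Finset.Ico_succ_right_eq_Icc, Order.succ_eq_add_one, sum_Ico_eq_sum_range]
          refine le_trans (le_of_eq (sum_congr rfl fun k _ => by rw [pow_add])) ?_
          exact sum_le_sum_of_subset_of_nonneg (range_mono (by omega)) (fun _ _ _ => by positivity)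
        refine h5.trans ?_
        rw [← mul_sum, hC₀]
        refine mul_le_mul_of_nonneg_left ?_ (by positivity)
        have h6 := (summable_geometric_of_lt_one hq0.le hq1).sum_le_tsum (range (b₁ + 1)) (fun _ _ => by positivity)
        rw [tsum_geometric_of_lt_one hq0.le hq1] at h6
        rw [one_div]
        exact h6
      calc (∑ s ∈ Icc s₀ b₁, q ^ s) * (3 ^ κ * (3 ^ M * H₁) ^ κ) ≤ (q ^ s₀ * C₀) * (3 ^ κ * (3 ^ M * H₁) ^ κ) :=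
            mul_le_mul_of_nonneg_right h4 (by positivity)
        _ = _ := by ring
    · have h4 : ((b₁ + 1 - s₀ : ℕ) : ℝ) ≤ b₁ := by exact_mod_cast (by omega : b₁ + 1 - s₀ ≤ b₁)
      calc ((b₁ + 1 - s₀ : ℕ) : ℝ) * (3 * C₀ * 3 ^ κ * Λ ^ (-κ)) ≤ b₁ * (3 * C₀ * 3 ^ κ * Λ ^ (-κ)) :=
            mul_le_mul_of_nonneg_right h4 (by positivity)
        _ = _ := by ring
  have h3 : ∑ s ∈ Icc s₀ b₁, (((range (2 ^ (b₁ + s'))).filter (fun y : ℕ =>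
        (FF ρ i M β s₀ s y ∧ ¬ LG ρ i M β (Λ / 3) s y) ∧
        ∀ e : ℕ, e = 0 ∨ e = M → DD ρ i β e s y →
          ¬ MM ρ (b₁ + s' - s) 0 (tk ρ s (3 ^ e * y)) (tk ρ s (3 ^ i * y + ρ * β)))).card : ℝ) ≤
      2 ^ (b₁ + s') * (C₁ * Real.sqrt (1 + Real.log (1 + Λ)) * (s' : ℝ) ^ (-(1 / 4 : ℝ))) := by
    refine (sum_le_sum fun s hs => delta85 hρ hC₁ hu (mem_Icc.1 hs).2 hs' β).trans ?_
    rw [← mul_sum, show 3 * (Λ / 3) = Λ by ring, mul_comm]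
    exact mul_le_mul_of_nonneg_right (sum_FF85 i M β s₀ b₁ (b₁ + s')) (by positivity)
  have h4 : (((range (2 ^ (b₁ + s'))).filter (fun y : ℕ => MM ρ b₁ M y (3 ^ M * y) ∧
        ¬ MM ρ (b₁ + s') i y (3 ^ i * y + ρ * β))).card : ℝ) ≤
      2 ^ (b₁ + s') * (32 * s₀ * (1 / (i : ℝ) ^ 2 + 1 / ((M : ℝ) - i) ^ 2)) +
      (2 ^ (b₁ + s') * (3 ^ κ * C₀ * (q ^ s₀ * (3 ^ M * H₁) ^ κ) + 3 * C₀ * 3 ^ κ * (b₁ * Λ ^ (-κ))) +
      2 ^ (b₁ + s') * (C₁ * Real.sqrt (1 + Real.log (1 + Λ)) * (s' : ℝ) ^ (-(1 / 4 : ℝ)))) := by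
    refine (Nat.cast_le.2 ((card_le_card hsub).trans ((card_union_le _ _).trans
      (Nat.add_le_add_left ((card_union_le _ _).trans (add_le_add card_biUnion_le card_biUnion_le)) _)))).trans ?_
    push_cast
    exact add_le_add h1 (add_le_add h2 h3)
  refine h4.trans ?_
  rw [← mul_add, ← mul_add]
  refine mul_le_mul_of_nonneg_left ?_ (by positivity)
  have a1 : 0 ≤ (s₀ : ℝ) * (1 / (i : ℝ) ^ 2 + 1 / ((M : ℝ) - i) ^ 2) := by positivity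
  have a2 : 0 ≤ q ^ s₀ * (3 ^ M * H₁) ^ κ := by positivity
  have a3 : 0 ≤ b₁ * Λ ^ (-κ) := by positivity
  have a4 : 0 ≤ Real.sqrt (1 + Real.log (1 + Λ)) * (s' : ℝ) ^ (-(1 / 4 : ℝ)) := by positivity
  have b1 : 0 < 3 * C₀ * 3 ^ κ := by positivity
  have b2 : 0 < 3 ^ κ * C₀ := by positivity
  obtain ⟨A₁, hA₁⟩ : ∃ A₁, A₁ = (s₀ : ℝ) * (1 / (i : ℝ) ^ 2 + 1 / ((M : ℝ) - i) ^ 2) := ⟨_, rfl⟩
  obtain ⟨A₂, hA₂⟩ : ∃ A₂, A₂ = q ^ s₀ * (3 ^ M * H₁) ^ κ := ⟨_, rfl⟩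
  obtain ⟨A₃, hA₃⟩ : ∃ A₃, A₃ = b₁ * Λ ^ (-κ) := ⟨_, rfl⟩
  obtain ⟨A₄, hA₄⟩ : ∃ A₄, A₄ = Real.sqrt (1 + Real.log (1 + Λ)) * (s' : ℝ) ^ (-(1 / 4 : ℝ)) := ⟨_, rfl⟩
  rw [mul_assoc 32, mul_assoc C₁, mul_assoc (32 + 3 * C₀ * 3 ^ κ + 3 ^ κ * C₀ + C₁) (s₀ : ℝ),
    mul_assoc (32 + 3 * C₀ * 3 ^ κ + 3 ^ κ * C₀ + C₁) (Real.sqrt _), ← hA₁, ← hA₂, ← hA₃, ← hA₄]
  rw [← hA₁] at a1
  rw [← hA₂] at a2
  rw [← hA₃] at a3
  rw [← hA₄] at a4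
  obtain ⟨c₁, hc₁⟩ : ∃ c₁, c₁ = 3 * C₀ * 3 ^ κ := ⟨_, rfl⟩
  obtain ⟨c₂, hc₂⟩ : ∃ c₂, c₂ = 3 ^ κ * C₀ := ⟨_, rfl⟩
  rw [← hc₁] at b1 ⊢
  rw [← hc₂] at b2 ⊢
  have d1 : 0 ≤ (c₁ + c₂ + C₁) * A₁ := by positivity
  have d2 : 0 ≤ (32 + c₁ + C₁) * A₂ := by positivity
  have d3 : 0 ≤ (32 + c₂ + C₁) * A₃ := by positivity
  have d4 : 0 ≤ (32 + c₁ + c₂) * A₄ := by positivity
  nlinarith

end Pool.Agent.Helper8.SI
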