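import Pool.Agent.Helper8.PW.LDef
import Pool.Agent.Helper8.CO.Def
import Pool.Agent.Helper52.Tao.FL

/-!
# Short intervals: definitions

`ρ` odd, `T n = n / 2` (`n` even), `T n = (3 n - ρ) / 2` (`n` odd). Aim: for `ρ = ± 1`, `0 < θ < 1`, `ε > 0` there are a positive proportion
of `n` such that after one and the same number `s ≤ 9 log n` of steps the orbits of all but `ε n ^ θ` of the integers of `[n, n + n ^ θ]` are at
one point, which belongs to a given invariant set of positive density.

* F `flowI` (general `d`, `m`): the flow in short intervals `[a, a + H)`, `H ≥ C (d m) ^ (8 t)`, for all sets.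
* I `iter`: `p` steps of the flow, without a condition on the length.
* P `merge_pos`: a pair at the level `c ≤ Q √k` merges in `k` steps with probability `≥ c₁(Q) > 0`.
* X `crossing`: if the pair `(y, 3 ^ M y)` has merged then an intermediate particle `3 ^ i y + ρ β` has merged as well, up to a small probability.
* S `goodset`: a positive proportion of the classes modulo `2 ^ b` for `y` merges most of the particles of the levels `m₀ ≤ i ≤ 3 m₀`.
* M `main`.
-/

set_option autoImplicit false

namespace Pool.Agent.Helper8.SI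

open Pool.Agent.Helper68.Moeller Pool.Agent.Helper52.Tao Finset

/-- The number of elements of `G` in `[a, a + H)`, divided by `H`. -/
noncomputable def fi (G : Set ℤ) (a H : ℝ) : ℝ :=
  ({n : ℤ | a ≤ n ∧ (n : ℝ) < a + H ∧ n ∈ G}.ncard : ℝ) / H

/-- (F) The flow in short intervals. -/
def FlowI (d m : ℕ) (r : ℤ → ℤ) : Prop :=
  ∀ A : ℝ, ∃ C : ℝ, 0 < C ∧ ∀ t : ℕ, 1 ≤ t → ∀ a H : ℝ, C * ((d : ℝ) * m) ^ (8 * t) ≤ H → ∀ G : Set ℤ,
    fi {n | (T d m r)^[t + t] n ∈ G} a H ≤
      (∑ v ∈ W d t, fi {n | (T d m r)^[t] n ∈ G} (a * (m : ℝ) ^ sg v / (d : ℝ) ^ t) (H * (m : ℝ) ^ sg v / (d : ℝ) ^ t)) /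
        (d : ℝ) ^ t + C * (t : ℝ) ^ (-A)

end Pool.Agent.Helper8.SI
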