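import Pool.Agent.Helper8.SI.Def
import Pool.Agent.Helper8.CO.ParB

/-!
# Block P: a pair at the level `c ≤ Q √k` merges in `k` steps with positive probability

Chain of `CO/Def` (state `(c, β)`, mean after one step `av`). `hh L k s`: probability to visit a level `≤ L` within `k` steps
(`hh L 0 s = [s.1 ≤ L]`, `hh L (k+1) s = if s.1 ≤ L then 1 else av (hh L k) s`).

1. Exit from `(L, M)`, `L < c < M`: `V s = wt s + f s.1` inside, `0` at the exit levels, with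
   `f c = 5 (c - L) (M - c) + B - (p (c+1) + p (c-1)) / 2`, `p c = ∑_{j < c} 2 (v_2 (j !) - j)` (so `p (c+1) - 2 p c + p (c-1) = 2 (v_2 c - 1)`, and
   `0 ≤ j - v_2 (j !) ≤ log_2 j + 1`: `sub_one_mul_padicValNat_factorial`), up to the constant `B` (a bound for `-p`, `B ≤ 2 M (log_2 M + 2)`; or add a
   linear function). At `β` even, `1 ≤ c`: `av wt ≤ wt - 1` (the level does not change). At `β` odd: `wt = 0`,
   `av wt ≤ (vv (c+1) + vv (c-1) + 2) / 2` (`wt_le_vv`), `vv c = 1` (`c` odd), `vv c = 2 + v_2 c` (`c` even). So `av V ≤ V - 1` inside, hence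
   (`ne k s`: not left in `k` steps) `k * ne k s ≤ V s`.
2. The level is a martingale at `c ≥ 1`: `hh L k s ≥ (M - c) / (M - L) - ne k s` for `L ≤ c ≤ M`. With `M - c = c - L ≤ Δ`, `k ≥ 24 Δ ^ 2`,
   and `B + wt ≤ Δ ^ 2`: `hh ≥ 1 / 4`, uniformly in `β`.
3. `hh L' (k + k') s ≥ (inf over the states at the level L of hh L' k') * hh L k s`. `c ≤ Q √k`, `Δ = ⌊δ √k⌋`, `δ = 1 / (100 (Q + 1))`: at most
   `Q / δ + 1` stages, total time `≤ k / 2`: `hh 0 (k / 2) (c, β) ≥ c₂ (Q) > 0`.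
4. `uu (k₁ + k₂) s ≤ 1 - (1 - η) hh 0 k₁ s + (1 / Λ') ∑_{j ≤ k₁} E_s qq_j`, if `uu k₂ (0, β) ≤ η` for `√|β| ≤ Λ'`; `E qq_j ≤ C` if `qq s = 0`
   (contraction of `qq` in the mean, see `Ly.lean` / `Zz.lean` / `Ph.lean`); `Λ' = k ^ 2`; `η → 0` by `uu_rate`.
-/

set_option autoImplicit false

namespace Pool.Agent.Helper8.SI

open Pool.Agent.Helper68.Moeller Pool.Agent.Helper8.CO Finset

/-! ### The digit sums -/

/-- `j - v_2 (j !)`, the sum of the binary digits of `j`. -/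
private noncomputable def Sd (j : ℕ) : ℝ := (j : ℝ) - padicValNat 2 (Nat.factorial j)

private noncomputable def Ad (n : ℕ) : ℝ := ∑ j ∈ range n, Sd j

/-- The correction of the potential. -/
private noncomputable def gd (c : ℕ) : ℝ := Ad (c + 1) + Ad (c - 1)

private theorem Sd_eq (j : ℕ) : Sd j = ((Nat.digits 2 j).sum : ℝ) := by
  have h1 := sub_one_mul_padicValNat_factorial (p := 2) j
  have h2 := Nat.digit_sum_le 2 j
  have h3 : padicValNat 2 (Nat.factorial j) + (Nat.digits 2 j).sum = j := by omega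
  have h4 : ((padicValNat 2 (Nat.factorial j) + (Nat.digits 2 j).sum : ℕ) : ℝ) = (j : ℝ) := by rw [h3]
  push_cast at h4
  unfold Sd
  push_cast
  linarith

private theorem Sd_nonneg (j : ℕ) : 0 ≤ Sd j := by
  rw [Sd_eq]
  positivity

private theorem sq_le_two_pow (m : ℕ) : m ^ 2 ≤ 4 * 2 ^ m := by
  induction m with
  | zero => norm_num
  | succ m ih =>
    have h1 : m < 2 ^ m := Nat.lt_two_pow_self
    have h2 : 2 ^ (m + 1) = 2 * 2 ^ m := by ring
    rw [h2]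
    nlinarith

private theorem Sd_le {j : ℕ} (hj : 1 ≤ j) : Sd j ≤ 3 * Real.sqrt j := by
  rw [Sd_eq]
  have h1 : (Nat.digits 2 j).sum ≤ (Nat.digits 2 j).length := by
    have := List.sum_le_card_nsmul (Nat.digits 2 j) 1 (fun x hx => by
      have := Nat.digits_lt_base (by norm_num : 1 < 2) hx
      omega)
    simpa using this
  rw [Nat.length_digits 2 j (by norm_num) (by omega)] at h1
  have h2 : 2 ^ Nat.log 2 j ≤ j := Nat.pow_log_le_self 2 (by omega)
  have h3 : (Nat.log 2 j) ^ 2 ≤ 4 * j := (sq_le_two_pow _).trans (by omega)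
  have h4 : (Nat.log 2 j : ℝ) ≤ 2 * Real.sqrt j := by
    have h5 : ((Nat.log 2 j : ℝ)) ^ 2 ≤ 4 * j := by exact_mod_cast h3
    have h6 : Real.sqrt ((Nat.log 2 j : ℝ) ^ 2) ≤ Real.sqrt (4 * j) := Real.sqrt_le_sqrt h5
    rw [Real.sqrt_sq (by positivity), Real.sqrt_mul (by norm_num)] at h6
    have h7 : Real.sqrt 4 = 2 := by
      rw [show (4 : ℝ) = 2 ^ 2 by norm_num, Real.sqrt_sq (by norm_num)]
    rwa [h7] at h6
  have h5 : (1 : ℝ) ≤ Real.sqrt j := Real.one_le_sqrt.2 (by exact_mod_cast hj)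
  have h6 : ((Nat.digits 2 j).sum : ℝ) ≤ (Nat.log 2 j : ℝ) + 1 := by exact_mod_cast h1
  linarith

private theorem Sd_zero : Sd 0 = 0 := by
  unfold Sd
  simp

private theorem Ad_nonneg (n : ℕ) : 0 ≤ Ad n := Finset.sum_nonneg fun j _ => Sd_nonneg j

private theorem Ad_succ (n : ℕ) : Ad (n + 1) = Ad n + Sd n := by
  unfold Ad
  rw [sum_range_succ]

private theorem Ad_le (n : ℕ) : Ad n ≤ 3 * n * Real.sqrt n := by
  unfold Ad
  have h1 : ∀ j ∈ range n, Sd j ≤ 3 * Real.sqrt n := by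
    intro j hj
    rw [mem_range] at hj
    rcases Nat.eq_zero_or_pos j with h0 | h0
    · rw [h0, Sd_zero]
      positivity
    · refine (Sd_le h0).trans ?_
      have : Real.sqrt j ≤ Real.sqrt n := Real.sqrt_le_sqrt (by exact_mod_cast hj.le)
      linarith
  refine (sum_le_sum h1).trans (le_of_eq ?_)
  rw [sum_const, card_range, nsmul_eq_mul]
  ring

private theorem gd_nonneg (c : ℕ) : 0 ≤ gd c := add_nonneg (Ad_nonneg _) (Ad_nonneg _)

private theorem gd_le (c : ℕ) : gd c ≤ 6 * ((c : ℝ) + 1) * Real.sqrt (c + 1) := by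
  unfold gd
  have h1 := Ad_le (c + 1)
  have h2 : Ad (c - 1) ≤ Ad (c + 1) := by
    unfold Ad
    exact sum_le_sum_of_subset_of_nonneg (range_subset_range.2 (by omega)) fun j _ _ => Sd_nonneg j
  push_cast at h1
  linarith

private theorem Sd_diff (n : ℕ) : Sd (n + 1) - Sd n = 1 - padicValNat 2 (n + 1) := by
  unfold Sd
  have h1 : padicValNat 2 (Nat.factorial (n + 1)) = padicValNat 2 (n + 1) + padicValNat 2 (Nat.factorial n) := by
    rw [Nat.factorial_succ, padicValNat.mul (by omega) (Nat.factorial_ne_zero n)]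
  rw [h1]
  push_cast
  ring

private theorem vv_le68 {c : ℕ} (hc : 1 ≤ c) : vv c ≤ padicValNat 2 c + 2 := by
  rcases Nat.even_or_odd c with he | ho
  · have h1 := padicValNat.pow_two_sub_pow (x := 3) (y := 1) (by norm_num) (by norm_num)
      (by norm_num) (n := c) (by omega) he
    have h2 : padicValNat 2 (3 + 1) = 2 := by
      have : (3 + 1 : ℕ) = 2 ^ 2 := by norm_num
      rw [this, padicValNat.prime_pow]
    have h3 : padicValNat 2 (3 - 1) = 1 := by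
      have : (3 - 1 : ℕ) = 2 := by norm_num
      rw [this]
      exact padicValNat.self (by norm_num)
    rw [one_pow, h2, h3] at h1
    unfold vv
    omega
  · have h1 : vv c ≤ 1 := by
      by_contra hcon
      have h2 : 2 ^ vv c ∣ 3 ^ c - 1 := pow_padicValNat_dvd
      have h3 : 2 ^ 2 ∣ 3 ^ c - 1 := dvd_trans (pow_dvd_pow 2 (by omega)) h2
      obtain ⟨k, hk⟩ := ho
      have h4 : 3 ^ c % 4 = 3 := by
        rw [hk, pow_succ, pow_mul, Nat.mul_mod, Nat.pow_mod]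
        norm_num
      have h5 : (2 : ℕ) ^ 2 = 4 := by norm_num
      rw [h5] at h3
      clear hk h2 hcon
      generalize 3 ^ c = X at h3 h4
      omega
    omega

private theorem gd_drift {c : ℕ} (hc : 1 ≤ c) :
    (vv (c + 1) : ℝ) + vv (c - 1) + gd (c + 1) + gd (c - 1) ≤ 2 * gd c + 6 := by
  obtain ⟨e, rfl⟩ : ∃ e, c = e + 1 := ⟨c - 1, by omega⟩
  have hv1 : (vv (e + 1 + 1) : ℝ) ≤ padicValNat 2 (e + 1 + 1) + 2 := by exact_mod_cast vv_le68 (c := e + 1 + 1) (by omega)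
  rcases Nat.eq_zero_or_pos e with h0 | h0
  · subst h0
    have h1 : vv 0 = 0 := by
      unfold vv
      simp
    have h2 : (vv 2 : ℝ) ≤ 3 := by
      have h3 := vv_le68 (c := 2) (by norm_num)
      have h4 : padicValNat 2 2 = 1 := padicValNat.self (by norm_num)
      rw [h4] at h3
      exact_mod_cast h3
    have h3 : gd (0 + 1 + 1) + gd (0 + 1 - 1) = 2 * gd (0 + 1) + (Sd 2 - Sd 1) := by
      unfold gd
      norm_num
      have a1 := Ad_succ 2
      have a2 := Ad_succ 1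
      have a3 := Ad_succ 0
      have a4 := Sd_zero
      norm_num at a1 a2 a3
      linarith
    have h4 := Sd_diff 1
    have h5 : (0 : ℝ) ≤ padicValNat 2 (1 + 1) := Nat.cast_nonneg _
    norm_num [h1] at h3 h4 h5 ⊢
    linarith
  · obtain ⟨f, rfl⟩ : ∃ f, e = f + 1 := ⟨e - 1, by omega⟩
    have hv2 : (vv (f + 1) : ℝ) ≤ padicValNat 2 (f + 1) + 2 := by exact_mod_cast vv_le68 (c := f + 1) (by omega)
    have e1 : f + 1 + 1 - 1 = f + 1 := by omega
    have e2 : f + 1 - 1 = f := by omega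
    have e3 : f + 1 + 1 + 1 - 1 = f + 1 + 1 := by omega
    unfold gd
    rw [e1, e3, e2]
    have a1 := Ad_succ (f + 1 + 1 + 1)
    have a2 := Ad_succ (f + 1 + 1)
    have a3 := Ad_succ (f + 1)
    have a4 := Ad_succ f
    have b1 := Sd_diff (f + 1 + 1)
    have b2 := Sd_diff f
    linarith

/-! ### Hitting and exit probabilities -/

/-- The probability to visit a level `≤ L` within `k` steps. -/
private noncomputable def hh (L : ℕ) : ℕ → ℕ × ℤ → ℝ
  | 0 => fun s => if s.1 ≤ L then 1 else 0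
  | k + 1 => fun s => if s.1 ≤ L then 1 else av (hh L k) s

/-- The probability not to leave `(L, M)` in `k` steps. -/
private noncomputable def nex (L M : ℕ) : ℕ → ℕ × ℤ → ℝ
  | 0 => fun s => if L < s.1 ∧ s.1 < M then 1 else 0
  | k + 1 => fun s => if L < s.1 ∧ s.1 < M then av (nex L M k) s else 0

private theorem hh_of_le {L : ℕ} (k : ℕ) {s : ℕ × ℤ} (h : s.1 ≤ L) : hh L k s = 1 := by
  cases k with
  | zero => exact if_pos h
  | succ k => exact if_pos h

private theorem hh_zero {L : ℕ} {s : ℕ × ℤ} (h : L < s.1) : hh L 0 s = 0 := if_neg (by omega)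

private theorem hh_succ {L k : ℕ} {s : ℕ × ℤ} (h : L < s.1) : hh L (k + 1) s = av (hh L k) s := if_neg (by omega)

private theorem hh_nonneg (L k : ℕ) (s : ℕ × ℤ) : 0 ≤ hh L k s := by
  induction k generalizing s with
  | zero =>
    unfold hh
    split_ifs <;> norm_num
  | succ k ih =>
    unfold hh
    split_ifs
    · norm_num
    · unfold av
      linarith [ih (nx0 s), ih (nx1 s)]

private theorem hh_mono_succ (L k : ℕ) (s : ℕ × ℤ) : hh L k s ≤ hh L (k + 1) s := by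
  induction k generalizing s with
  | zero =>
    rcases Nat.lt_or_ge L s.1 with h | h
    · rw [hh_zero h]
      exact hh_nonneg _ _ _
    · rw [hh_of_le _ h, hh_of_le _ h]
  | succ k ih =>
    rcases Nat.lt_or_ge L s.1 with h | h
    · rw [hh_succ h, hh_succ h]
      exact av_mono ih s
    · rw [hh_of_le _ h, hh_of_le _ h]

private theorem hh_mono {L j k : ℕ} (h : j ≤ k) (s : ℕ × ℤ) : hh L j s ≤ hh L k s := by
  induction h with
  | refl => exact le_refl _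
  | step _ ih => exact ih.trans (hh_mono_succ _ _ s)

private theorem nex_out {L M : ℕ} (k : ℕ) {s : ℕ × ℤ} (h : ¬ (L < s.1 ∧ s.1 < M)) : nex L M k s = 0 := by
  cases k with
  | zero => exact if_neg h
  | succ k => exact if_neg h

private theorem nex_nonneg (L M k : ℕ) (s : ℕ × ℤ) : 0 ≤ nex L M k s := by
  induction k generalizing s with
  | zero =>
    unfold nex
    split_ifs <;> norm_num
  | succ k ih =>
    unfold nex
    split_ifs
    · unfold av
      linarith [ih (nx0 s), ih (nx1 s)]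
    · exact le_refl _

private theorem nex_le_one (L M k : ℕ) (s : ℕ × ℤ) : nex L M k s ≤ 1 := by
  induction k generalizing s with
  | zero =>
    unfold nex
    split_ifs <;> norm_num
  | succ k ih =>
    unfold nex
    split_ifs
    · unfold av
      linarith [ih (nx0 s), ih (nx1 s)]
    · norm_num

private theorem lev_even {s : ℕ × ℤ} (h : Even s.2) : (nx0 s).1 = s.1 ∧ (nx1 s).1 = s.1 := by
  obtain ⟨c, b⟩ := s
  rw [nx0_even h, nx1_even h]
  exact ⟨rfl, rfl⟩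

private theorem lev_odd {s : ℕ × ℤ} (h : ¬ Even s.2) (hs : 1 ≤ s.1) : (nx0 s).1 = s.1 + 1 ∧ (nx1 s).1 = s.1 - 1 := by
  obtain ⟨c, b⟩ := s
  rw [nx0_odd h, nx1_odd h (by change 1 ≤ c at hs; omega)]
  exact ⟨rfl, rfl⟩

/-- Composition of two hitting events. -/
private theorem hh_comp {L' L k' : ℕ} (hL : L' ≤ L) {p : ℝ} (h : ∀ s : ℕ × ℤ, s.1 = L → p ≤ hh L' k' s) (k : ℕ) :
    ∀ s : ℕ × ℤ, L ≤ s.1 → p * hh L k s ≤ hh L' (k + k') s := by
  induction k with
  | zero =>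
    intro s hs
    rcases Nat.lt_or_ge L s.1 with h1 | h1
    · rw [hh_zero h1, mul_zero]
      exact hh_nonneg _ _ _
    · rw [hh_of_le _ h1, mul_one, zero_add]
      exact h s (by omega)
  | succ k ih =>
    intro s hs
    rcases Nat.lt_or_ge L s.1 with h1 | h1
    · have e : k + 1 + k' = (k + k') + 1 := by ring
      rw [hh_succ h1, e, hh_succ (by omega)]
      have a0 : L ≤ (nx0 s).1 ∧ L ≤ (nx1 s).1 := by
        by_cases he : Even s.2
        · obtain ⟨b1, b2⟩ := lev_even he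
          omega
        · obtain ⟨b1, b2⟩ := lev_odd he (by omega)
          omega
      unfold av
      have c1 := ih (nx0 s) a0.1
      have c2 := ih (nx1 s) a0.2
      linarith
    · rw [hh_of_le _ h1, mul_one]
      exact (h s (by omega)).trans (hh_mono (by omega) s)

/-- The level is a martingale. -/
private theorem hh_nex {L M : ℕ} (hLM : L < M) (k : ℕ) : ∀ s : ℕ × ℤ, L ≤ s.1 →
    ((M : ℝ) - s.1) / ((M : ℝ) - L) ≤ hh L k s + nex L M k s := by
  have hML : (0 : ℝ) < (M : ℝ) - L := by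
    have : (L : ℝ) < M := by exact_mod_cast hLM
    linarith
  have hcase : ∀ (k : ℕ) (s : ℕ × ℤ), L ≤ s.1 → ¬ (L < s.1 ∧ s.1 < M) → ((M : ℝ) - s.1) / ((M : ℝ) - L) ≤ hh L k s + nex L M k s := by
    intro k s hs hn
    rw [nex_out _ hn, add_zero]
    rcases Nat.lt_or_ge L s.1 with h1 | h1
    · have h2 : M ≤ s.1 := by
        by_contra hcon
        exact hn ⟨h1, by omega⟩
      have h3 : (M : ℝ) ≤ s.1 := by exact_mod_cast h2
      have h4 : ((M : ℝ) - s.1) / ((M : ℝ) - L) ≤ 0 := div_nonpos_of_nonpos_of_nonneg (by linarith) hML.le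
      exact h4.trans (hh_nonneg _ _ _)
    · have h2 : s.1 = L := by omega
      rw [hh_of_le _ h1, h2, div_self hML.ne']
  induction k with
  | zero =>
    intro s hs
    by_cases hn : L < s.1 ∧ s.1 < M
    · have e : nex L M 0 s = 1 := if_pos hn
      rw [e, hh_zero hn.1, zero_add, div_le_one hML]
      have : (L : ℝ) ≤ s.1 := by exact_mod_cast hs
      linarith
    · exact hcase 0 s hs hn
  | succ k ih =>
    intro s hs
    by_cases hn : L < s.1 ∧ s.1 < M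
    · have e : nex L M (k + 1) s = av (nex L M k) s := if_pos hn
      rw [e, hh_succ hn.1]
      have a0 : L ≤ (nx0 s).1 ∧ L ≤ (nx1 s).1 ∧ ((nx0 s).1 : ℝ) + (nx1 s).1 = 2 * s.1 := by
        by_cases he : Even s.2
        · obtain ⟨b1, b2⟩ := lev_even he
          rw [b1, b2]
          exact ⟨hs, hs, by ring⟩
        · obtain ⟨b1, b2⟩ := lev_odd he (by omega)
          rw [b1, b2]
          refine ⟨by omega, by omega, ?_⟩
          rw [Nat.cast_sub (by omega)]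
          push_cast
          ring
      obtain ⟨a1, a2, a3⟩ := a0
      have c1 := ih (nx0 s) a1
      have c2 := ih (nx1 s) a2
      unfold av
      have e2 : ((M : ℝ) - s.1) / ((M : ℝ) - L) = (((M : ℝ) - (nx0 s).1) / ((M : ℝ) - L) + ((M : ℝ) - (nx1 s).1) / ((M : ℝ) - L)) / 2 := by
        rw [← add_div, div_div, div_eq_div_iff hML.ne' (by positivity)]
        have : (s.1 : ℝ) = (((nx0 s).1 : ℝ) + (nx1 s).1) / 2 := by linarith
        rw [this]
        ring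
      rw [e2]
      linarith
    · exact hcase _ s hs hn

/-! ### The potential -/

private noncomputable def fd (L M c : ℕ) : ℝ := 5 * ((c : ℝ) - L) * ((M : ℝ) - c) + gd c

private noncomputable def Vx (L M : ℕ) (s : ℕ × ℤ) : ℝ := if L < s.1 ∧ s.1 < M then wt s + fd L M s.1 else 0

private theorem fd_nonneg {L M c : ℕ} (h1 : L ≤ c) (h2 : c ≤ M) : 0 ≤ fd L M c := by
  have h3 : (L : ℝ) ≤ c := by exact_mod_cast h1
  have h4 : (c : ℝ) ≤ M := by exact_mod_cast h2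
  have h5 := gd_nonneg c
  unfold fd
  have : 0 ≤ ((c : ℝ) - L) * ((M : ℝ) - c) := mul_nonneg (by linarith) (by linarith)
  nlinarith

private theorem Vx_nonneg (L M : ℕ) (s : ℕ × ℤ) : 0 ≤ Vx L M s := by
  unfold Vx
  split_ifs with h
  · exact add_nonneg (wt_nonneg s) (fd_nonneg h.1.le h.2.le)
  · exact le_refl _

private theorem Vx_le {L M : ℕ} {s : ℕ × ℤ} (h1 : L ≤ s.1) (h2 : s.1 ≤ M) : Vx L M s ≤ vv s.1 + 1 + fd L M s.1 := by
  have h3 := fd_nonneg h1 h2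
  unfold Vx
  split_ifs with h
  · have := wt_le_vv (s := s) (by omega)
    linarith
  · have : (0 : ℝ) ≤ vv s.1 := Nat.cast_nonneg _
    linarith

private theorem Vx_drift {L M : ℕ} {s : ℕ × ℤ} (h : L < s.1 ∧ s.1 < M) : av (Vx L M) s ≤ Vx L M s - 1 := by
  have hV : Vx L M s = wt s + fd L M s.1 := if_pos h
  by_cases he : Even s.2
  · obtain ⟨b1, b2⟩ := lev_even he
    have e1 : Vx L M (nx0 s) = wt (nx0 s) + fd L M s.1 := by
      unfold Vx
      rw [b1, if_pos h]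
    have e2 : Vx L M (nx1 s) = wt (nx1 s) + fd L M s.1 := by
      unfold Vx
      rw [b2, if_pos h]
    have h0 : s ≠ (0, 0) := by
      rintro rfl
      exact absurd h.1 (by simp)
    have h1 := wt_step he h0
    unfold av at h1 ⊢
    rw [e1, e2, hV]
    linarith
  · obtain ⟨b1, b2⟩ := lev_odd he (by omega)
    have h1 := Vx_le (L := L) (M := M) (s := nx0 s) (by omega) (by omega)
    have h2 := Vx_le (L := L) (M := M) (s := nx1 s) (by omega) (by omega)
    rw [b1] at h1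
    rw [b2] at h2
    have h3 := gd_drift (c := s.1) (by omega)
    rw [hV, wt_odd he]
    unfold av
    unfold fd at h1 h2 ⊢
    rw [Nat.cast_sub (by omega)] at h2
    push_cast at h1 h2
    nlinarith

private theorem nex_le {L M : ℕ} (k : ℕ) : ∀ s : ℕ × ℤ, (k : ℝ) * nex L M k s ≤ Vx L M s := by
  induction k with
  | zero =>
    intro s
    push_cast
    rw [zero_mul]
    exact Vx_nonneg _ _ _
  | succ k ih =>
    intro s
    by_cases h : L < s.1 ∧ s.1 < M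
    · have e : nex L M (k + 1) s = av (nex L M k) s := if_pos h
      have h1 := Vx_drift h
      have h2 : (k : ℝ) * av (nex L M k) s ≤ av (Vx L M) s := by
        unfold av
        linarith [ih (nx0 s), ih (nx1 s)]
      have h3 : av (nex L M k) s ≤ 1 := by
        unfold av
        linarith [nex_le_one L M k (nx0 s), nex_le_one L M k (nx1 s)]
      rw [e]
      push_cast
      linarith
    · rw [nex_out _ h, mul_zero]
      exact Vx_nonneg _ _ _

/-! ### Stages -/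

private theorem stage {N Δ L : ℕ} {s : ℕ × ℤ} (hΔ : 121 * (N + 2) ^ 3 ≤ Δ) (hL1 : L < s.1) (hs : s.1 ≤ L + Δ) (hLN : L + Δ ≤ (N + 1) * Δ) :
    1 / 4 ≤ hh L (24 * Δ ^ 2) s := by
  have hΔ1 : 121 ≤ Δ := le_trans (by nlinarith [Nat.one_le_pow 3 (N + 2) (by omega)]) hΔ
  have hΔr : (121 : ℝ) ≤ Δ := by exact_mod_cast hΔ1
  have hΔ0 : (0 : ℝ) < Δ := by linarith
  obtain ⟨M, hM⟩ : ∃ M, M = L + 2 * Δ := ⟨_, rfl⟩
  have hMr : (M : ℝ) = L + 2 * Δ := by
    rw [hM]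
    push_cast
    ring
  have hLM : L < M := by omega
  have hin : L < s.1 ∧ s.1 < M := ⟨hL1, by omega⟩
  have h1 := hh_nex hLM (24 * Δ ^ 2) s hL1.le
  have h2 := nex_le (L := L) (M := M) (24 * Δ ^ 2) s
  have hsr : (s.1 : ℝ) ≤ L + Δ := by exact_mod_cast hs
  have hLr : (L : ℝ) ≤ s.1 := by exact_mod_cast hL1.le
  have h3 : 1 / 2 ≤ ((M : ℝ) - s.1) / ((M : ℝ) - L) := by
    rw [le_div_iff₀ (by rw [hMr]; linarith), hMr]
    linarith
  -- the potential
  obtain ⟨X, hX⟩ : ∃ X : ℝ, X = ((N : ℝ) + 2) * Δ := ⟨_, rfl⟩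
  have hcX : (s.1 : ℝ) + 1 ≤ X := by
    have h4 : s.1 ≤ (N + 1) * Δ := hs.trans hLN
    have h5 : (s.1 : ℝ) ≤ ((N : ℝ) + 1) * Δ := by exact_mod_cast h4
    rw [hX]
    linarith
  have hX1 : 1 ≤ X := by
    have : (0 : ℝ) ≤ s.1 := Nat.cast_nonneg _
    linarith
  have hsq : Real.sqrt X ≤ Δ / (11 * ((N : ℝ) + 2)) := by
    rw [Real.sqrt_le_left (by positivity), hX, div_pow, le_div_iff₀ (by positivity)]
    have h4 : (121 : ℝ) * ((N : ℝ) + 2) ^ 3 ≤ Δ := by exact_mod_cast hΔ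
    have h5 := mul_le_mul_of_nonneg_right h4 hΔ0.le
    nlinarith
  have hXX : 11 * (X * Real.sqrt X) ≤ (Δ : ℝ) ^ 2 := by
    have h4 := mul_le_mul_of_nonneg_left hsq (by linarith : 0 ≤ X)
    have h5 : X * (Δ / (11 * ((N : ℝ) + 2))) = (Δ : ℝ) ^ 2 / 11 := by
      rw [hX]
      field_simp
    rw [h5] at h4
    linarith
  have hsX : Real.sqrt ((s.1 : ℝ) + 1) ≤ Real.sqrt X := Real.sqrt_le_sqrt hcX
  have hg : gd s.1 ≤ 6 * (X * Real.sqrt X) := by
    refine (gd_le s.1).trans ?_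
    have := mul_le_mul hcX hsX (Real.sqrt_nonneg _) (by linarith)
    linarith
  have hw : wt s ≤ 5 * (X * Real.sqrt X) := by
    refine (wt_le_sqrt (s := s) (by omega)).trans ?_
    have h4 : Real.sqrt (s.1 : ℝ) ≤ Real.sqrt X := Real.sqrt_le_sqrt (by linarith)
    have h5 : Real.sqrt X ≤ X * Real.sqrt X := by nlinarith [Real.sqrt_nonneg X]
    linarith
  have hV : Vx L M s ≤ 6 * (Δ : ℝ) ^ 2 := by
    have e : Vx L M s = wt s + fd L M s.1 := if_pos hin
    rw [e]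
    unfold fd
    have h4 : ((s.1 : ℝ) - L) * ((M : ℝ) - s.1) ≤ (Δ : ℝ) ^ 2 := by
      rw [hMr]
      nlinarith [sq_nonneg ((s.1 : ℝ) - L - Δ)]
    linarith
  have h4 : nex L M (24 * Δ ^ 2) s ≤ 1 / 4 := by
    push_cast at h2
    have h5 : 0 < (Δ : ℝ) ^ 2 := by positivity
    by_contra hcon
    push Not at hcon
    nlinarith
  linarith

private theorem stages {N Δ : ℕ} (hΔ : 121 * (N + 2) ^ 3 ≤ Δ) (n : ℕ) : n ≤ N + 1 → ∀ s : ℕ × ℤ, s.1 ≤ n * Δ →
    (1 / 4 : ℝ) ^ n ≤ hh 0 (n * (24 * Δ ^ 2)) s := by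
  induction n with
  | zero =>
    intro _ s hs
    rw [hh_of_le _ (by omega), pow_zero]
  | succ n ih =>
    intro hn s hs
    have h1 := ih (by omega)
    rcases Nat.lt_or_ge (n * Δ) s.1 with h | h
    · have h2 : 1 / 4 ≤ hh (n * Δ) (24 * Δ ^ 2) s := by
        refine stage hΔ h ?_ ?_
        · have : (n + 1) * Δ = n * Δ + Δ := by ring
          omega
        · have e : n * Δ + Δ = (n + 1) * Δ := by ring
          rw [e]
          exact Nat.mul_le_mul_right _ hn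
      have h3 := hh_comp (L' := 0) (L := n * Δ) (k' := n * (24 * Δ ^ 2)) (Nat.zero_le _) (p := (1 / 4 : ℝ) ^ n)
        (fun s' hs' => h1 s' hs'.le) (24 * Δ ^ 2) s h.le
      have e : (n + 1) * (24 * Δ ^ 2) = 24 * Δ ^ 2 + n * (24 * Δ ^ 2) := by ring
      rw [e, pow_succ]
      refine le_trans ?_ h3
      exact mul_le_mul_of_nonneg_left h2 (by positivity)
    · have h2 := h1 s h
      have h3 : hh 0 (n * (24 * Δ ^ 2)) s ≤ hh 0 ((n + 1) * (24 * Δ ^ 2)) s := hh_mono (Nat.mul_le_mul_right _ (by omega)) s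
      have h4 : (1 / 4 : ℝ) ^ (n + 1) ≤ (1 / 4 : ℝ) ^ n := pow_le_pow_of_le_one (by norm_num) (by norm_num) (by omega)
      linarith

/-- From the level `0`. -/
private theorem fin4 (k₂ : ℕ) {η Λ : ℝ} (hΛ : 0 < Λ) (hη : 0 ≤ η) (h : ∀ b : ℤ, qq (0, b) ≤ Λ → uu k₂ (0, b) ≤ η) (j : ℕ) :
    ∀ s : ℕ × ℤ, uu (j + k₂) s ≤ 1 - hh 0 j s + η + (qq s + j) / Λ := by
  have hz : ∀ s : ℕ × ℤ, s.1 = 0 → uu k₂ s ≤ η + qq s / Λ := by
    rintro ⟨c, b⟩ hs
    change c = 0 at hs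
    subst hs
    have h1 : 0 ≤ qq (0, b) / Λ := div_nonneg (qq_nonneg _) hΛ.le
    rcases le_or_gt (qq (0, b)) Λ with h2 | h2
    · linarith [h b h2]
    · have h3 : 1 ≤ qq (0, b) / Λ := by
        rw [le_div_iff₀ hΛ]
        linarith
      linarith [uu_le_one k₂ (0, b)]
  induction j with
  | zero =>
    intro s
    rw [zero_add]
    push_cast
    rw [add_zero]
    have h0 : 0 ≤ qq s / Λ := div_nonneg (qq_nonneg _) hΛ.le
    rcases Nat.eq_zero_or_pos s.1 with h1 | h1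
    · rw [hh_of_le 0 h1.le]
      linarith [hz s h1]
    · rw [hh_zero h1]
      linarith [uu_le_one k₂ s]
  | succ j ih =>
    intro s
    have hj : (0 : ℝ) ≤ j := Nat.cast_nonneg _
    rcases Nat.eq_zero_or_pos s.1 with h1 | h1
    · rw [hh_of_le _ h1.le]
      have h2 : uu (j + 1 + k₂) s ≤ uu k₂ s := uu_anti (by omega) s
      have h3 : (0 : ℝ) ≤ ((j : ℝ) + 1) / Λ := by positivity
      push_cast
      rw [add_div]
      linarith [hz s h1]
    · have e : j + 1 + k₂ = (j + k₂) + 1 := by ring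
      rw [hh_succ h1, e, uu_succ]
      have h2 := ih (nx0 s)
      have h3 := ih (nx1 s)
      have h4 := av_qq s
      have h5 : (qq (nx0 s) + qq (nx1 s)) / 2 ≤ qq s + 1 := by
        unfold av at h4
        linarith [qq_nonneg s]
      have h6 : ((qq (nx0 s) + qq (nx1 s)) / 2) / Λ ≤ (qq s + 1) / Λ := div_le_div_of_nonneg_right h5 hΛ.le
      unfold av
      push_cast
      rw [add_div] at h2 h3
      have e1 : ((qq (nx0 s) + qq (nx1 s)) / 2) / Λ = (qq (nx0 s) / Λ + qq (nx1 s) / Λ) / 2 := by ring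
      have e2 : (qq s + ((j : ℝ) + 1)) / Λ = (qq s + 1) / Λ + j / Λ := by ring
      rw [e2]
      rw [e1] at h6
      linarith

private theorem rate_small {C p : ℝ} (hC : 0 < C) (hp : 0 < p) : ∃ k₀ : ℕ, ∀ k : ℕ, k₀ ≤ k → ∀ k₂ : ℕ, (k : ℝ) / 2 ≤ k₂ → ∀ b : ℝ, 0 ≤ b → b ≤ (k : ℝ) ^ 4 →
    C * Real.sqrt (1 + Real.log (1 + b)) * (k₂ : ℝ) ^ (-(1 / 4 : ℝ)) ≤ p := by
  have h1 : Filter.Tendsto (fun x : ℝ => x ^ (-(1 / 5 : ℝ))) Filter.atTop (nhds 0) := tendsto_rpow_neg_atTop (by norm_num)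
  have h2 : Filter.Tendsto (fun k : ℕ => ((k : ℝ)) ^ (-(1 / 5 : ℝ))) Filter.atTop (nhds 0) := h1.comp tendsto_natCast_atTop_atTop
  have h3 := (h2.eventually (gt_mem_nhds (show (0 : ℝ) < p / (16 * C) by positivity)))
  obtain ⟨k₀, hk₀⟩ := Filter.eventually_atTop.1 h3
  refine ⟨k₀ + 2, fun k hk k₂ hk₂ b hb hbk => ?_⟩
  have hk' := hk₀ k (by omega)
  have hk2 : (2 : ℝ) ≤ k := by exact_mod_cast (by omega : 2 ≤ k)
  have hk0 : (0 : ℝ) < k := by linarith
  have hk1 : (1 : ℝ) ≤ k := by linarith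
  have hl : 1 + Real.log (1 + b) ≤ 64 * (k : ℝ) ^ (1 / 10 : ℝ) := by
    have a1 : 1 + b ≤ (k : ℝ) ^ (5 : ℝ) := by
      have e : (k : ℝ) ^ (5 : ℝ) = (k : ℝ) ^ 4 * k := by
        rw [show (5 : ℝ) = ((5 : ℕ) : ℝ) by norm_num, Real.rpow_natCast]
        ring
      rw [e]
      have a2 : (1 : ℝ) ≤ (k : ℝ) ^ 4 := one_le_pow₀ hk1
      nlinarith
    have a2 : Real.log (1 + b) ≤ 5 * Real.log k := by
      have := Real.log_le_log (by linarith) a1
      rwa [Real.log_rpow hk0] at this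
    have a3 : Real.log k ≤ (k : ℝ) ^ (1 / 10 : ℝ) / (1 / 10) := Real.log_le_rpow_div hk0.le (by norm_num)
    have a4 : (1 : ℝ) ≤ (k : ℝ) ^ (1 / 10 : ℝ) := Real.one_le_rpow hk1 (by norm_num)
    linarith
  have hs : Real.sqrt (1 + Real.log (1 + b)) ≤ 8 * (k : ℝ) ^ (1 / 20 : ℝ) := by
    rw [Real.sqrt_le_left (by positivity)]
    refine hl.trans (le_of_eq ?_)
    rw [mul_pow, ← Real.rpow_natCast ((k : ℝ) ^ (1 / 20 : ℝ)), ← Real.rpow_mul hk0.le]
    norm_num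
  have hk2' : (k₂ : ℝ) ^ (-(1 / 4 : ℝ)) ≤ 2 * (k : ℝ) ^ (-(1 / 4 : ℝ)) := by
    have a1 : (k₂ : ℝ) ^ (-(1 / 4 : ℝ)) ≤ ((k : ℝ) / 2) ^ (-(1 / 4 : ℝ)) :=
      Real.rpow_le_rpow_of_nonpos (by positivity) hk₂ (by norm_num)
    have a2 : ((k : ℝ) / 2) ^ (-(1 / 4 : ℝ)) = (2 : ℝ) ^ (1 / 4 : ℝ) * (k : ℝ) ^ (-(1 / 4 : ℝ)) := by
      rw [Real.div_rpow hk0.le (by norm_num), Real.rpow_neg (by norm_num : (0 : ℝ) ≤ 2)]
      field_simp
    have a3 : (2 : ℝ) ^ (1 / 4 : ℝ) ≤ 2 := by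
      calc (2 : ℝ) ^ (1 / 4 : ℝ) ≤ (2 : ℝ) ^ (1 : ℝ) := Real.rpow_le_rpow_of_exponent_le (by norm_num) (by norm_num)
        _ = 2 := Real.rpow_one 2
    rw [a2] at a1
    exact a1.trans (mul_le_mul_of_nonneg_right a3 (by positivity))
  have he : (k : ℝ) ^ (1 / 20 : ℝ) * (k : ℝ) ^ (-(1 / 4 : ℝ)) = (k : ℝ) ^ (-(1 / 5 : ℝ)) := by
    rw [← Real.rpow_add hk0]
    norm_num
  calc C * Real.sqrt (1 + Real.log (1 + b)) * (k₂ : ℝ) ^ (-(1 / 4 : ℝ))
      ≤ C * (8 * (k : ℝ) ^ (1 / 20 : ℝ)) * (2 * (k : ℝ) ^ (-(1 / 4 : ℝ))) := by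
        refine mul_le_mul (mul_le_mul_of_nonneg_left hs hC.le) hk2' (by positivity) (by positivity)
    _ = 16 * C * ((k : ℝ) ^ (1 / 20 : ℝ) * (k : ℝ) ^ (-(1 / 4 : ℝ))) := by ring
    _ = 16 * C * (k : ℝ) ^ (-(1 / 5 : ℝ)) := by rw [he]
    _ ≤ 16 * C * (p / (16 * C)) := mul_le_mul_of_nonneg_left hk'.le (by positivity)
    _ = p := by field_simp

theorem merge_pos (Q : ℝ) : ∃ c₁ : ℝ, 0 < c₁ ∧ ∃ k₀ : ℕ, ∀ k : ℕ, k₀ ≤ k → ∀ c : ℕ, (c : ℝ) ≤ Q * Real.sqrt k →
    uu k (c, 0) ≤ 1 - c₁ := by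
  obtain ⟨C, hC, hrate⟩ := uu_rate (c := 1 / 4) (by norm_num)
  obtain ⟨Q', hQ'⟩ : ∃ Q' : ℝ, Q' = max Q 1 := ⟨_, rfl⟩
  have hQ1 : 1 ≤ Q' := by
    rw [hQ']
    exact le_max_right _ _
  have hQQ : Q ≤ Q' := by
    rw [hQ']
    exact le_max_left _ _
  obtain ⟨N, hN⟩ : ∃ N : ℕ, 200 * Q' ^ 2 ≤ N := ⟨⌈200 * Q' ^ 2⌉₊, Nat.le_ceil _⟩
  have hQ2 : 1 ≤ Q' ^ 2 := one_le_pow₀ hQ1
  have hN0 : (200 : ℝ) ≤ N := by linarith
  have hNp : (0 : ℝ) < N := by linarith
  obtain ⟨p, hp⟩ : ∃ p : ℝ, p = (1 / 4 : ℝ) ^ N := ⟨_, rfl⟩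
  have hp0 : 0 < p := by
    rw [hp]
    positivity
  obtain ⟨k₁, hk₁⟩ := rate_small hC (show 0 < p / 4 by positivity)
  obtain ⟨k₂, hk₂⟩ : ∃ k₂ : ℕ, 4 / p ≤ k₂ := ⟨⌈4 / p⌉₊, Nat.le_ceil _⟩
  refine ⟨p / 2, by positivity, k₁ + k₂ + (121 * N * (N + 2) ^ 3) ^ 2 + 200 * N + 1, fun k hk c hc => ?_⟩
  have hkk1 : k₁ ≤ k := by
    have := Nat.zero_le ((121 * N * (N + 2) ^ 3) ^ 2)
    omega
  have hkk2 : k₂ ≤ k := by
    have := Nat.zero_le ((121 * N * (N + 2) ^ 3) ^ 2)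
    omega
  have hkk3 : (121 * N * (N + 2) ^ 3) ^ 2 ≤ k := by omega
  have hkk4 : 200 * N ≤ k := by
    have := Nat.zero_le ((121 * N * (N + 2) ^ 3) ^ 2)
    omega
  have hk1 : 1 ≤ k := by omega
  have hkr : (1 : ℝ) ≤ k := by exact_mod_cast hk1
  have hk0 : (0 : ℝ) < k := by linarith
  have hsk : 0 ≤ Real.sqrt k := Real.sqrt_nonneg _
  have hsk2 : Real.sqrt k ^ 2 = k := Real.sq_sqrt hk0.le
  -- the length of the stages
  obtain ⟨Δ, hΔ⟩ : ∃ Δ : ℕ, Δ = ⌈Q' * Real.sqrt k / N⌉₊ := ⟨_, rfl⟩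
  have hΔ1 : Q' * Real.sqrt k / N ≤ Δ := by
    rw [hΔ]
    exact Nat.le_ceil _
  have hΔ2 : (Δ : ℝ) ≤ Q' * Real.sqrt k / N + 1 := by
    rw [hΔ]
    exact (Nat.ceil_lt_add_one (by positivity)).le
  have hΔ3 : 121 * (N + 2) ^ 3 ≤ Δ := by
    have h1 : ((121 * N * (N + 2) ^ 3 : ℕ) : ℝ) ≤ Real.sqrt k := by
      rw [Real.le_sqrt (by positivity) hk0.le]
      exact_mod_cast hkk3
    have h2 : (121 : ℝ) * ((N : ℝ) + 2) ^ 3 ≤ Δ := by
      refine le_trans ?_ hΔ1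
      rw [le_div_iff₀ hNp]
      push_cast at h1
      have h3 : Real.sqrt k ≤ Q' * Real.sqrt k := by nlinarith
      linarith
    exact_mod_cast h2
  obtain ⟨j, hj⟩ : ∃ j : ℕ, j = N * (24 * Δ ^ 2) := ⟨_, rfl⟩
  have hj2 : (j : ℝ) ≤ k / 2 := by
    have h1 : (Δ : ℝ) ^ 2 ≤ 2 * ((Q' * Real.sqrt k / N) ^ 2 + 1) := by
      have h2 := pow_le_pow_left₀ (Nat.cast_nonneg Δ) hΔ2 2
      nlinarith [sq_nonneg (Q' * Real.sqrt k / N - 1)]
    have h3 : (Q' * Real.sqrt k / N) ^ 2 = Q' ^ 2 * k / (N : ℝ) ^ 2 := by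
      rw [div_pow, mul_pow, hsk2]
    have h4 : (j : ℝ) = N * (24 * (Δ : ℝ) ^ 2) := by
      rw [hj]
      push_cast
      ring
    have h5 : (N : ℝ) * (24 * (Δ : ℝ) ^ 2) ≤ 48 * (Q' ^ 2 * k / N) + 48 * N := by
      rw [h3] at h1
      have h6 := mul_le_mul_of_nonneg_left h1 (by positivity : 0 ≤ 24 * (N : ℝ))
      have e : 24 * (N : ℝ) * (2 * (Q' ^ 2 * k / (N : ℝ) ^ 2 + 1)) = 48 * (Q' ^ 2 * k / N) + 48 * N := by
        field_simp
        ring
      linarith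
    have h6 : Q' ^ 2 * k / N ≤ k / 200 := by
      rw [div_le_div_iff₀ hNp (by norm_num)]
      nlinarith
    have h7 : 200 * (N : ℝ) ≤ k := by exact_mod_cast hkk4
    rw [h4]
    linarith
  have hjk : j ≤ k := by
    have : (j : ℝ) ≤ k := by linarith
    exact_mod_cast this
  obtain ⟨k', hk'⟩ : ∃ k', k = j + k' := ⟨k - j, by omega⟩
  have hk'r : (k : ℝ) / 2 ≤ k' := by
    have : (k : ℝ) = j + k' := by exact_mod_cast hk'
    linarith
  have hk'1 : 1 ≤ k' := by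
    by_contra hcon
    have : k' = 0 := by omega
    rw [this] at hk'r
    push_cast at hk'r
    linarith
  have hcN : c ≤ N * Δ := by
    have h1 : (c : ℝ) ≤ N * Δ := by
      have h2 : Q' * Real.sqrt k ≤ N * Δ := by
        rw [div_le_iff₀ hNp] at hΔ1
        linarith
      have h3 : Q * Real.sqrt k ≤ Q' * Real.sqrt k := mul_le_mul_of_nonneg_right hQQ hsk
      linarith
    exact_mod_cast h1
  have h1 := stages hΔ3 N (by omega) (c, 0) hcN
  rw [← hj, ← hp] at h1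
  have h2 := fin4 k' (η := p / 4) (Λ := (k : ℝ) ^ 2) (by positivity) (by positivity) (fun b hb => by
    have h3 := hrate b k' hk'1
    refine h3.trans (hk₁ k hkk1 k' hk'r |(b : ℝ)| (abs_nonneg _) ?_)
    have h4 : qq (0, b) ^ 2 = |(b : ℝ)| := by
      unfold qq
      rw [Real.sq_sqrt (Zs_nonneg _)]
      unfold Zs
      simp
    rw [← h4]
    have h5 := pow_le_pow_left₀ (qq_nonneg _) hb 2
    refine h5.trans (le_of_eq ?_)
    ring) j (c, 0)
  rw [← hk'] at h2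
  have h3 : qq (c, 0) = 0 := by
    unfold qq Zs
    simp
  rw [h3, zero_add] at h2
  have h4 : (j : ℝ) / (k : ℝ) ^ 2 ≤ p / 4 := by
    have h5 : 4 / p ≤ k := hk₂.trans (by exact_mod_cast hkk2)
    rw [div_le_iff₀ hp0] at h5
    rw [div_le_iff₀ (by positivity)]
    nlinarith
  linarith

end Pool.Agent.Helper8.SI
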