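import Pool.Agent.Helper8.SI.Cr
import Pool.Agent.Helper8.SI.Mp

/-!
# Block S: good classes

`b₁ = b - s'`, `s' = b / 2`, `M = 4 m₀`. By `merge_pos` (`Q` with `4 m₀ ≤ Q √b₁`, `b₁ ≥ c_b L / 2`) and `cnt_le` the set `𝒲` of the `y < 2 ^ b` with `MM ρ b₁ M y (3 ^ M y)` has
at least `c₁ 2 ^ b` elements (it is periodic modulo `2 ^ b₁`). By `crossing` (`s₀ = ⌈C_s √L⌉`, `Λ = b ^ (3 / κ)`) for every `i ∈ [m₀, 3 m₀]`, `|β| ≤ 3 ^ i H₁` at most `δ 2 ^ b` of them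
have `¬ MM ρ b i y (3 ^ i y + ρ β)`, `δ → 0`. Sum over `β` (at most `2 * 3 ^ i H₁ + 1 ≤ 3 * 3 ^ i H₁`) and over `i` with the weights `p i`, Markov: at most
`3 δ / ε 2 ^ b ≤ c₁ / 2 * 2 ^ b` elements of `𝒲` are bad.
-/

set_option autoImplicit false

namespace Pool.Agent.Helper8.SI

open Pool.Agent.Helper68.Moeller Pool.Agent.Helper8.CO Finset Classical

/-- The weighted number of the particles at the levels `m₀ ≤ i ≤ 3 m₀` which have not merged with `y` after `b` steps. -/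
noncomputable def badw (ρ : ℤ) (m₀ b : ℕ) (H₁ : ℝ) (p : ℕ → ℝ) (y : ℤ) : ℝ :=
  ∑ i ∈ Icc m₀ (3 * m₀), p i * (((Icc (-⌊3 ^ i * H₁⌋) ⌊3 ^ i * H₁⌋).filter
    (fun β : ℤ => ¬ MM ρ b i y (3 ^ i * y + ρ * β))).card : ℝ) / (3 ^ i * H₁)

/-- Counting a periodic property. -/
private theorem card_lift28 {P : ℤ → Prop} {k : ℕ} (hP : ∀ x j : ℤ, P (x + 2 ^ k * j) ↔ P x) (s : ℕ) :
    ((range (2 ^ (k + s))).filter (fun y : ℕ => P y)).card =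
      2 ^ s * ((range (2 ^ k)).filter (fun y : ℕ => P y)).card := by
  induction s with
  | zero => simp
  | succ s ih =>
    have e1 : 2 ^ (k + (s + 1)) = 2 ^ (k + s) + 2 ^ (k + s) := by ring
    rw [card_filter, e1, Finset.sum_range_add, ← card_filter, ih]
    have e2 : ∑ x ∈ range (2 ^ (k + s)), (if P (((2 ^ (k + s) + x : ℕ)) : ℤ) then 1 else 0) =
        ((range (2 ^ (k + s))).filter (fun y : ℕ => P y)).card := by
      rw [card_filter]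
      refine sum_congr rfl fun x _ => ?_
      have e3 : (((2 ^ (k + s) + x : ℕ)) : ℤ) = (x : ℤ) + 2 ^ k * 2 ^ s := by
        push_cast
        ring
      rw [e3]
      simp only [hP]
    rw [e2, ih]
    ring

/-- The last term. -/
private theorem t4_28 {C κ η : ℝ} (hC : 0 < C) (hκ : 0 < κ) (hη : 0 < η) : ∃ N : ℕ, 4 ≤ N ∧ ∀ b : ℕ, N ≤ b →
    C * Real.sqrt (1 + Real.log (1 + (b : ℝ) ^ (3 / κ))) * ((b / 2 : ℕ) : ℝ) ^ (-(1 / 4 : ℝ)) ≤ η := by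
  obtain ⟨D, hD⟩ : ∃ D : ℝ, D = 1 + 4 * (3 / κ + 1) := ⟨_, rfl⟩
  have hD0 : 0 < D := by rw [hD]; positivity
  obtain ⟨N, hN⟩ : ∃ N : ℕ, (2 * C * Real.sqrt D / η) ^ 8 ≤ N := exists_nat_ge _
  refine ⟨max N 4, le_max_right _ _, fun b hb => ?_⟩
  have hb4 : 4 ≤ b := (le_max_right _ _).trans hb
  have hbN : N ≤ b := (le_max_left _ _).trans hb
  have hbr : (4 : ℝ) ≤ b := by exact_mod_cast hb4
  have hb0 : (0 : ℝ) < b := by linarith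
  have hb1 : (1 : ℝ) ≤ b := by linarith
  have h1 : Real.log (1 + (b : ℝ) ^ (3 / κ)) ≤ (3 / κ + 1) * Real.log b := by
    rw [← Real.log_rpow hb0]
    refine Real.log_le_log (by positivity) ?_
    rw [Real.rpow_add hb0, Real.rpow_one]
    have h2 : 1 ≤ (b : ℝ) ^ (3 / κ) := Real.one_le_rpow hb1 (by positivity)
    nlinarith
  have h2 : Real.log b ≤ 4 * (b : ℝ) ^ (1 / 4 : ℝ) := by
    have := Real.log_le_rpow_div hb0.le (show (0 : ℝ) < 1 / 4 by norm_num)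
    linarith
  have h3 : 1 ≤ (b : ℝ) ^ (1 / 4 : ℝ) := Real.one_le_rpow hb1 (by norm_num)
  have h4 : 1 + Real.log (1 + (b : ℝ) ^ (3 / κ)) ≤ D * (b : ℝ) ^ (1 / 4 : ℝ) := by
    have h5 : (3 / κ + 1) * Real.log b ≤ (3 / κ + 1) * (4 * (b : ℝ) ^ (1 / 4 : ℝ)) :=
      mul_le_mul_of_nonneg_left h2 (by positivity)
    rw [hD]
    nlinarith
  have h5 : Real.sqrt (1 + Real.log (1 + (b : ℝ) ^ (3 / κ))) ≤ Real.sqrt D * (b : ℝ) ^ (1 / 8 : ℝ) := by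
    refine (Real.sqrt_le_sqrt h4).trans (le_of_eq ?_)
    rw [Real.sqrt_mul hD0.le]
    congr 1
    rw [Real.sqrt_eq_rpow, ← Real.rpow_mul hb0.le]
    norm_num
  have h6 : ((b / 2 : ℕ) : ℝ) ^ (-(1 / 4 : ℝ)) ≤ 2 * (b : ℝ) ^ (-(1 / 4 : ℝ)) := by
    have h7 : (b : ℝ) / 4 ≤ ((b / 2 : ℕ) : ℝ) := by
      have h8 : b ≤ 4 * (b / 2) := by omega
      have h9 : (b : ℝ) ≤ 4 * ((b / 2 : ℕ) : ℝ) := by exact_mod_cast h8
      linarith
    refine (Real.rpow_le_rpow_of_nonpos (by positivity) h7 (by norm_num)).trans ?_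
    rw [Real.div_rpow hb0.le (by norm_num), div_eq_mul_inv, mul_comm]
    refine mul_le_mul_of_nonneg_right ?_ (Real.rpow_nonneg hb0.le _)
    rw [← Real.rpow_neg (by norm_num), neg_neg]
    calc (4 : ℝ) ^ (1 / 4 : ℝ) ≤ (4 : ℝ) ^ (1 / 2 : ℝ) :=
          Real.rpow_le_rpow_of_exponent_le (by norm_num) (by norm_num)
      _ = 2 := by
          rw [← Real.sqrt_eq_rpow, show (4 : ℝ) = 2 ^ 2 by norm_num, Real.sqrt_sq (by norm_num)]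
  have h7 : 2 * C * Real.sqrt D / η ≤ (b : ℝ) ^ (1 / 8 : ℝ) := by
    have h8 : (2 * C * Real.sqrt D / η) ^ 8 ≤ (b : ℝ) := hN.trans (by exact_mod_cast hbN)
    have h9 : (((2 * C * Real.sqrt D / η) ^ 8 : ℝ)) ^ (1 / 8 : ℝ) ≤ (b : ℝ) ^ (1 / 8 : ℝ) :=
      Real.rpow_le_rpow (by positivity) h8 (by norm_num)
    have h10 : (((2 * C * Real.sqrt D / η) ^ 8 : ℝ)) ^ (1 / 8 : ℝ) = 2 * C * Real.sqrt D / η := by
      rw [← Real.rpow_natCast, ← Real.rpow_mul (by positivity)]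
      norm_num
    rwa [h10] at h9
  have h8 : (0 : ℝ) < (b : ℝ) ^ (1 / 8 : ℝ) := Real.rpow_pos_of_pos hb0 _
  have h9 : (b : ℝ) ^ (1 / 8 : ℝ) * (b : ℝ) ^ (-(1 / 4 : ℝ)) = ((b : ℝ) ^ (1 / 8 : ℝ))⁻¹ := by
    rw [← Real.rpow_add hb0, ← Real.rpow_neg hb0.le]
    norm_num
  calc C * Real.sqrt (1 + Real.log (1 + (b : ℝ) ^ (3 / κ))) * ((b / 2 : ℕ) : ℝ) ^ (-(1 / 4 : ℝ))
      ≤ C * (Real.sqrt D * (b : ℝ) ^ (1 / 8 : ℝ)) * (2 * (b : ℝ) ^ (-(1 / 4 : ℝ))) :=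
        mul_le_mul (mul_le_mul_of_nonneg_left h5 hC.le) h6 (Real.rpow_nonneg (Nat.cast_nonneg _) _) (by positivity)
    _ = 2 * C * Real.sqrt D * ((b : ℝ) ^ (1 / 8 : ℝ) * (b : ℝ) ^ (-(1 / 4 : ℝ))) := by ring
    _ = 2 * C * Real.sqrt D / (b : ℝ) ^ (1 / 8 : ℝ) := by rw [h9, ← div_eq_mul_inv]
    _ ≤ η := by
        rw [div_le_iff₀ h8]
        rw [div_le_iff₀ hη] at h7
        linarith

/-- The parameters. -/
private theorem num28 {K C₁ cb C κ q η : ℝ} (hK : 0 < K) (hC₁ : 0 < C₁) (hcb : 0 < cb) (hC : 0 < C) (hκ : 0 < κ)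
    (hq : 0 < q) (hq1 : q < 1) (hη : 0 < η) (k₀ : ℕ) : ∃ L₀ : ℝ, ∀ L : ℝ, L₀ ≤ L → ∀ m₀ b : ℕ,
      K * Real.sqrt L ≤ m₀ → (m₀ : ℝ) ≤ 2 * K * Real.sqrt L → cb * L ≤ b → ∀ H₁ : ℝ, 1 ≤ H₁ →
      H₁ ≤ Real.exp (C₁ * Real.sqrt L) →
      ∃ s₀ b₁ s' : ℕ, 1 ≤ s₀ ∧ s₀ ≤ b₁ ∧ 1 ≤ s' ∧ b₁ + s' = b ∧ 1 ≤ (b : ℝ) ^ (3 / κ) ∧
        ((4 * m₀ : ℕ) : ℝ) ≤ (8 * K / Real.sqrt (cb / 2)) * Real.sqrt b₁ ∧ k₀ ≤ b₁ ∧ 0 < m₀ ∧
        ∀ i ∈ Icc m₀ (3 * m₀), C * s₀ * (1 / (i : ℝ) ^ 2 + 1 / (((4 * m₀ : ℕ) : ℝ) - i) ^ 2) +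
          C * (b₁ * ((b : ℝ) ^ (3 / κ)) ^ (-κ) + q ^ s₀ * (3 ^ (4 * m₀) * H₁) ^ κ) +
          C * Real.sqrt (1 + Real.log (1 + (b : ℝ) ^ (3 / κ))) * (s' : ℝ) ^ (-(1 / 4 : ℝ)) ≤ 4 * η := by
  obtain ⟨N, hN4, hN⟩ := t4_28 hC hκ hη
  have hlq : 0 < Real.log (1 / q) := Real.log_pos (by rw [lt_div_iff₀ hq]; linarith)
  have hl3 : 0 < Real.log 3 := Real.log_pos (by norm_num)
  obtain ⟨Cs, hCs⟩ : ∃ Cs : ℝ, Cs = (κ * (8 * K * Real.log 3 + C₁) + 1) / Real.log (1 / q) := ⟨_, rfl⟩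
  have hCs0 : 0 < Cs := by rw [hCs]; positivity
  obtain ⟨u₀, hu₀⟩ : ∃ u₀ : ℝ, u₀ = 1 + 2 * C * (Cs + 1) / (K ^ 2 * η) + C / η + 2 * (Cs + 1) / cb + 1 / K +
    (N + 2 * k₀ + C / η) / cb := ⟨_, rfl⟩
  have p1 : 0 ≤ 2 * C * (Cs + 1) / (K ^ 2 * η) := by positivity
  have p2 : 0 ≤ C / η := by positivity
  have p3 : 0 ≤ 2 * (Cs + 1) / cb := by positivity
  have p4 : 0 ≤ 1 / K := by positivity
  have p5 : 0 ≤ (N + 2 * k₀ + C / η) / cb := by positivity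
  refine ⟨u₀ ^ 2, fun L hL m₀ b hm1 hm2 hb H₁ hH1 hH2 => ?_⟩
  have hu₀1 : 1 ≤ u₀ := by rw [hu₀]; linarith
  obtain ⟨u, hu⟩ : ∃ u : ℝ, u = Real.sqrt L := ⟨_, rfl⟩
  have hL0 : 0 ≤ L := (sq_nonneg _).trans hL
  have huu : u ^ 2 = L := by rw [hu, Real.sq_sqrt hL0]
  have huge : u₀ ≤ u := by rw [hu]; exact Real.le_sqrt_of_sq_le hL
  rw [← hu] at hm1 hm2 hH2
  have hu1 : 1 ≤ u := hu₀1.trans huge
  have hu0 : 0 < u := by linarith
  have huu1 : u ≤ u ^ 2 := by rw [sq]; exact le_mul_of_one_le_left hu0.le hu1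
  have q1 : 2 * C * (Cs + 1) / (K ^ 2 * η) ≤ u := by rw [hu₀] at huge; linarith
  have q2 : C / η ≤ u := by rw [hu₀] at huge; linarith
  have q3 : 2 * (Cs + 1) / cb ≤ u := by rw [hu₀] at huge; linarith
  have q4 : 1 / K ≤ u := by rw [hu₀] at huge; linarith
  have q5 : (N + 2 * k₀ + C / η) / cb ≤ u := by rw [hu₀] at huge; linarith
  rw [← huu] at hb
  have hb5 : N + 2 * k₀ + C / η ≤ b := by
    rw [div_le_iff₀ hcb] at q5
    have : u * cb ≤ cb * u ^ 2 := by rw [mul_comm]; exact mul_le_mul_of_nonneg_left huu1 hcb.le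
    linarith
  have hbN : N ≤ b := by
    have : (N : ℝ) ≤ b := by
      have : (0 : ℝ) ≤ k₀ := Nat.cast_nonneg _
      linarith
    exact_mod_cast this
  have hb4 : 4 ≤ b := hN4.trans hbN
  have hbr : (4 : ℝ) ≤ b := by exact_mod_cast hb4
  have hb0 : (0 : ℝ) < b := by linarith
  have hb1 : (1 : ℝ) ≤ b := by linarith
  obtain ⟨b₁, hb₁⟩ : ∃ b₁ : ℕ, b₁ = b - b / 2 := ⟨_, rfl⟩
  have hb₁2 : (b : ℝ) / 2 ≤ b₁ := by
    have h1 : b ≤ 2 * b₁ := by omega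
    have h2 : (b : ℝ) ≤ 2 * b₁ := by exact_mod_cast h1
    linarith
  have hb₁b : (b₁ : ℝ) ≤ b := by
    have h1 : b₁ ≤ b := by omega
    exact_mod_cast h1
  have hs₀le : (⌈Cs * u⌉₊ : ℝ) ≤ (Cs + 1) * u := by
    have := Nat.ceil_lt_add_one (show 0 ≤ Cs * u by positivity)
    linarith only [this, hu1]
  have hm0 : 0 < m₀ := by
    have h1 : 1 ≤ K * u := by
      rw [div_le_iff₀ hK] at q4
      linarith
    have h2 : (0 : ℝ) < m₀ := by linarith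
    exact_mod_cast h2
  have hm0r : (0 : ℝ) < m₀ := by exact_mod_cast hm0
  refine ⟨⌈Cs * u⌉₊, b₁, b / 2, ?_, ?_, ?_, ?_, ?_, ?_, ?_, hm0, ?_⟩
  · exact Nat.ceil_pos.2 (by positivity)
  · have h1 : (⌈Cs * u⌉₊ : ℝ) ≤ b₁ := by
      rw [div_le_iff₀ hcb] at q3
      have h2 : 2 * (Cs + 1) * u ≤ u * cb * u := mul_le_mul_of_nonneg_right q3 hu0.le
      have h3 : u * cb * u = cb * u ^ 2 := by ring
      linarith
    exact_mod_cast h1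
  · omega
  · omega
  · exact Real.one_le_rpow hb1 (by positivity)
  · have h1 : Real.sqrt (cb / 2) * u ≤ Real.sqrt b₁ := by
      have h2 : Real.sqrt (cb / 2) * u = Real.sqrt (cb / 2 * u ^ 2) := by
        rw [Real.sqrt_mul (by positivity), Real.sqrt_sq hu0.le]
      rw [h2]
      refine Real.sqrt_le_sqrt ?_
      linarith
    have hs0 : 0 < Real.sqrt (cb / 2) := Real.sqrt_pos.2 (by positivity)
    rw [div_mul_eq_mul_div, le_div_iff₀ hs0]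
    push_cast
    calc 4 * (m₀ : ℝ) * Real.sqrt (cb / 2) ≤ 4 * (2 * K * u) * Real.sqrt (cb / 2) := by gcongr
      _ = 8 * K * (Real.sqrt (cb / 2) * u) := by ring
      _ ≤ 8 * K * Real.sqrt b₁ := by gcongr
  · have h1 : (2 * k₀ : ℝ) ≤ b := by
      have : (0 : ℝ) ≤ N := Nat.cast_nonneg _
      linarith
    have h2 : 2 * k₀ ≤ b := by exact_mod_cast h1
    omega
  · intro i hi
    rw [mem_Icc] at hi
    have hi1 : (m₀ : ℝ) ≤ i := by exact_mod_cast hi.1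
    have hi2 : (i : ℝ) ≤ 3 * m₀ := by exact_mod_cast hi.2
    have hKm : K * u ≤ m₀ := hm1
    have hKu : 0 < K * u := by positivity
    have t1 : C * (⌈Cs * u⌉₊ : ℝ) * (1 / (i : ℝ) ^ 2 + 1 / (((4 * m₀ : ℕ) : ℝ) - i) ^ 2) ≤ η := by
      have h1 : 1 / (i : ℝ) ^ 2 ≤ 1 / (K * u) ^ 2 :=
        one_div_le_one_div_of_le (by positivity) (pow_le_pow_left₀ hKu.le (hKm.trans hi1) 2)
      have h2 : 1 / (((4 * m₀ : ℕ) : ℝ) - i) ^ 2 ≤ 1 / (K * u) ^ 2 := by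
        refine one_div_le_one_div_of_le (by positivity) (pow_le_pow_left₀ hKu.le ?_ 2)
        push_cast
        linarith
      calc C * (⌈Cs * u⌉₊ : ℝ) * (1 / (i : ℝ) ^ 2 + 1 / (((4 * m₀ : ℕ) : ℝ) - i) ^ 2)
          ≤ C * ((Cs + 1) * u) * (1 / (K * u) ^ 2 + 1 / (K * u) ^ 2) :=
            mul_le_mul (mul_le_mul_of_nonneg_left hs₀le hC.le) (add_le_add h1 h2) (by positivity) (by positivity)
        _ = 2 * C * (Cs + 1) / (K ^ 2 * u) := by field_simp; ring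
        _ ≤ η := by
            rw [div_le_iff₀ (by positivity)] at q1 ⊢
            linarith
    have t2 : C * ((b₁ : ℝ) * ((b : ℝ) ^ (3 / κ)) ^ (-κ)) ≤ η := by
      have h1 : ((b : ℝ) ^ (3 / κ)) ^ (-κ) = ((b : ℝ) ^ 3)⁻¹ := by
        rw [← Real.rpow_mul hb0.le, ← Real.rpow_natCast, ← Real.rpow_neg hb0.le]
        congr 1
        field_simp
        norm_num
      rw [h1]
      have h2 : (b₁ : ℝ) * ((b : ℝ) ^ 3)⁻¹ ≤ 1 / b := by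
        rw [← div_eq_mul_inv, div_le_div_iff₀ (by positivity) hb0, one_mul]
        calc (b₁ : ℝ) * b ≤ b * b := mul_le_mul_of_nonneg_right hb₁b hb0.le
          _ = (b : ℝ) ^ 2 := by ring
          _ ≤ (b : ℝ) ^ 3 := pow_le_pow_right₀ hb1 (by norm_num)
      have h3 : C / η ≤ b := by
        have : (0 : ℝ) ≤ N := Nat.cast_nonneg _
        have : (0 : ℝ) ≤ k₀ := Nat.cast_nonneg _
        linarith
      calc C * ((b₁ : ℝ) * ((b : ℝ) ^ 3)⁻¹) ≤ C * (1 / b) := mul_le_mul_of_nonneg_left h2 hC.le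
        _ = C / b := by ring
        _ ≤ η := by
            rw [div_le_iff₀ hη] at h3
            rw [div_le_iff₀ hb0]
            linarith
    have t3 : C * (q ^ ⌈Cs * u⌉₊ * (3 ^ (4 * m₀) * H₁) ^ κ) ≤ η := by
      have h1 : q ^ ⌈Cs * u⌉₊ ≤ Real.exp (-(Real.log (1 / q) * (Cs * u))) := by
        have h2 : q = Real.exp (-Real.log (1 / q)) := by
          rw [one_div, Real.log_inv, neg_neg, Real.exp_log hq]
        calc q ^ ⌈Cs * u⌉₊ = Real.exp (-Real.log (1 / q)) ^ ⌈Cs * u⌉₊ := by rw [← h2]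
          _ = Real.exp ((⌈Cs * u⌉₊ : ℝ) * (-Real.log (1 / q))) := (Real.exp_nat_mul _ _).symm
          _ ≤ Real.exp (-(Real.log (1 / q) * (Cs * u))) := by
              apply Real.exp_le_exp.2
              have := mul_le_mul_of_nonneg_left (Nat.le_ceil (Cs * u)) hlq.le
              linarith
      have h2 : ((3 : ℝ) ^ (4 * m₀) * H₁) ^ κ ≤ Real.exp (κ * (8 * K * Real.log 3 + C₁) * u) := by
        have h3 : (3 : ℝ) ^ (4 * m₀) * H₁ ≤ Real.exp ((8 * K * Real.log 3 + C₁) * u) := by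
          have h4 : (3 : ℝ) ^ (4 * m₀) = Real.exp ((4 * m₀ : ℕ) * Real.log 3) := by
            rw [Real.exp_nat_mul, Real.exp_log (by norm_num)]
          rw [h4]
          calc Real.exp ((4 * m₀ : ℕ) * Real.log 3) * H₁
              ≤ Real.exp (8 * K * Real.log 3 * u) * Real.exp (C₁ * u) := by
                refine mul_le_mul (Real.exp_le_exp.2 ?_) hH2 (by linarith) (Real.exp_pos _).le
                push_cast
                have h0 := mul_le_mul_of_nonneg_left hm2 hl3.le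
                linarith only [h0]
            _ = Real.exp ((8 * K * Real.log 3 + C₁) * u) := by
                rw [← Real.exp_add]
                congr 1
                ring
        refine (Real.rpow_le_rpow (by positivity) h3 hκ.le).trans (le_of_eq ?_)
        rw [← Real.exp_mul]
        congr 1
        ring
      have h3 : Real.log (1 / q) * (Cs * u) = κ * (8 * K * Real.log 3 + C₁) * u + u := by
        rw [hCs]
        field_simp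
      have h4 : q ^ ⌈Cs * u⌉₊ * ((3 : ℝ) ^ (4 * m₀) * H₁) ^ κ ≤ Real.exp (-u) := by
        calc q ^ ⌈Cs * u⌉₊ * ((3 : ℝ) ^ (4 * m₀) * H₁) ^ κ
            ≤ Real.exp (-(Real.log (1 / q) * (Cs * u))) * Real.exp (κ * (8 * K * Real.log 3 + C₁) * u) :=
              mul_le_mul h1 h2 (Real.rpow_nonneg (by positivity) _) (Real.exp_pos _).le
          _ = Real.exp (-u) := by
              rw [← Real.exp_add, h3]
              congr 1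
              ring
      have h5 : Real.exp (-u) ≤ 1 / u := by
        rw [Real.exp_neg, ← one_div]
        refine one_div_le_one_div_of_le hu0 ?_
        have := Real.add_one_le_exp u
        linarith
      calc C * (q ^ ⌈Cs * u⌉₊ * ((3 : ℝ) ^ (4 * m₀) * H₁) ^ κ) ≤ C * (1 / u) :=
            mul_le_mul_of_nonneg_left (h4.trans h5) hC.le
        _ = C / u := by ring
        _ ≤ η := by
            rw [div_le_iff₀ hη] at q2
            rw [div_le_iff₀ hu0]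
            linarith
    have t4 := hN b hbN
    have e : C * ((b₁ : ℝ) * ((b : ℝ) ^ (3 / κ)) ^ (-κ) + q ^ ⌈Cs * u⌉₊ * ((3 : ℝ) ^ (4 * m₀) * H₁) ^ κ) =
        C * ((b₁ : ℝ) * ((b : ℝ) ^ (3 / κ)) ^ (-κ)) + C * (q ^ ⌈Cs * u⌉₊ * ((3 : ℝ) ^ (4 * m₀) * H₁) ^ κ) := by ring
    rw [e]
    linarith

theorem goodset {ρ : ℤ} (hρ : Odd ρ) {K C₁ cb ε : ℝ} (hK : 0 < K) (hC₁ : 0 < C₁) (hcb : 0 < cb) (hε : 0 < ε) :
    ∃ c L₀ : ℝ, 0 < c ∧ ∀ L : ℝ, L₀ ≤ L → ∀ m₀ b : ℕ, K * Real.sqrt L ≤ m₀ → (m₀ : ℝ) ≤ 2 * K * Real.sqrt L →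
      cb * L ≤ b → ∀ H₁ : ℝ, 1 ≤ H₁ → H₁ ≤ Real.exp (C₁ * Real.sqrt L) → ∀ p : ℕ → ℝ, (∀ i, 0 ≤ p i) →
        ∑ i ∈ Icc m₀ (3 * m₀), p i ≤ 1 →
        c * 2 ^ b ≤ (((range (2 ^ b)).filter (fun y : ℕ => badw ρ m₀ b H₁ p y ≤ ε)).card : ℝ) := by
  obtain ⟨c₁, hc₁, k₀, hmp⟩ := merge_pos (8 * K / Real.sqrt (cb / 2))
  obtain ⟨C, κ, q, hC, hκ, -, hq, hq1, hcr⟩ := crossing hρ
  obtain ⟨L₀, hnum⟩ := num28 (η := ε * c₁ / 24) hK hC₁ hcb hC hκ hq hq1 (by positivity) k₀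
  refine ⟨c₁ / 2, L₀, by positivity, fun L hL m₀ b hm1 hm2 hb H₁ hH1 hH2 p hp0 hp1 => ?_⟩
  obtain ⟨s₀, b₁, s', h1, h2, h3, h4, h5, h6, h7, h8, h9⟩ := hnum L hL m₀ b hm1 hm2 hb H₁ hH1 hH2
  have h2b : (0 : ℝ) < 2 ^ b := by positivity
  -- the set `𝒲`
  obtain ⟨𝒲, h𝒲⟩ : ∃ 𝒲 : Finset ℕ, 𝒲 = (range (2 ^ b)).filter
    (fun y : ℕ => MM ρ b₁ (4 * m₀) y (3 ^ (4 * m₀) * y)) := ⟨_, rfl⟩
  have hper : ∀ x j : ℤ, MM ρ b₁ (4 * m₀) (x + 2 ^ b₁ * j) (3 ^ (4 * m₀) * (x + 2 ^ b₁ * j)) ↔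
      MM ρ b₁ (4 * m₀) x (3 ^ (4 * m₀) * x) := by
    intro x j
    have := MM_periodic hρ b₁ (4 * m₀) 0 x j
    rwa [mul_zero, add_zero, add_zero] at this
  have hcard : c₁ * 2 ^ b ≤ (𝒲.card : ℝ) := by
    have e1 := card_lift28 (P := fun x : ℤ => MM ρ b₁ (4 * m₀) x (3 ^ (4 * m₀) * x)) hper s'
    rw [h4] at e1
    have e2 : 𝒲.card = 2 ^ s' * ((range (2 ^ b₁)).filter
        (fun y : ℕ => MM ρ b₁ (4 * m₀) (y : ℤ) (3 ^ (4 * m₀) * (y : ℤ)))).card := by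
      rw [h𝒲]
      exact e1
    have e3 := cnt_le hρ b₁ (4 * m₀) 0
    have e4 := hmp b₁ h7 (4 * m₀) h6
    have e5 : ((range (2 ^ b₁)).filter (fun y : ℕ => MM ρ b₁ (4 * m₀) (y : ℤ) (3 ^ (4 * m₀) * (y : ℤ)))).card +
        ((range (2 ^ b₁)).filter (fun y : ℕ => ¬ MM ρ b₁ (4 * m₀) (y : ℤ) (3 ^ (4 * m₀) * (y : ℤ)))).card =
        2 ^ b₁ := by
      rw [Finset.card_filter_add_card_filter_not, card_range]
    have e6 : (((range (2 ^ b₁)).filter (fun y : ℕ => MM ρ b₁ (4 * m₀) (y : ℤ) (3 ^ (4 * m₀) * (y : ℤ)))).card : ℝ) +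
        (((range (2 ^ b₁)).filter (fun y : ℕ => ¬ MM ρ b₁ (4 * m₀) (y : ℤ) (3 ^ (4 * m₀) * (y : ℤ)))).card : ℝ) =
        2 ^ b₁ := by exact_mod_cast e5
    have e7 : (((range (2 ^ b₁)).filter (fun y : ℕ => ¬ MM ρ b₁ (4 * m₀) (y : ℤ) (3 ^ (4 * m₀) * (y : ℤ)))).card : ℝ) ≤
        2 ^ b₁ * (1 - c₁) := by
      simp only [mul_zero, add_zero] at e3
      exact e3.trans (mul_le_mul_of_nonneg_left e4 (by positivity))
    rw [e2]
    push_cast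
    have e8 : (2 : ℝ) ^ b = 2 ^ s' * 2 ^ b₁ := by rw [← pow_add, add_comm s', h4]
    rw [e8]
    have e9 : c₁ * 2 ^ b₁ ≤
        (((range (2 ^ b₁)).filter (fun y : ℕ => MM ρ b₁ (4 * m₀) (y : ℤ) (3 ^ (4 * m₀) * (y : ℤ)))).card : ℝ) := by
      nlinarith
    calc c₁ * (2 ^ s' * 2 ^ b₁) = 2 ^ s' * (c₁ * 2 ^ b₁) := by ring
      _ ≤ _ := mul_le_mul_of_nonneg_left e9 (by positivity)
  -- the bad particles
  have hbad : ∀ i ∈ Icc m₀ (3 * m₀), ∀ β ∈ Icc (-⌊3 ^ i * H₁⌋) ⌊3 ^ i * H₁⌋,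
      ((𝒲.filter (fun y : ℕ => ¬ MM ρ b i y (3 ^ i * y + ρ * β))).card : ℝ) ≤ 2 ^ b * (ε * c₁ / 6) := by
    intro i hi β hβ
    rw [mem_Icc] at hi hβ
    have h3i : (0 : ℝ) < 3 ^ i * H₁ := by positivity
    have hβ' : |(β : ℝ)| ≤ 3 ^ i * H₁ := by
      have f1 := Int.floor_le (3 ^ i * H₁)
      have f2 : (β : ℝ) ≤ (⌊3 ^ i * H₁⌋ : ℝ) := by exact_mod_cast hβ.2
      have f3 : -(⌊3 ^ i * H₁⌋ : ℝ) ≤ (β : ℝ) := by exact_mod_cast hβ.1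
      rw [abs_le]
      constructor <;> linarith
    have g1 := hcr s₀ b₁ s' i (4 * m₀) h1 h2 h3 (by omega) (by omega) β H₁ ((b : ℝ) ^ (3 / κ)) hH1 h5 hβ'
    rw [h4] at g1
    have g2 := h9 i (mem_Icc.2 hi)
    have g3 : 𝒲.filter (fun y : ℕ => ¬ MM ρ b i y (3 ^ i * y + ρ * β)) =
        (range (2 ^ b)).filter (fun y : ℕ => MM ρ b₁ (4 * m₀) y (3 ^ (4 * m₀) * y) ∧
          ¬ MM ρ b i y (3 ^ i * y + ρ * β)) := by
      rw [h𝒲, Finset.filter_filter]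
    rw [g3]
    refine g1.trans (mul_le_mul_of_nonneg_left ?_ h2b.le)
    refine g2.trans (le_of_eq ?_)
    ring
  -- the sum
  have hsum : ∑ y ∈ 𝒲, badw ρ m₀ b H₁ p y ≤ ε * c₁ / 2 * 2 ^ b := by
    unfold badw
    rw [sum_comm]
    calc ∑ i ∈ Icc m₀ (3 * m₀), ∑ y ∈ 𝒲, p i * (((Icc (-⌊3 ^ i * H₁⌋) ⌊3 ^ i * H₁⌋).filter
          (fun β : ℤ => ¬ MM ρ b i ((y : ℕ) : ℤ) (3 ^ i * ((y : ℕ) : ℤ) + ρ * β))).card : ℝ) / (3 ^ i * H₁)
        ≤ ∑ i ∈ Icc m₀ (3 * m₀), p i * (ε * c₁ / 2 * 2 ^ b) := by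
          refine sum_le_sum fun i hi => ?_
          have h3i : (1 : ℝ) ≤ 3 ^ i * H₁ := one_le_mul_of_one_le_of_one_le (one_le_pow₀ (by norm_num)) hH1
          have h3i0 : (0 : ℝ) < 3 ^ i * H₁ := by linarith
          rw [← sum_div, ← mul_sum, mul_div_assoc]
          refine mul_le_mul_of_nonneg_left ?_ (hp0 i)
          rw [div_le_iff₀ h3i0]
          have g1 : ∑ y ∈ 𝒲, (((Icc (-⌊3 ^ i * H₁⌋) ⌊3 ^ i * H₁⌋).filter
              (fun β : ℤ => ¬ MM ρ b i ((y : ℕ) : ℤ) (3 ^ i * ((y : ℕ) : ℤ) + ρ * β))).card : ℝ) =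
              ∑ β ∈ Icc (-⌊3 ^ i * H₁⌋) ⌊3 ^ i * H₁⌋,
                ((𝒲.filter (fun y : ℕ => ¬ MM ρ b i y (3 ^ i * y + ρ * β))).card : ℝ) := by
            simp only [card_filter]
            push_cast
            rw [sum_comm]
          rw [g1]
          refine (sum_le_sum fun β hβ => hbad i hi β hβ).trans ?_
          rw [sum_const, nsmul_eq_mul, Int.card_Icc]
          have f1 := Int.floor_le (3 ^ i * H₁)
          have f2 : (0 : ℤ) ≤ ⌊3 ^ i * H₁⌋ := Int.floor_nonneg.2 h3i0.le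
          obtain ⟨F, hF⟩ : ∃ F : ℤ, F = ⌊3 ^ i * H₁⌋ := ⟨_, rfl⟩
          rw [← hF] at f1 f2 ⊢
          have f3 : (((F + 1 - -F).toNat : ℕ) : ℝ) ≤ 3 * (3 ^ i * H₁) := by
            have f4 : (((F + 1 - -F).toNat : ℕ) : ℝ) = (((F + 1 - -F) : ℤ) : ℝ) := by
              exact_mod_cast congrArg (Int.cast : ℤ → ℝ) (Int.toNat_of_nonneg (show 0 ≤ F + 1 - -F by omega))
            rw [f4]
            push_cast
            linarith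
          calc (((F + 1 - -F).toNat : ℕ) : ℝ) * (2 ^ b * (ε * c₁ / 6))
              ≤ 3 * (3 ^ i * H₁) * (2 ^ b * (ε * c₁ / 6)) := mul_le_mul_of_nonneg_right f3 (by positivity)
            _ = ε * c₁ / 2 * 2 ^ b * (3 ^ i * H₁) := by ring
      _ = (∑ i ∈ Icc m₀ (3 * m₀), p i) * (ε * c₁ / 2 * 2 ^ b) := by rw [sum_mul]
      _ ≤ 1 * (ε * c₁ / 2 * 2 ^ b) := mul_le_mul_of_nonneg_right hp1 (by positivity)
      _ = _ := one_mul _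
  have hnn : ∀ y : ℤ, 0 ≤ badw ρ m₀ b H₁ p y := by
    intro y
    unfold badw
    refine sum_nonneg fun i _ => ?_
    have := hp0 i
    positivity
  -- Markov
  have hmk : ((𝒲.filter (fun y : ℕ => ¬ badw ρ m₀ b H₁ p y ≤ ε)).card : ℝ) ≤ c₁ / 2 * 2 ^ b := by
    have g1 : ((𝒲.filter (fun y : ℕ => ¬ badw ρ m₀ b H₁ p y ≤ ε)).card : ℝ) * ε ≤ ∑ y ∈ 𝒲, badw ρ m₀ b H₁ p y := by
      calc ((𝒲.filter (fun y : ℕ => ¬ badw ρ m₀ b H₁ p y ≤ ε)).card : ℝ) * ε =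
            ∑ _y ∈ 𝒲.filter (fun y : ℕ => ¬ badw ρ m₀ b H₁ p y ≤ ε), ε := by
              rw [sum_const, nsmul_eq_mul]
        _ ≤ ∑ y ∈ 𝒲.filter (fun y : ℕ => ¬ badw ρ m₀ b H₁ p y ≤ ε), badw ρ m₀ b H₁ p y :=
            sum_le_sum fun y hy => (not_le.1 (mem_filter.1 hy).2).le
        _ ≤ ∑ y ∈ 𝒲, badw ρ m₀ b H₁ p y :=
            sum_le_sum_of_subset_of_nonneg (filter_subset _ _) fun y _ _ => hnn y
    have g2 := g1.trans hsum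
    have g3 : ((𝒲.filter (fun y : ℕ => ¬ badw ρ m₀ b H₁ p y ≤ ε)).card : ℝ) * ε ≤ c₁ / 2 * 2 ^ b * ε := by
      linarith
    exact le_of_mul_le_mul_right g3 hε
  have hfin : (𝒲.card : ℝ) ≤ (((range (2 ^ b)).filter (fun y : ℕ => badw ρ m₀ b H₁ p y ≤ ε)).card : ℝ) +
      ((𝒲.filter (fun y : ℕ => ¬ badw ρ m₀ b H₁ p y ≤ ε)).card : ℝ) := by
    have g1 : 𝒲.card = (𝒲.filter (fun y : ℕ => badw ρ m₀ b H₁ p y ≤ ε)).card +
        (𝒲.filter (fun y : ℕ => ¬ badw ρ m₀ b H₁ p y ≤ ε)).card := by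
      rw [Finset.card_filter_add_card_filter_not]
    have g2 : (𝒲.filter (fun y : ℕ => badw ρ m₀ b H₁ p y ≤ ε)).card ≤
        ((range (2 ^ b)).filter (fun y : ℕ => badw ρ m₀ b H₁ p y ≤ ε)).card := by
      refine card_le_card (filter_subset_filter _ ?_)
      rw [h𝒲]
      exact filter_subset _ _
    have g3 : 𝒲.card ≤ ((range (2 ^ b)).filter (fun y : ℕ => badw ρ m₀ b H₁ p y ≤ ε)).card +
        (𝒲.filter (fun y : ℕ => ¬ badw ρ m₀ b H₁ p y ≤ ε)).card := by omega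
    exact_mod_cast g3
  linarith

end Pool.Agent.Helper8.SI
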