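import Pool.Agent.Helper8.SI.Def

/-!
# Block I: iteration of the flow

`Φ_j (a, H) = min (fi {T^[j t₀] ∈ G} a H) 2`. One step, for every `H > 0`, `Hm = C 6 ^ (8 t₀)`:
`Φ_(j+1) (a, H) ≤ 2 ^ (-t₀) ∑_v Φ_j (a_v, H_v) + C t₀ ^ (-A) + 2 (Hm / H) ^ κ`: for `H ≥ Hm` this is `FlowI` (with the set
`{T^[(j-1) t₀] ∈ G}`; `H_v ≥ H / 2 ^ t₀ ≥ 1`, so the `fi` of `J_v` is `≤ (H_v + 1) / H_v ≤ 2`), for `H < Hm` the left side is `≤ 2`.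
Induction on `p`; `2 ^ (-t₀) ∑_v (Hm / H_v) ^ κ = (Hm / H) ^ κ g ^ t₀`, `g = 2 ^ κ (1 + 3 ^ (-κ)) / 2` (`sum_pow_sg`), words: `sum_W_add`.
-/

set_option autoImplicit false

namespace Pool.Agent.Helper8.SI

open Pool.Agent.Helper68.Moeller Pool.Agent.Helper52.Tao Finset

private theorem fi_nonneg68 (G : Set ℤ) (a : ℝ) {H : ℝ} (hH : 0 < H) : 0 ≤ fi G a H := by
  unfold fi
  positivity

private theorem fi_le68 (G : Set ℤ) (a : ℝ) {H : ℝ} (hH : 1 ≤ H) : fi G a H ≤ 2 := by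
  have hH0 : 0 < H := by linarith
  unfold fi
  rw [div_le_iff₀ hH0]
  have hsub : {n : ℤ | a ≤ n ∧ (n : ℝ) < a + H ∧ n ∈ G} ⊆ (↑(Finset.Icc ⌈a⌉ (⌈a + H⌉ - 1)) : Set ℤ) := by
    rintro n ⟨h1, h2, -⟩
    rw [Finset.coe_Icc]
    have h3 : n < ⌈a + H⌉ := Int.lt_ceil.2 h2
    exact ⟨Int.ceil_le.2 h1, by omega⟩
  have h1 := Set.ncard_le_ncard hsub (Finset.finite_toSet _)
  rw [Set.ncard_coe_finset, Int.card_Icc] at h1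
  have h2 : ((⌈a + H⌉ - 1 + 1 - ⌈a⌉).toNat : ℝ) ≤ H + 1 := by
    have h3 : ⌈a⌉ ≤ ⌈a + H⌉ := Int.ceil_le_ceil (by linarith)
    have h4 : (((⌈a + H⌉ - 1 + 1 - ⌈a⌉).toNat : ℤ) : ℝ) = (⌈a + H⌉ : ℝ) - ⌈a⌉ := by
      rw [Int.toNat_of_nonneg (by omega)]
      push_cast
      ring
    have h5 := Int.ceil_lt_add_one (a + H)
    have h6 := Int.le_ceil a
    have h7 : ((⌈a + H⌉ - 1 + 1 - ⌈a⌉).toNat : ℝ) = (((⌈a + H⌉ - 1 + 1 - ⌈a⌉).toNat : ℤ) : ℝ) := by norm_cast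
    rw [h7, h4]
    linarith
  have h3 : (({n : ℤ | a ≤ n ∧ (n : ℝ) < a + H ∧ n ∈ G}.ncard : ℕ) : ℝ) ≤ ((⌈a + H⌉ - 1 + 1 - ⌈a⌉).toNat : ℝ) := by
    exact_mod_cast h1
  linarith

/-- one step -/
private theorem step68 {r : ℤ → ℤ} {A C : ℝ} (hC : 1 ≤ C)
    (h : ∀ t : ℕ, 1 ≤ t → ∀ a H : ℝ, C * (((2 : ℕ) : ℝ) * ((3 : ℕ) : ℝ)) ^ (8 * t) ≤ H → ∀ G : Set ℤ,
      fi {n | (T 2 3 r)^[t + t] n ∈ G} a H ≤
        (∑ v ∈ W 2 t, fi {n | (T 2 3 r)^[t] n ∈ G} (a * ((3 : ℕ) : ℝ) ^ sg v / ((2 : ℕ) : ℝ) ^ t) (H * ((3 : ℕ) : ℝ) ^ sg v / ((2 : ℕ) : ℝ) ^ t)) /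
          ((2 : ℕ) : ℝ) ^ t + C * (t : ℝ) ^ (-A))
    {t₀ j : ℕ} (ht₀ : 1 ≤ t₀) (hj : 1 ≤ j) (a : ℝ) {H κ : ℝ} (hH : 0 < H) (hκ : 0 < κ) (G : Set ℤ) :
    min (fi {n | (T 2 3 r)^[(j + 1) * t₀] n ∈ G} a H) 2 ≤
      (∑ v ∈ W 2 t₀, min (fi {n | (T 2 3 r)^[j * t₀] n ∈ G} (a * 3 ^ sg v / 2 ^ t₀) (H * 3 ^ sg v / 2 ^ t₀)) 2) / 2 ^ t₀ +
        C * (t₀ : ℝ) ^ (-A) + 2 * (C * 6 ^ (8 * t₀) / H) ^ κ := by
  have hC0 : 0 < C := by linarith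
  have ht₀r : (1 : ℝ) ≤ t₀ := by exact_mod_cast ht₀
  have hsum0 : 0 ≤ ∑ v ∈ W 2 t₀, min (fi {n | (T 2 3 r)^[j * t₀] n ∈ G} (a * 3 ^ sg v / 2 ^ t₀) (H * 3 ^ sg v / 2 ^ t₀)) 2 :=
    Finset.sum_nonneg fun v _ => le_min (fi_nonneg68 _ _ (by positivity)) (by norm_num)
  have hA0 : 0 ≤ C * (t₀ : ℝ) ^ (-A) := mul_nonneg hC0.le (Real.rpow_nonneg (by linarith) _)
  have hK0 : 0 ≤ (C * 6 ^ (8 * t₀) / H) ^ κ := Real.rpow_nonneg (by positivity) _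
  rcases le_or_gt (C * 6 ^ (8 * t₀)) H with hc | hc
  · obtain ⟨i, rfl⟩ : ∃ i, j = i + 1 := ⟨j - 1, by omega⟩
    have h1 := h t₀ ht₀ a H (by
      have e : ((2 : ℕ) : ℝ) * ((3 : ℕ) : ℝ) = 6 := by norm_num
      rw [e]
      exact hc) {n | (T 2 3 r)^[i * t₀] n ∈ G}
    have e1 : {n : ℤ | (T 2 3 r)^[t₀ + t₀] n ∈ {n | (T 2 3 r)^[i * t₀] n ∈ G}} = {n | (T 2 3 r)^[(i + 1 + 1) * t₀] n ∈ G} := by
      ext n
      have e : (i + 1 + 1) * t₀ = i * t₀ + (t₀ + t₀) := by ring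
      simp only [Set.mem_ofPred_eq]
      rw [e, Function.iterate_add_apply (T 2 3 r) (i * t₀) (t₀ + t₀)]
    have e2 : {n : ℤ | (T 2 3 r)^[t₀] n ∈ {n | (T 2 3 r)^[i * t₀] n ∈ G}} = {n | (T 2 3 r)^[(i + 1) * t₀] n ∈ G} := by
      ext n
      have e : (i + 1) * t₀ = i * t₀ + t₀ := by ring
      simp only [Set.mem_ofPred_eq]
      rw [e, Function.iterate_add_apply (T 2 3 r) (i * t₀) t₀]
    rw [e1, e2] at h1
    push_cast at h1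
    have h2 : ∀ v ∈ W 2 t₀, fi {n | (T 2 3 r)^[(i + 1) * t₀] n ∈ G} (a * 3 ^ sg v / 2 ^ t₀) (H * 3 ^ sg v / 2 ^ t₀) =
        min (fi {n | (T 2 3 r)^[(i + 1) * t₀] n ∈ G} (a * 3 ^ sg v / 2 ^ t₀) (H * 3 ^ sg v / 2 ^ t₀)) 2 := by
      intro v _
      refine (min_eq_left (fi_le68 _ _ ?_)).symm
      rw [le_div_iff₀ (by positivity)]
      have a1 : (2 : ℝ) ^ t₀ ≤ 6 ^ (8 * t₀) := by
        calc (2 : ℝ) ^ t₀ ≤ 6 ^ t₀ := pow_le_pow_left₀ (by norm_num) (by norm_num) _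
          _ ≤ 6 ^ (8 * t₀) := pow_le_pow_right₀ (by norm_num) (by omega)
      have a2 : (1 : ℝ) ≤ 3 ^ sg v := one_le_pow₀ (by norm_num)
      have a3 : (6 : ℝ) ^ (8 * t₀) ≤ C * 6 ^ (8 * t₀) := le_mul_of_one_le_left (by positivity) hC
      have a4 : H ≤ H * 3 ^ sg v := le_mul_of_one_le_right hH.le a2
      linarith
    rw [Finset.sum_congr rfl h2] at h1
    exact (min_le_left _ _).trans (h1.trans (by linarith))
  · have h1 : 1 ≤ (C * 6 ^ (8 * t₀) / H) ^ κ := Real.one_le_rpow (by rw [le_div_iff₀ hH]; linarith) hκ.le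
    refine (min_le_right _ _).trans ?_
    have h2 : 0 ≤ (∑ v ∈ W 2 t₀, min (fi {n | (T 2 3 r)^[j * t₀] n ∈ G} (a * 3 ^ sg v / 2 ^ t₀) (H * 3 ^ sg v / 2 ^ t₀)) 2) / (2 : ℝ) ^ t₀ :=
      div_nonneg hsum0 (by positivity)
    linarith

theorem iter {r : ℤ → ℤ} (h : FlowI 2 3 r) (A : ℝ) : ∃ C : ℝ, 0 < C ∧ ∀ t₀ p j : ℕ, 1 ≤ t₀ → 1 ≤ j → ∀ a H κ : ℝ, 0 < H → 0 < κ →
    ∀ G : Set ℤ,
      min (fi {n | (T 2 3 r)^[(j + p) * t₀] n ∈ G} a H) 2 ≤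
        (∑ w ∈ W 2 (p * t₀), min (fi {n | (T 2 3 r)^[j * t₀] n ∈ G} (a * 3 ^ sg w / 2 ^ (p * t₀))
          (H * 3 ^ sg w / 2 ^ (p * t₀))) 2) / 2 ^ (p * t₀) + p * (C * (t₀ : ℝ) ^ (-A)) +
        2 * ∑ i ∈ range p, (C * 6 ^ (8 * t₀) / H) ^ κ * ((2 : ℝ) ^ κ * (1 + (3 : ℝ) ^ (-κ)) / 2) ^ (i * t₀) := by
  obtain ⟨C₀, hC₀, h0⟩ := h A
  obtain ⟨C, hCd⟩ : ∃ C, C = max C₀ 1 := ⟨_, rfl⟩
  have hC1 : 1 ≤ C := by
    rw [hCd]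
    exact le_max_right _ _
  have hCC : C₀ ≤ C := by
    rw [hCd]
    exact le_max_left _ _
  have hC0 : 0 < C := by linarith
  refine ⟨C, hC0, fun t₀ p j ht₀ hj => ?_⟩
  have hstep : ∀ (j : ℕ), 1 ≤ j → ∀ a H κ : ℝ, 0 < H → 0 < κ → ∀ G : Set ℤ, min (fi {n | (T 2 3 r)^[(j + 1) * t₀] n ∈ G} a H) 2 ≤
      (∑ v ∈ W 2 t₀, min (fi {n | (T 2 3 r)^[j * t₀] n ∈ G} (a * 3 ^ sg v / 2 ^ t₀) (H * 3 ^ sg v / 2 ^ t₀)) 2) / 2 ^ t₀ +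
        C * (t₀ : ℝ) ^ (-A) + 2 * (C * 6 ^ (8 * t₀) / H) ^ κ := by
    intro j hj a H κ hH hκ G
    refine step68 hC1 (fun t ht a H hH G => ?_) ht₀ hj a hH hκ G
    have a1 : C₀ * (((2 : ℕ) : ℝ) * ((3 : ℕ) : ℝ)) ^ (8 * t) ≤ H :=
      (mul_le_mul_of_nonneg_right hCC (by positivity)).trans hH
    have a2 : C₀ * (t : ℝ) ^ (-A) ≤ C * (t : ℝ) ^ (-A) :=
      mul_le_mul_of_nonneg_right hCC (Real.rpow_nonneg (Nat.cast_nonneg _) _)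
    exact (h0 t ht a H a1 G).trans (by linarith)
  induction p with
  | zero =>
    intro a H κ hH hκ G
    simp only [sum_W_zero, sg_nil, pow_zero, mul_one, div_one, Finset.range_zero, Finset.sum_empty, Nat.cast_zero,
      zero_mul, mul_zero, add_zero]
    exact le_refl _
  | succ p ih =>
    intro a H κ hH hκ G
    obtain ⟨E, hE⟩ : ∃ E, E = C * (t₀ : ℝ) ^ (-A) := ⟨_, rfl⟩
    obtain ⟨Hm, hHm⟩ : ∃ Hm, Hm = C * 6 ^ (8 * t₀) := ⟨_, rfl⟩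
    obtain ⟨g, hg⟩ : ∃ g, g = (2 : ℝ) ^ κ * (1 + (3 : ℝ) ^ (-κ)) / 2 := ⟨_, rfl⟩
    have hHm0 : 0 < Hm := by
      rw [hHm]
      positivity
    have h1 := hstep (j + p) (by omega) a H κ hH hκ G
    rw [← hE, ← hHm] at h1
    rw [← hE, ← hHm, ← hg]
    have e0 : (j + (p + 1)) * t₀ = (j + p + 1) * t₀ := by ring
    rw [e0]
    have h2 : ∀ v ∈ W 2 t₀, min (fi {n | (T 2 3 r)^[(j + p) * t₀] n ∈ G} (a * 3 ^ sg v / 2 ^ t₀) (H * 3 ^ sg v / 2 ^ t₀)) 2 ≤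
        (∑ w ∈ W 2 (p * t₀), min (fi {n | (T 2 3 r)^[j * t₀] n ∈ G} (a * 3 ^ sg (v ++ w) / 2 ^ (t₀ + p * t₀))
          (H * 3 ^ sg (v ++ w) / 2 ^ (t₀ + p * t₀))) 2) / 2 ^ (p * t₀) + p * E +
        2 * ((Hm / H) ^ κ * (2 : ℝ) ^ (κ * t₀) * ((3 : ℝ) ^ (-κ)) ^ sg v * ∑ i ∈ range p, g ^ (i * t₀)) := by
      intro v _
      have a1 := ih (a * 3 ^ sg v / 2 ^ t₀) (H * 3 ^ sg v / 2 ^ t₀) κ (by positivity) hκ G
      rw [← hE, ← hHm, ← hg] at a1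
      refine a1.trans (le_of_eq ?_)
      congr 1
      · congr 2
        refine Finset.sum_congr rfl fun w _ => ?_
        have b1 : a * 3 ^ sg v / 2 ^ t₀ * 3 ^ sg w / 2 ^ (p * t₀) = a * 3 ^ sg (v ++ w) / 2 ^ (t₀ + p * t₀) := by
          rw [sg_append, pow_add, pow_add]
          field_simp
        have b2 : H * 3 ^ sg v / 2 ^ t₀ * 3 ^ sg w / 2 ^ (p * t₀) = H * 3 ^ sg (v ++ w) / 2 ^ (t₀ + p * t₀) := by
          rw [sg_append, pow_add, pow_add]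
          field_simp
        rw [b1, b2]
      · congr 1
        rw [← Finset.mul_sum]
        congr 1
        have b3 : Hm / (H * 3 ^ sg v / 2 ^ t₀) = Hm / H * ((2 : ℝ) ^ t₀ * (((3 : ℝ) ^ sg v))⁻¹) := by
          field_simp
        rw [b3, Real.mul_rpow (by positivity) (by positivity), Real.mul_rpow (by positivity) (by positivity), mul_assoc]
        congr 2
        · rw [← Real.rpow_natCast, ← Real.rpow_mul (by norm_num), mul_comm]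
        · rw [Real.inv_rpow (by positivity), ← Real.rpow_neg (by positivity), ← Real.rpow_natCast, ← Real.rpow_mul (by norm_num),
            ← Real.rpow_natCast, ← Real.rpow_mul (by norm_num), mul_comm]
    refine h1.trans ?_
    have h3 : (∑ v ∈ W 2 t₀, min (fi {n | (T 2 3 r)^[(j + p) * t₀] n ∈ G} (a * 3 ^ sg v / 2 ^ t₀) (H * 3 ^ sg v / 2 ^ t₀)) 2) / (2 : ℝ) ^ t₀ ≤
        (∑ w ∈ W 2 ((p + 1) * t₀), min (fi {n | (T 2 3 r)^[j * t₀] n ∈ G} (a * 3 ^ sg w / 2 ^ ((p + 1) * t₀))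
          (H * 3 ^ sg w / 2 ^ ((p + 1) * t₀))) 2) / 2 ^ ((p + 1) * t₀) + p * E + 2 * ((Hm / H) ^ κ * (g ^ t₀ * ∑ i ∈ range p, g ^ (i * t₀))) := by
      have c1 := div_le_div_of_nonneg_right (Finset.sum_le_sum h2) (by positivity : (0 : ℝ) ≤ 2 ^ t₀)
      refine c1.trans (le_of_eq ?_)
      rw [Finset.sum_add_distrib, Finset.sum_add_distrib, add_div, add_div]
      congr 1
      · congr 1
        · have e : (p + 1) * t₀ = t₀ + p * t₀ := by ring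
          rw [e, sum_W_add, ← Finset.sum_div, div_div]
          congr 1
          rw [pow_add]
          ring
        · rw [Finset.sum_const, card_W, nsmul_eq_mul]
          push_cast
          field_simp
      · have d1 : ∑ v ∈ W 2 t₀, 2 * ((Hm / H) ^ κ * (2 : ℝ) ^ (κ * t₀) * ((3 : ℝ) ^ (-κ)) ^ sg v * ∑ i ∈ range p, g ^ (i * t₀)) =
            2 * ((Hm / H) ^ κ * (2 : ℝ) ^ (κ * t₀) * (∑ i ∈ range p, g ^ (i * t₀))) * ∑ v ∈ W 2 t₀, ((3 : ℝ) ^ (-κ)) ^ sg v := by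
          rw [Finset.mul_sum]
          refine Finset.sum_congr rfl fun v _ => ?_
          ring
        rw [d1, sum_pow_sg 2 t₀ _ (by norm_num)]
        have d2 : g ^ t₀ = (2 : ℝ) ^ (κ * t₀) * (1 + (3 : ℝ) ^ (-κ)) ^ t₀ / 2 ^ t₀ := by
          rw [hg, div_pow, mul_pow, Real.rpow_mul (by norm_num), Real.rpow_natCast]
        have d3 : (1 + (((2 : ℕ) : ℝ) - 1) * (3 : ℝ) ^ (-κ)) = 1 + (3 : ℝ) ^ (-κ) := by
          push_cast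
          ring
        rw [d3, d2]
        field_simp
    have h4 : ∑ i ∈ range (p + 1), (Hm / H) ^ κ * g ^ (i * t₀) = (Hm / H) ^ κ * (g ^ t₀ * ∑ i ∈ range p, g ^ (i * t₀)) + (Hm / H) ^ κ := by
      rw [Finset.sum_range_succ', ← Finset.mul_sum, Nat.zero_mul, pow_zero, mul_one]
      congr 2
      rw [Finset.mul_sum]
      refine Finset.sum_congr rfl fun i _ => ?_
      rw [← pow_add]
      congr 1
      ring
    rw [h4]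
    push_cast
    linarith

end Pool.Agent.Helper8.SI
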