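import Pool.Agent.Helper8.SI.Gs
import Pool.Agent.Helper8.SI.Iter
import Pool.Agent.Helper8.SI.F

/-!
# Block M, part 1: the particles in the image of an interval
-/

set_option autoImplicit false

namespace Pool.Agent.Helper8.SI

open Pool.Agent.Helper68.Moeller Pool.Agent.Helper52.Tao Pool.Agent.Helper8.CO Finset Classical

variable {ρ : ℤ}

theorem fi_nonneg (G : Set ℤ) (a : ℝ) {H : ℝ} (hH : 0 ≤ H) : 0 ≤ fi G a H := by unfold fi; positivity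

/-- One word: the particles in the image of an interval. -/
theorem fi_particle (hρ : ρ = 1 ∨ ρ = -1) {n z : ℤ} {κ₀ t b i : ℕ} {H E : ℝ} (hE : E = 3 ^ κ₀ * H / 2 ^ t) (hE1 : 1 ≤ E)
    (hz1 : (z : ℝ) ≤ 3 ^ κ₀ * n / 2 ^ t) (hz2 : 3 ^ κ₀ * (n : ℝ) / 2 ^ t < z + 1) :
    fi {y | (T 2 3 (fun _ => ρ))^[b] y ≠ (T 2 3 (fun _ => ρ))^[b] z} (n * 3 ^ (κ₀ + i) / 2 ^ t) (H * 3 ^ (κ₀ + i) / 2 ^ t) ≤
      2 * ((((Icc (-⌊3 ^ i * (2 * E)⌋) ⌊3 ^ i * (2 * E)⌋).filter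
        (fun β : ℤ => ¬ MM ρ b i z (3 ^ i * z + ρ * β))).card : ℝ) / (3 ^ i * (2 * E))) := by
  obtain ⟨ζ, hζ⟩ : ∃ ζ : ℝ, ζ = 3 ^ κ₀ * n / 2 ^ t := ⟨_, rfl⟩
  rw [← hζ] at hz1 hz2
  have e1 : (n : ℝ) * 3 ^ (κ₀ + i) / 2 ^ t = 3 ^ i * ζ := by rw [hζ, pow_add]; ring
  have e2 : H * 3 ^ (κ₀ + i) / 2 ^ t = 3 ^ i * E := by rw [hE, pow_add]; ring
  rw [e1, e2]
  have hE0 : 0 < E := by linarith
  have h3 : (0 : ℝ) < 3 ^ i := by positivity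
  have h3z : (0 : ℤ) < 3 ^ i := by positivity
  have hρ2 : ρ * ρ = 1 := by rcases hρ with rfl | rfl <;> norm_num
  obtain ⟨S, hS⟩ : ∃ S : Set ℤ, S = {y : ℤ | 3 ^ i * ζ ≤ y ∧ (y : ℝ) < 3 ^ i * ζ + 3 ^ i * E ∧
      y ∈ {y : ℤ | (T 2 3 (fun _ => ρ))^[b] y ≠ (T 2 3 (fun _ => ρ))^[b] z}} := ⟨_, rfl⟩
  obtain ⟨F, hF⟩ : ∃ F : Finset ℤ, F = (Icc (-⌊3 ^ i * (2 * E)⌋) ⌊3 ^ i * (2 * E)⌋).filter
        (fun β : ℤ => ¬ MM ρ b i z (3 ^ i * z + ρ * β)) := ⟨_, rfl⟩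
  have hinj : Function.Injective (fun y : ℤ => ρ * (y - 3 ^ i * z)) := by
    intro y y' h
    have h1 : ρ * (ρ * (y - 3 ^ i * z)) = ρ * (ρ * (y' - 3 ^ i * z)) := congrArg (ρ * ·) h
    rw [← mul_assoc, ← mul_assoc, hρ2, one_mul, one_mul] at h1
    linarith
  have hmaps : (fun y : ℤ => ρ * (y - 3 ^ i * z)) '' S ⊆ (F : Set ℤ) := by
    rintro _ ⟨y, hy, rfl⟩
    rw [hS] at hy
    obtain ⟨h1, h2, h4⟩ := hy
    have hy0 : 0 ≤ y - 3 ^ i * z := by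
      have h5 : ((3 ^ i * z : ℤ) : ℝ) ≤ y := by
        push_cast
        exact (mul_le_mul_of_nonneg_left hz1 h3.le).trans h1
      have : 3 ^ i * z ≤ y := by exact_mod_cast h5
      linarith
    have hy1 : ((y - 3 ^ i * z : ℤ) : ℝ) ≤ 3 ^ i * (2 * E) := by
      push_cast
      have h5 : 3 ^ i * ζ ≤ 3 ^ i * ((z : ℝ) + 1) := mul_le_mul_of_nonneg_left hz2.le h3.le
      nlinarith
    have hy2 : y - 3 ^ i * z ≤ ⌊3 ^ i * (2 * E)⌋ := Int.le_floor.2 hy1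
    rw [hF, Finset.mem_coe, Finset.mem_filter, Finset.mem_Icc]
    refine ⟨?_, ?_⟩
    · rcases hρ with rfl | rfl
      · constructor <;> linarith
      · constructor <;> linarith
    · intro hM
      apply h4
      have h5 : 3 ^ i * z + ρ * (ρ * (y - 3 ^ i * z)) = y := by
        rw [← mul_assoc, hρ2]; ring
      rw [h5] at hM
      exact hM.1.symm
  have hcard : S.ncard ≤ F.card := by
    rw [← Set.ncard_image_of_injective S hinj, ← Set.ncard_coe_finset]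
    exact Set.ncard_le_ncard hmaps (Finset.finite_toSet F)
  have hcard' : (S.ncard : ℝ) ≤ F.card := by exact_mod_cast hcard
  unfold fi
  rw [← hS, ← hF]
  have h5 : 2 * ((F.card : ℝ) / (3 ^ i * (2 * E))) = F.card / (3 ^ i * E) := by
    field_simp
  rw [h5]
  exact div_le_div_of_nonneg_right hcard' (by positivity)

/-- All words. -/
theorem sum_particles (hρ : ρ = 1 ∨ ρ = -1) {n z : ℤ} {κ₀ t b : ℕ} (m₀ : ℕ) {H E : ℝ} (hE : E = 3 ^ κ₀ * H / 2 ^ t) (hE1 : 1 ≤ E)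
    (hz1 : (z : ℝ) ≤ 3 ^ κ₀ * n / 2 ^ t) (hz2 : 3 ^ κ₀ * (n : ℝ) / 2 ^ t < z + 1) :
    (∑ w ∈ W 2 t, min (fi {y | (T 2 3 (fun _ => ρ))^[b] y ≠ (T 2 3 (fun _ => ρ))^[b] z} (n * 3 ^ sg w / 2 ^ t)
      (H * 3 ^ sg w / 2 ^ t)) 2) / 2 ^ t ≤
      2 * (cW 2 t (fun w => ¬ (κ₀ + m₀ ≤ sg w ∧ sg w ≤ κ₀ + 3 * m₀)) / 2 ^ t) +
        2 * badw ρ m₀ b (2 * E) (fun i => cW 2 t (fun w => sg w = κ₀ + i) / 2 ^ t) z := by
  have hE0 : 0 < E := by linarith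
  obtain ⟨q, hq⟩ : ∃ q : ℕ → ℝ, q = fun i => (((Icc (-⌊3 ^ i * (2 * E)⌋) ⌊3 ^ i * (2 * E)⌋).filter
        (fun β : ℤ => ¬ MM ρ b i z (3 ^ i * z + ρ * β))).card : ℝ) / (3 ^ i * (2 * E)) := ⟨_, rfl⟩
  have hq0 : ∀ i, 0 ≤ q i := fun i => by rw [hq]; positivity
  have hw : ∀ w ∈ W 2 t, min (fi {y | (T 2 3 (fun _ => ρ))^[b] y ≠ (T 2 3 (fun _ => ρ))^[b] z} (n * 3 ^ sg w / 2 ^ t)
      (H * 3 ^ sg w / 2 ^ t)) 2 ≤ 2 * (if ¬ (κ₀ + m₀ ≤ sg w ∧ sg w ≤ κ₀ + 3 * m₀) then (1 : ℝ) else 0) +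
        ∑ i ∈ Icc m₀ (3 * m₀), 2 * q i * (if sg w = κ₀ + i then (1 : ℝ) else 0) := by
    intro w _
    have hs0 : 0 ≤ ∑ i ∈ Icc m₀ (3 * m₀), 2 * q i * (if sg w = κ₀ + i then (1 : ℝ) else 0) := by
      refine Finset.sum_nonneg fun i _ => ?_
      have := hq0 i
      split_ifs <;> positivity
    by_cases h : κ₀ + m₀ ≤ sg w ∧ sg w ≤ κ₀ + 3 * m₀
    · rw [if_neg (not_not.2 h), mul_zero, zero_add]
      obtain ⟨i, hi⟩ := Nat.exists_eq_add_of_le (show κ₀ ≤ sg w by omega)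
      have hi1 : i ∈ Icc m₀ (3 * m₀) := by rw [Finset.mem_Icc]; omega
      refine (min_le_left _ _).trans ?_
      have h1 := Finset.single_le_sum (f := fun i => 2 * q i * (if sg w = κ₀ + i then (1 : ℝ) else 0))
        (fun i _ => by have := hq0 i; split_ifs <;> positivity) hi1
      refine le_trans ?_ h1
      simp only [hi, if_true, mul_one]
      rw [hq]
      exact fi_particle hρ hE hE1 hz1 hz2
    · rw [if_pos h]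
      have := min_le_right (fi {y | (T 2 3 (fun _ => ρ))^[b] y ≠ (T 2 3 (fun _ => ρ))^[b] z} (n * 3 ^ sg w / 2 ^ t)
        (H * 3 ^ sg w / 2 ^ t)) 2
      linarith
  have h2t : (0 : ℝ) < 2 ^ t := by positivity
  rw [div_le_iff₀ h2t]
  refine (Finset.sum_le_sum hw).trans (le_of_eq ?_)
  rw [Finset.sum_add_distrib, ← Finset.mul_sum, Finset.sum_comm]
  rw [← cW_eq_sum 2 t (fun w => ¬ (κ₀ + m₀ ≤ sg w ∧ sg w ≤ κ₀ + 3 * m₀))]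
  have h3 : ∀ i ∈ Icc m₀ (3 * m₀), ∑ w ∈ W 2 t, 2 * q i * (if sg w = κ₀ + i then (1 : ℝ) else 0) =
      2 * q i * cW 2 t (fun w => sg w = κ₀ + i) := by
    intro i _
    rw [← Finset.mul_sum, ← cW_eq_sum 2 t (fun w => sg w = κ₀ + i)]
  rw [Finset.sum_congr rfl h3, badw, add_mul, Finset.mul_sum, Finset.sum_mul]
  congr 1
  · field_simp
  · refine Finset.sum_congr rfl fun i _ => ?_
    rw [hq]
    field_simp

/-- Chebyshev. -/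
theorem cheb_range {t m₀ κ₀ : ℕ} (hm : 2 ≤ m₀) (hκ : κ₀ + 2 * m₀ = t / 2) :
    cW 2 t (fun w => ¬ (κ₀ + m₀ ≤ sg w ∧ sg w ≤ κ₀ + 3 * m₀)) ≤ 2 ^ t * (t / ((m₀ : ℝ) - 1) ^ 2) := by
  have hm' : (2 : ℝ) ≤ m₀ := by exact_mod_cast hm
  have h1 := chebyshev (d := 2) le_rfl t (R := (m₀ : ℝ) - 1) (by linarith)
  push_cast at h1
  refine le_trans (cW_mono fun w _ hw => ?_) h1
  have h2 : ((κ₀ : ℝ) + 2 * m₀) ≤ t / 2 ∧ (t : ℝ) / 2 - 1 / 2 ≤ κ₀ + 2 * m₀ := by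
    have e : (2 : ℝ) * ((t / 2 : ℕ) : ℝ) ≤ t ∧ (t : ℝ) ≤ 2 * ((t / 2 : ℕ) : ℝ) + 1 := by
      constructor
      · exact_mod_cast (by omega : 2 * (t / 2) ≤ t)
      · exact_mod_cast (by omega : t ≤ 2 * (t / 2) + 1)
    rw [← hκ] at e
    push_cast at e
    constructor <;> linarith [e.1, e.2]
  rw [not_and_or, not_le, not_le] at hw
  rcases hw with hw | hw
  · have h3 : (sg w : ℝ) + 1 ≤ κ₀ + m₀ := by exact_mod_cast hw
    rw [lt_abs]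
    right
    linarith [h2.1]
  · have h3 : (κ₀ : ℝ) + 3 * m₀ + 1 ≤ sg w := by exact_mod_cast hw
    rw [lt_abs]
    left
    linarith [h2.2]

end Pool.Agent.Helper8.SI
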