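import Pool.Agent.Helper8.SI.M1
import Pool.Agent.Helper8.SI.M2

/-!
# Block M, part 3: counting lemmas and parameters
-/

set_option autoImplicit false

namespace Pool.Agent.Helper8.SI

open Pool.Agent.Helper68.Moeller Pool.Agent.Helper52.Tao Pool.Agent.Helper8.CO Pool.Agent.Helper8.ND Finset Classical

variable {ρ : ℤ}

theorem badw_periodic (hρ : Odd ρ) (m₀ b : ℕ) (H₁ : ℝ) (p : ℕ → ℝ) (y j : ℤ) :
    badw ρ m₀ b H₁ p (y + 2 ^ b * j) = badw ρ m₀ b H₁ p y := by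
  unfold badw
  refine Finset.sum_congr rfl fun i _ => ?_
  have h : ∀ β : ℤ, MM ρ b i (y + 2 ^ b * j) (3 ^ i * (y + 2 ^ b * j) + ρ * β) ↔ MM ρ b i y (3 ^ i * y + ρ * β) :=
    fun β => MM_periodic hρ b i β y j
  simp only [h]

/-- The classes of a set. -/
theorem card_classes {b : ℕ} {F : Finset ℕ} (hF : F ⊆ range (2 ^ b)) {G : Set ℤ} {Z A : ℝ}
    (h : ∀ y ∈ F, A ≤ ({z : ℤ | Z ≤ z ∧ (z : ℝ) < 2 * Z ∧ ((2 ^ b : ℕ) : ℤ) ∣ z - y ∧ z ∈ G}.ncard : ℝ)) :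
    F.card * A ≤ ({z : ℤ | Z ≤ z ∧ (z : ℝ) < 2 * Z ∧ z ∈ G ∧ ∃ y ∈ F, ((2 ^ b : ℕ) : ℤ) ∣ z - y}.ncard : ℝ) := by
  have hfin : ∀ P : ℤ → Prop, {z : ℤ | Z ≤ z ∧ (z : ℝ) < 2 * Z ∧ P z}.Finite := fun P =>
    (finite_Ico Z (2 * Z)).subset fun z hz => ⟨hz.1, hz.2.1⟩
  have h1 : (F : Set ℕ).PairwiseDisjoint
      (fun y : ℕ => (hfin (fun z => ((2 ^ b : ℕ) : ℤ) ∣ z - y ∧ z ∈ G)).toFinset) := by
    intro y hy y' hy' hne
    rw [Function.onFun, Finset.disjoint_left]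
    intro z hz hz'
    rw [Set.Finite.mem_toFinset] at hz hz'
    apply hne
    have e1 : ((2 ^ b : ℕ) : ℤ) ∣ (y : ℤ) - y' := by
      have := dvd_sub hz'.2.2.1 hz.2.2.1
      have e : z - (y' : ℤ) - (z - y) = y - y' := by ring
      rwa [e] at this
    have hy2 := mem_range.1 (hF hy)
    have hy2' := mem_range.1 (hF hy')
    obtain ⟨q, hq⟩ := e1
    have hq0 : q = 0 := by
      by_contra hq0
      have h5 : ((2 ^ b : ℕ) : ℤ) ≤ |((2 ^ b : ℕ) : ℤ) * q| := by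
        rw [abs_mul, abs_of_nonneg (by positivity)]
        exact le_mul_of_one_le_right (by positivity) (Int.one_le_abs hq0)
      rw [← hq] at h5
      rw [le_abs] at h5
      omega
    rw [hq0, mul_zero] at hq
    omega
  have h2 : (F.biUnion (fun y : ℕ => (hfin (fun z => ((2 ^ b : ℕ) : ℤ) ∣ z - y ∧ z ∈ G)).toFinset) : Finset ℤ) ⊆
      (hfin (fun z => z ∈ G ∧ ∃ y ∈ F, ((2 ^ b : ℕ) : ℤ) ∣ z - y)).toFinset := by
    intro z hz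
    rw [Finset.mem_biUnion] at hz
    obtain ⟨y, hy, hz⟩ := hz
    rw [Set.Finite.mem_toFinset] at hz ⊢
    exact ⟨hz.1, hz.2.1, hz.2.2.2, y, hy, hz.2.2.1⟩
  have h3 := Finset.card_le_card h2
  rw [Finset.card_biUnion h1] at h3
  rw [Set.ncard_eq_toFinset_card _ (hfin (fun z => z ∈ G ∧ ∃ y ∈ F, ((2 ^ b : ℕ) : ℤ) ∣ z - y))]
  refine le_trans ?_ (Nat.cast_le.2 h3)
  rw [← nsmul_eq_mul, Nat.cast_sum]
  refine Finset.card_nsmul_le_sum _ _ _ fun y hy => ?_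
  have := h y hy
  rwa [Set.ncard_eq_toFinset_card _ (hfin (fun z => ((2 ^ b : ℕ) : ℤ) ∣ z - y ∧ z ∈ G))] at this

/-- Few integers are sent to a small set. -/
theorem card_pre {r : ℤ → ℤ} (hr : Admissible 2 3 r) (b : ℕ) (V : Finset ℤ) (Z : ℝ) :
    ({z : ℤ | Z ≤ z ∧ (z : ℝ) < 2 * Z ∧ (T 2 3 r)^[b] z ∈ V}.ncard : ℝ) ≤ V.card * 2 ^ b := by
  have hfin : {z : ℤ | Z ≤ z ∧ (z : ℝ) < 2 * Z ∧ (T 2 3 r)^[b] z ∈ V}.Finite :=
    (finite_Ico Z (2 * Z)).subset fun z hz => ⟨hz.1, hz.2.1⟩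
  have h1 : hfin.toFinset.card ≤ (V ×ˢ W 2 b).card := by
    refine Finset.card_le_card_of_injOn (fun z => ((T 2 3 r)^[b] z, wd 2 3 r b z)) ?_ ?_
    · intro z hz
      rw [Finset.mem_coe, Set.Finite.mem_toFinset] at hz
      rw [Finset.mem_coe, Finset.mem_product]
      exact ⟨hz.2.2, wd_mem le_rfl r b z⟩
    · intro z _ z' _ h
      rw [Prod.mk.injEq] at h
      have e1 := wd_spec (le_refl 2) hr b z
      have e2 := wd_spec (le_refl 2) hr b z'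
      rw [h.1, h.2] at e1
      rw [e1] at e2
      have h3 : ((3 : ℕ) : ℤ) ^ sg (wd 2 3 r b z') ≠ 0 := by positivity
      have h4 : ((3 : ℕ) : ℤ) ^ sg (wd 2 3 r b z') * z = ((3 : ℕ) : ℤ) ^ sg (wd 2 3 r b z') * z' := by linarith
      exact mul_left_cancel₀ h3 h4
  rw [Set.ncard_eq_toFinset_card _ hfin]
  rw [Finset.card_product, card_W] at h1
  exact_mod_cast h1

/-- From `z = ⌊3 ^ κ₀ n / 2 ^ t⌋` to `n`. -/
theorem card_lift {κ₀ t : ℕ} {x Z : ℝ} (hZ : Z = 3 ^ κ₀ * x / 2 ^ t) {A : Set ℤ}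
    (hA : ∀ z ∈ A, Z ≤ z ∧ (z : ℝ) + 1 ≤ 2 * Z) {P : ℤ → Prop}
    (hP : ∀ n z : ℤ, z ∈ A → x ≤ n → (n : ℝ) < 2 * x → (z : ℝ) ≤ 3 ^ κ₀ * n / 2 ^ t → 3 ^ κ₀ * (n : ℝ) / 2 ^ t < z + 1 → P n) :
    (A.ncard : ℝ) * (2 ^ t / 3 ^ κ₀ - 1) ≤ ({n : ℤ | x ≤ n ∧ (n : ℝ) < 2 * x ∧ P n}.ncard : ℝ) := by
  have hAf : A.Finite := (finite_Ico Z (2 * Z)).subset fun z hz => ⟨(hA z hz).1, by linarith [(hA z hz).2]⟩
  have hfin : {n : ℤ | x ≤ n ∧ (n : ℝ) < 2 * x ∧ P n}.Finite :=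
    (finite_Ico x (2 * x)).subset fun z hz => ⟨hz.1, hz.2.1⟩
  obtain ⟨R, hR⟩ : ∃ R : ℝ, R = 2 ^ t / 3 ^ κ₀ := ⟨_, rfl⟩
  have hR0 : 0 < R := by rw [hR]; positivity
  have hRx : R * Z = x := by rw [hR, hZ]; field_simp
  have hcond : ∀ n z : ℤ, ((z : ℝ) ≤ 3 ^ κ₀ * n / 2 ^ t ↔ R * z ≤ n) := by
    intro n z
    have e : (3 : ℝ) ^ κ₀ * n / 2 ^ t = n / R := by rw [hR]; field_simp
    rw [e, le_div_iff₀ hR0, mul_comm]
  have hcond2 : ∀ n z : ℤ, (3 ^ κ₀ * (n : ℝ) / 2 ^ t < z + 1 ↔ (n : ℝ) < R * (z + 1)) := by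
    intro n z
    have e : (3 : ℝ) ^ κ₀ * n / 2 ^ t = n / R := by rw [hR]; field_simp
    rw [e, div_lt_iff₀ hR0, mul_comm]
  have h1 : (hAf.toFinset : Set ℤ).PairwiseDisjoint (fun z : ℤ => Finset.Ico ⌈R * z⌉ ⌈R * (z + 1)⌉) := by
    intro z _ z' _ hne
    rw [Function.onFun, Finset.disjoint_left]
    intro n hn hn'
    rw [Finset.mem_Ico, Int.ceil_le, Int.lt_ceil] at hn hn'
    have h2 : (z : ℝ) < z' + 1 := lt_of_mul_lt_mul_left (hn.1.trans_lt hn'.2) hR0.le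
    have h3 : (z' : ℝ) < z + 1 := lt_of_mul_lt_mul_left (hn'.1.trans_lt hn.2) hR0.le
    have h4 : z < z' + 1 := by exact_mod_cast h2
    have h5 : z' < z + 1 := by exact_mod_cast h3
    exact hne (by omega)
  have h2 : hAf.toFinset.biUnion (fun z : ℤ => Finset.Ico ⌈R * z⌉ ⌈R * (z + 1)⌉) ⊆ hfin.toFinset := by
    intro n hn
    rw [Finset.mem_biUnion] at hn
    obtain ⟨z, hz, hn⟩ := hn
    rw [Set.Finite.mem_toFinset] at hz ⊢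
    rw [Finset.mem_Ico, Int.ceil_le, Int.lt_ceil] at hn
    obtain ⟨a1, a2⟩ := hA z hz
    have hx1 : x ≤ n := by
      rw [← hRx]
      exact (mul_le_mul_of_nonneg_left a1 hR0.le).trans hn.1
    have hx2 : (n : ℝ) < 2 * x := by
      have : R * (z + 1) ≤ R * (2 * Z) := mul_le_mul_of_nonneg_left a2 hR0.le
      have e : R * (2 * Z) = 2 * x := by rw [← hRx]; ring
      linarith [hn.2]
    exact ⟨hx1, hx2, hP n z hz hx1 hx2 ((hcond n z).2 hn.1) ((hcond2 n z).2 hn.2)⟩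
  have h3 := Finset.card_le_card h2
  rw [Finset.card_biUnion h1] at h3
  rw [Set.ncard_eq_toFinset_card _ hfin, Set.ncard_eq_toFinset_card _ hAf]
  refine le_trans ?_ (Nat.cast_le.2 h3)
  rw [← nsmul_eq_mul, Nat.cast_sum]
  refine Finset.card_nsmul_le_sum _ _ _ fun z _ => ?_
  rw [← hR, Int.card_Ico]
  have h4 := Int.le_ceil (R * ((z : ℝ) + 1))
  have h5 := Int.ceil_lt_add_one (R * (z : ℝ))
  have h6 : ((⌈R * ((z : ℝ) + 1)⌉ - ⌈R * (z : ℝ)⌉ : ℤ) : ℝ) ≤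
      ((⌈R * ((z : ℝ) + 1)⌉ - ⌈R * (z : ℝ)⌉).toNat : ℝ) := by
    exact_mod_cast Int.self_le_toNat _
  push_cast at h6
  linarith

/-- The weights. -/
theorem sum_weights (κ₀ t : ℕ) (S : Finset ℕ) :
    ∑ i ∈ S, cW 2 t (fun w => sg w = κ₀ + i) / 2 ^ t ≤ 1 := by
  rw [← Finset.sum_div, div_le_one (by positivity)]
  have h1 : ∑ i ∈ S, cW 2 t (fun w => sg w = κ₀ + i) = ∑ w ∈ W 2 t, ∑ i ∈ S, (if sg w = κ₀ + i then (1 : ℝ) else 0) := by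
    rw [Finset.sum_comm]
    exact Finset.sum_congr rfl fun i _ => cW_eq_sum 2 t (fun w => sg w = κ₀ + i)
  rw [h1]
  refine (Finset.sum_le_card_nsmul _ _ 1 fun w _ => ?_).trans ?_
  · rw [Finset.sum_ite, Finset.sum_const_zero, add_zero, Finset.sum_const, nsmul_eq_mul, mul_one]
    have h2 : (S.filter (fun i => sg w = κ₀ + i)).card ≤ 1 := by
      rw [Finset.card_le_one]
      intro a ha b hb
      rw [Finset.mem_filter] at ha hb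
      omega
    exact_mod_cast h2
  · rw [card_W, nsmul_eq_mul, mul_one]
    push_cast
    exact le_rfl

/-- The parameters, in terms of `s = √(log x)`. -/
theorem params {θ K CH cb : ℝ} (hθ0 : 0 < θ) (hθ1 : θ < 1) (hK : 1 ≤ K) (hCH : 0 ≤ CH) (hcb : 0 < cb) :
    ∃ s₀ : ℝ, ∀ s : ℝ, s₀ ≤ s → ∃ t₀ p j m₀ κ₀ : ℕ, 1 ≤ t₀ ∧ (t₀ : ℝ) ≤ s ∧ s / 2 ≤ t₀ ∧ 1 ≤ j ∧
      cb * s ^ 2 ≤ (j * t₀ : ℕ) ∧ ((j * t₀ : ℕ) : ℝ) ≤ cb * s ^ 2 + s ∧ (p : ℝ) * t₀ ≤ 7 * s ^ 2 ∧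
      CH * s + lam * (p * t₀) ≤ θ * s ^ 2 + Real.log 2 ∧ θ * s ^ 2 + Real.log 2 ≤ (CH + 1) * s + lam * (p * t₀) ∧
      K * s ≤ m₀ ∧ (m₀ : ℝ) ≤ 2 * K * s ∧ 4 ≤ m₀ ∧ κ₀ + 2 * m₀ = p * t₀ / 2 := by
  have hl2 := Real.log_two_lt_d9
  have hl20 : 0 < Real.log 2 := Real.log_pos (by norm_num)
  have hlam := lam_ge
  have hlam1 := lam_le
  refine ⟨max (max 4 ((CH + 8 * K + 3) / θ)) (1 / (1 - θ)), fun s hs => ?_⟩
  have hs4 : 4 ≤ s := ((le_max_left _ _).trans (le_max_left _ _)).trans hs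
  have hs2 : (CH + 8 * K + 3) / θ ≤ s := ((le_max_right _ _).trans (le_max_left _ _)).trans hs
  have hs3 : 1 / (1 - θ) ≤ s := (le_max_right _ _).trans hs
  rw [div_le_iff₀ hθ0] at hs2
  rw [div_le_iff₀ (by linarith)] at hs3
  have hs0 : 0 < s := by linarith
  have hss : s ≤ s ^ 2 := by nlinarith
  have hθs : (CH + 8 * K + 3) * s ≤ θ * s ^ 2 := by nlinarith
  have h1θ : θ * s ^ 2 + Real.log 2 ≤ s ^ 2 := by nlinarith
  obtain ⟨t₀, ht₀⟩ : ∃ t₀ : ℕ, t₀ = ⌊s⌋₊ := ⟨_, rfl⟩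
  have a1 : (t₀ : ℝ) ≤ s := by rw [ht₀]; exact Nat.floor_le hs0.le
  have a2 : s < t₀ + 1 := by rw [ht₀]; exact Nat.lt_floor_add_one s
  have a3 : (3 : ℝ) < t₀ := by linarith
  have a4 : 1 ≤ t₀ := by
    have : (1 : ℝ) ≤ t₀ := by linarith
    exact_mod_cast this
  have hlt0 : 0 < lam * t₀ := by positivity
  obtain ⟨p, hp⟩ : ∃ p : ℕ, p = ⌊(θ * s ^ 2 + Real.log 2 - CH * s) / (lam * t₀)⌋₊ := ⟨_, rfl⟩
  have hnum : 0 ≤ θ * s ^ 2 + Real.log 2 - CH * s := by nlinarith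
  have b1 : (p : ℝ) * (lam * t₀) ≤ θ * s ^ 2 + Real.log 2 - CH * s := by
    rw [← le_div_iff₀ hlt0, hp]
    exact Nat.floor_le (by positivity)
  have b2 : θ * s ^ 2 + Real.log 2 - CH * s < (p + 1) * (lam * t₀) := by
    rw [← div_lt_iff₀ hlt0, hp]
    exact Nat.lt_floor_add_one _
  have b3 : (p : ℝ) * (lam * t₀) = lam * (p * t₀) := by ring
  have b4 : lam * (t₀ : ℝ) ≤ s := by nlinarith
  have hpt0 : (0 : ℝ) ≤ p * t₀ := by positivity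
  obtain ⟨j, hj⟩ : ∃ j : ℕ, j = ⌈cb * s ^ 2 / t₀⌉₊ := ⟨_, rfl⟩
  have ht0 : (0 : ℝ) < t₀ := by linarith
  have c1 : cb * s ^ 2 ≤ j * t₀ := by
    rw [← div_le_iff₀ ht0, hj]
    exact Nat.le_ceil _
  have c2 : (j : ℝ) * t₀ ≤ cb * s ^ 2 + t₀ := by
    have h1 : (j : ℝ) < cb * s ^ 2 / t₀ + 1 := by
      rw [hj]; exact Nat.ceil_lt_add_one (by positivity)
    have h2 := mul_lt_mul_of_pos_right h1 ht0
    rw [add_mul, div_mul_cancel₀ _ ht0.ne', one_mul] at h2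
    exact h2.le
  have c3 : 1 ≤ j := by
    rw [hj, Nat.one_le_ceil_iff]
    positivity
  obtain ⟨m₀, hm₀⟩ : ∃ m₀ : ℕ, m₀ = ⌈K * s⌉₊ := ⟨_, rfl⟩
  have d1 : K * s ≤ m₀ := by rw [hm₀]; exact Nat.le_ceil _
  have hKs : 4 ≤ K * s := by nlinarith
  have d2 : (m₀ : ℝ) ≤ 2 * K * s := by
    have h1 : (m₀ : ℝ) < K * s + 1 := by rw [hm₀]; exact Nat.ceil_lt_add_one (by positivity)
    linarith
  have d3 : 4 ≤ m₀ := by
    have : (4 : ℝ) ≤ m₀ := hKs.trans d1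
    exact_mod_cast this
  have e1 : (4 * m₀ : ℝ) + 1 ≤ p * t₀ := by
    have h1 : lam * (p * t₀) ≤ 1 * (p * t₀) := mul_le_mul_of_nonneg_right hlam1 hpt0
    have h2 : θ * s ^ 2 + Real.log 2 - CH * s ≤ lam * (p * t₀) + s := by
      have : ((p : ℝ) + 1) * (lam * t₀) = lam * (p * t₀) + lam * t₀ := by ring
      rw [this] at b2
      linarith
    nlinarith
  have e2 : 4 * m₀ + 1 ≤ p * t₀ := by exact_mod_cast e1
  refine ⟨t₀, p, j, m₀, p * t₀ / 2 - 2 * m₀, a4, a1, by linarith, c3, by push_cast; exact c1, by push_cast; linarith, ?_,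
    by linarith, ?_, d1, d2, d3, by omega⟩
  · have h1 : 1 / 7 * ((p : ℝ) * t₀) ≤ lam * (p * t₀) := mul_le_mul_of_nonneg_right hlam hpt0
    have h2 : CH * s ≥ 0 := by positivity
    linarith
  · have : ((p : ℝ) + 1) * (lam * t₀) = lam * (p * t₀) + lam * t₀ := by ring
    rw [this] at b2
    linarith

end Pool.Agent.Helper8.SI
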