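import Pool.Agent.Helper8.SI.M3
import Pool.Agent.Helper8.PW.Fin

/-!
# Block M: the main theorem on short intervals
-/

set_option autoImplicit false

namespace Pool.Agent.Helper8.SI

open Pool.Agent.Helper68.Moeller Pool.Agent.Helper52.Tao Pool.Agent.Helper8.CO Pool.Agent.Helper8.ND Pool.Agent.Helper8.PW
  Finset Classical Filter Topology

variable {ρ : ℤ}

/-- After `s ≤ 9 log n` steps the orbits of all but `ε n ^ θ` of the integers `n + h`, `0 ≤ h ≤ n ^ θ`, are at one point `v` of `G`, which is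
not on the orbit of a `u ≤ z₀`. -/
def Good (ρ : ℤ) (θ ε z₀ : ℝ) (G : Set ℤ) (n : ℤ) : Prop :=
  ∃ (s : ℕ) (v : ℤ), (s : ℝ) ≤ 9 * Real.log n ∧ v ∈ G ∧
    (∀ (u : ℤ) (k : ℕ), 0 < u → (u : ℝ) ≤ z₀ → k ≤ s → (T 2 3 (fun _ => ρ))^[k] u ≠ v) ∧
    ({h : ℤ | 0 ≤ h ∧ (h : ℝ) ≤ (n : ℝ) ^ θ ∧ (T 2 3 (fun _ => ρ))^[s] (n + h) ≠ v}.ncard : ℝ) ≤ ε * (n : ℝ) ^ θ

/-- One `n`. -/
theorem good_of (hρ : ρ = 1 ∨ ρ = -1) {CI : ℝ} (hCI : 0 < CI)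
    (hit : ∀ t₀ p j : ℕ, 1 ≤ t₀ → 1 ≤ j → ∀ a H κ : ℝ, 0 < H → 0 < κ →
    ∀ G : Set ℤ, min (fi {n | (T 2 3 (fun _ => ρ))^[(j + p) * t₀] n ∈ G} a H) 2 ≤
        (∑ w ∈ W 2 (p * t₀), min (fi {n | (T 2 3 (fun _ => ρ))^[j * t₀] n ∈ G} (a * 3 ^ sg w / 2 ^ (p * t₀))
          (H * 3 ^ sg w / 2 ^ (p * t₀))) 2) / 2 ^ (p * t₀) + p * (CI * (t₀ : ℝ) ^ (-(2 : ℝ))) +
        2 * ∑ i ∈ range p, (CI * 6 ^ (8 * t₀) / H) ^ κ * ((2 : ℝ) ^ κ * (1 + (3 : ℝ) ^ (-κ)) / 2) ^ (i * t₀))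
    {θ ε K CH s x : ℝ} (hθ0 : 0 < θ) (hθ1 : θ < 1) (hε : 0 < ε) (hε1 : ε ≤ 1) (hK : 1 ≤ K) (hKε : 200 / ε ≤ K ^ 2)
    (_hCH : 5 * K + 1 ≤ CH) (hCHε : 28 * Real.exp (17 - CH) ≤ ε / 16) (hx1 : 1 ≤ x)
    (hs : s ^ 2 = Real.log x) (hs1 : 1 ≤ s) (hsC : Real.log CI ≤ s) (hsC2 : 896 * CI / ε ≤ s)
    {t₀ p j m₀ κ₀ : ℕ} (a1 : 1 ≤ t₀) (a2 : (t₀ : ℝ) ≤ s) (a3 : s / 2 ≤ t₀) (a4 : 1 ≤ j) (a7 : (p : ℝ) * t₀ ≤ 7 * s ^ 2)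
    (a8 : CH * s + lam * (p * t₀) ≤ θ * s ^ 2 + Real.log 2) (hK' : K * s ≤ m₀) (a12 : 4 ≤ m₀)
    (a13 : κ₀ + 2 * m₀ = p * t₀ / 2) {E : ℝ} (hE : E = 3 ^ κ₀ * (2 * x ^ θ) / 2 ^ (p * t₀)) (hE1 : 1 ≤ E)
    {n z : ℤ} (hn1 : x ≤ n) (hn2 : (n : ℝ) < 2 * x)
    (hz1 : (z : ℝ) ≤ 3 ^ κ₀ * n / 2 ^ (p * t₀)) (hz2 : 3 ^ κ₀ * (n : ℝ) / 2 ^ (p * t₀) < z + 1)
    (hbad : badw ρ m₀ (j * t₀) (2 * E) (fun i => cW 2 (p * t₀) (fun w => sg w = κ₀ + i) / 2 ^ (p * t₀)) z ≤ ε / 16) :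
    ({h : ℤ | 0 ≤ h ∧ (h : ℝ) ≤ (n : ℝ) ^ θ ∧ (T 2 3 (fun _ => ρ))^[(j + p) * t₀] (n + h) ≠
      (T 2 3 (fun _ => ρ))^[j * t₀] z}.ncard : ℝ) ≤ ε * (n : ℝ) ^ θ := by
  have hx0 : 0 < x := by linarith
  have hs0 : 0 < s := by linarith
  obtain ⟨H, hH⟩ : ∃ H : ℝ, H = 2 * x ^ θ := ⟨_, rfl⟩
  have hxθ : 0 < x ^ θ := Real.rpow_pos_of_pos hx0 _
  have hH0 : 0 < H := by rw [hH]; positivity
  have hlogH : Real.log H = θ * s ^ 2 + Real.log 2 := by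
    rw [hH, Real.log_mul (by norm_num) hxθ.ne', Real.log_rpow hx0, hs]; ring
  obtain ⟨v, hv⟩ : ∃ v : ℤ, v = (T 2 3 (fun _ => ρ))^[j * t₀] z := ⟨_, rfl⟩
  have h1 := hit t₀ p j a1 a4 (n : ℝ) H (1 / s) hH0 (by positivity) {y | y ≠ v}
  have h2 := sum_particles hρ (n := n) (z := z) (b := j * t₀) m₀ (by rw [← hH] at hE; exact hE) hE1 hz1 hz2
  rw [← hv] at h2
  have h3 := iter_err (H := H) hCI hs1 hsC a2 a3 a7 hH0 (by rw [hlogH]; exact a8)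
  have ht0 : (0 : ℝ) < t₀ := by exact_mod_cast a1
  have hm4 : (4 : ℝ) ≤ m₀ := by exact_mod_cast a12
  -- Chebyshev
  have h4 : 2 * (cW 2 (p * t₀) (fun w => ¬ (κ₀ + m₀ ≤ sg w ∧ sg w ≤ κ₀ + 3 * m₀)) / 2 ^ (p * t₀)) ≤ ε / 8 := by
    have h5 := cheb_range (t := p * t₀) (m₀ := m₀) (κ₀ := κ₀) (by omega) a13
    have h6 : cW 2 (p * t₀) (fun w => ¬ (κ₀ + m₀ ≤ sg w ∧ sg w ≤ κ₀ + 3 * m₀)) / 2 ^ (p * t₀) ≤
        ((p * t₀ : ℕ) : ℝ) / ((m₀ : ℝ) - 1) ^ 2 := by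
      rw [div_le_iff₀ (by positivity)]
      linarith
    have h7 : (0 : ℝ) < (m₀ : ℝ) - 1 := by linarith
    have h8 : ((p * t₀ : ℕ) : ℝ) / ((m₀ : ℝ) - 1) ^ 2 ≤ ε / 16 := by
      rw [div_le_iff₀ (by positivity)]
      push_cast
      have h9 : 3 / 4 * (K * s) ≤ (m₀ : ℝ) - 1 := by linarith
      have h10 : (3 / 4 * (K * s)) ^ 2 ≤ ((m₀ : ℝ) - 1) ^ 2 := pow_le_pow_left₀ (by positivity) h9 2
      rw [div_le_iff₀ hε] at hKε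
      have h11 : ε / 16 * (3 / 4 * (K * s)) ^ 2 = 9 / 256 * (K ^ 2 * ε) * s ^ 2 := by ring
      have h12 : 9 / 256 * 200 * s ^ 2 ≤ 9 / 256 * (K ^ 2 * ε) * s ^ 2 := by
        have h0 := mul_le_mul_of_nonneg_right hKε (sq_nonneg s)
        linarith only [h0]
      have h13 : ε / 16 * (3 / 4 * (K * s)) ^ 2 ≤ ε / 16 * ((m₀ : ℝ) - 1) ^ 2 :=
        mul_le_mul_of_nonneg_left h10 (by linarith)
      linarith only [a7, h11, h12, h13, sq_nonneg s]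
    linarith
  -- the error of the flow
  have h5 : (p : ℝ) * (CI * (t₀ : ℝ) ^ (-(2 : ℝ))) ≤ ε / 16 := by
    have e1 : (t₀ : ℝ) ^ (-(2 : ℝ)) = 1 / (t₀ : ℝ) ^ 2 := by
      rw [Real.rpow_neg ht0.le, one_div]
      congr 1
      exact_mod_cast Real.rpow_natCast (t₀ : ℝ) 2
    rw [e1]
    have e2 : (p : ℝ) * (CI * (1 / (t₀ : ℝ) ^ 2)) = CI * (p * t₀) / (t₀ : ℝ) ^ 3 := by
      field_simp
    rw [e2, div_le_iff₀ (by positivity)]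
    have e3 : (s / 2) ^ 3 ≤ (t₀ : ℝ) ^ 3 := pow_le_pow_left₀ (by positivity) a3 3
    rw [div_le_iff₀ hε] at hsC2
    have e4 : CI * (p * t₀) ≤ CI * (7 * s ^ 2) := mul_le_mul_of_nonneg_left a7 hCI.le
    have e5 : ε / 16 * (s / 2) ^ 3 ≤ ε / 16 * (t₀ : ℝ) ^ 3 := mul_le_mul_of_nonneg_left e3 (by linarith)
    have e6 : 896 * CI * s ^ 2 ≤ s * ε * s ^ 2 := mul_le_mul_of_nonneg_right hsC2 (sq_nonneg s)
    linarith only [e4, e5, e6]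
  have h6 : min (fi {n | (T 2 3 (fun _ => ρ))^[(j + p) * t₀] n ∈ {y | y ≠ v}} n H) 2 ≤ 3 / 8 * ε := by
    have e1 : (∑ w ∈ W 2 (p * t₀), min (fi {n | (T 2 3 (fun _ => ρ))^[j * t₀] n ∈ {y | y ≠ v}} ((n : ℝ) * 3 ^ sg w / 2 ^ (p * t₀))
          (H * 3 ^ sg w / 2 ^ (p * t₀))) 2) / 2 ^ (p * t₀) ≤ ε / 8 + 2 * (ε / 16) := by
      refine le_trans h2 ?_
      linarith
    linarith
  have h7 : fi {n | (T 2 3 (fun _ => ρ))^[(j + p) * t₀] n ∈ {y | y ≠ v}} n H ≤ 3 / 8 * ε := by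
    rcases min_le_iff.1 h6 with h | h
    · exact h
    · linarith
  unfold fi at h7
  rw [div_le_iff₀ hH0] at h7
  -- the window
  have hn0 : (0 : ℝ) < n := by linarith
  have hnθ : (n : ℝ) ^ θ < H := by
    have e1 : (n : ℝ) ^ θ < (2 * x) ^ θ := Real.rpow_lt_rpow hn0.le hn2 hθ0
    have e2 : (2 * x) ^ θ = 2 ^ θ * x ^ θ := Real.mul_rpow (by norm_num) hx0.le
    have e3 : (2 : ℝ) ^ θ ≤ 2 := by
      calc (2 : ℝ) ^ θ ≤ 2 ^ (1 : ℝ) := Real.rpow_le_rpow_of_exponent_le (by norm_num) hθ1.le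
        _ = 2 := Real.rpow_one 2
    rw [hH]
    rw [e2] at e1
    exact e1.trans_le (mul_le_mul_of_nonneg_right e3 hxθ.le)
  have hxn : x ^ θ ≤ (n : ℝ) ^ θ := Real.rpow_le_rpow hx0.le hn1 hθ0.le
  rw [← hv]
  obtain ⟨S, hS⟩ : ∃ S : Set ℤ, S = {h : ℤ | 0 ≤ h ∧ (h : ℝ) ≤ (n : ℝ) ^ θ ∧ (T 2 3 (fun _ => ρ))^[(j + p) * t₀] (n + h) ≠ v} :=
    ⟨_, rfl⟩
  rw [← hS]
  have h8 : (S.ncard : ℝ) ≤ ({m : ℤ | (n : ℝ) ≤ m ∧ (m : ℝ) < n + H ∧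
      m ∈ {n | (T 2 3 (fun _ => ρ))^[(j + p) * t₀] n ∈ {y | y ≠ v}}}.ncard : ℝ) := by
    have hinj : Function.Injective (fun h : ℤ => n + h) := fun a b h => by
      have : n + a = n + b := h
      linarith
    have hfin : {m : ℤ | (n : ℝ) ≤ m ∧ (m : ℝ) < n + H ∧
      m ∈ {n | (T 2 3 (fun _ => ρ))^[(j + p) * t₀] n ∈ {y | y ≠ v}}}.Finite :=
      (finite_Ico (n : ℝ) (n + H)).subset fun m hm => ⟨hm.1, hm.2.1⟩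
    rw [← Set.ncard_image_of_injective S hinj]
    refine Nat.cast_le.2 (Set.ncard_le_ncard ?_ hfin)
    rintro _ ⟨h, hh, rfl⟩
    rw [hS] at hh
    obtain ⟨b1, b2, b3⟩ := hh
    have b1' : (0 : ℝ) ≤ h := by exact_mod_cast b1
    refine ⟨?_, ?_, b3⟩
    · push_cast; linarith
    · push_cast; linarith
  have h9 : 3 / 8 * ε * H ≤ ε * (n : ℝ) ^ θ := by
    rw [hH]
    have h0 := mul_le_mul_of_nonneg_left hxn hε.le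
    have h00 := mul_pos hε hxθ
    linarith only [h0, h00]
  linarith

end Pool.Agent.Helper8.SI
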